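import Pool.Agent.H.MP_db48a2_an.Bg.ValHev

/-!
# Reduced iterates
-/

namespace PoolBerk

open Polynomial Finset

variable {k : Type*} [Field k] {ι : Type*}

/-- Reduced iterates: `T_{x, j+1} = T_{R x, j} ∘ T_x`. -/
noncomputable def rAB (d : ℕ) (ρ : ι → ι) (A B : ι → k[X]) : ℕ → ι → k[X] × k[X]
  | 0, _ => (X, 1)
  | j + 1, i => (hev (d ^ j) (rAB d ρ A B j (ρ i)).1 (A i) (B i),
      hev (d ^ j) (rAB d ρ A B j (ρ i)).2 (A i) (B i))

/-- First component. -/
noncomputable def rA (d : ℕ) (ρ : ι → ι) (A B : ι → k[X]) (j : ℕ) (i : ι) : k[X] :=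
  (rAB d ρ A B j i).1

/-- Second component. -/
noncomputable def rB (d : ℕ) (ρ : ι → ι) (A B : ι → k[X]) (j : ℕ) (i : ι) : k[X] :=
  (rAB d ρ A B j i).2

variable {d : ℕ} {ρ : ι → ι} {A B : ι → k[X]}

theorem rA_succ (j : ℕ) (i : ι) :
    rA d ρ A B (j + 1) i = hev (d ^ j) (rA d ρ A B j (ρ i)) (A i) (B i) := rfl

theorem rB_succ (j : ℕ) (i : ι) :
    rB d ρ A B (j + 1) i = hev (d ^ j) (rB d ρ A B j (ρ i)) (A i) (B i) := rfl

theorem rA_zero (i : ι) : rA d ρ A B 0 i = X := rfl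

theorem rB_zero (i : ι) : rB d ρ A B 0 i = 1 := rfl

theorem rA_one (i : ι) : rA d ρ A B 1 i = A i := by
  rw [rA_succ, rA_zero, pow_zero, hev_one_X]

theorem rB_one (i : ι) : rB d ρ A B 1 i = B i := by
  rw [rB_succ, rB_zero, pow_zero, hev_one_one]

/-- A system of reduced maps of degree at most `d`, stable under `ρ`. -/
structure RSys (d : ℕ) (I : Finset ι) (ρ : ι → ι) (A B : ι → k[X]) : Prop where
  maps : ∀ i ∈ I, ρ i ∈ I
  dA : ∀ i ∈ I, (A i).natDegree ≤ d
  dB : ∀ i ∈ I, (B i).natDegree ≤ d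
  non : ∀ i ∈ I, NonC (A i) (B i)

variable {I : Finset ι}

theorem RSys.natDegree_le (h : RSys d I ρ A B) (j : ℕ) {i : ι} (hi : i ∈ I) :
    (rA d ρ A B j i).natDegree ≤ d ^ j ∧ (rB d ρ A B j i).natDegree ≤ d ^ j := by
  cases j with
  | zero =>
    rw [rA_zero, rB_zero, pow_zero, natDegree_one]
    exact ⟨natDegree_X_le, Nat.zero_le _⟩
  | succ j =>
    rw [rA_succ, rB_succ, pow_succ]
    exact ⟨natDegree_hev_le _ (h.dA i hi) (h.dB i hi), natDegree_hev_le _ (h.dA i hi) (h.dB i hi)⟩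

theorem Cyc_nonC_X : NonC (X : k[X]) 1 := by
  refine ⟨one_ne_zero, fun t ht => ?_⟩
  rw [mul_one] at ht
  have h1 := congrArg natDegree ht
  rw [natDegree_X, natDegree_C] at h1
  exact one_ne_zero h1

theorem RSys.nonC [IsAlgClosed k] (h : RSys d I ρ A B) (j : ℕ) {i : ι} (hi : i ∈ I) :
    NonC (rA d ρ A B j i) (rB d ρ A B j i) := by
  induction j generalizing i with
  | zero =>
    rw [rA_zero, rB_zero]
    exact Cyc_nonC_X
  | succ j ih =>
    rw [rA_succ, rB_succ]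
    have h1 := h.natDegree_le j (h.maps i hi)
    exact NonC.hev h1.1 h1.2 (ih (h.maps i hi)) (h.non i hi)

/-- The other recursion: `T_{x, j+1} = T_{R^j x} ∘ T_{x, j}`. -/
theorem RSys.succ' (h : RSys d I ρ A B) (j : ℕ) {i : ι} (hi : i ∈ I) :
    rA d ρ A B (j + 1) i =
      hev d (A (ρ^[j] i)) (rA d ρ A B j i) (rB d ρ A B j i) ∧
    rB d ρ A B (j + 1) i =
      hev d (B (ρ^[j] i)) (rA d ρ A B j i) (rB d ρ A B j i) := by
  induction j generalizing i with
  | zero =>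
    rw [rA_one, rB_one, rA_zero, rB_zero, Function.iterate_zero, id_eq,
      hev_X_one (h.dA i hi), hev_X_one (h.dB i hi)]
    exact ⟨rfl, rfl⟩
  | succ j ih =>
    have hρ := h.maps i hi
    have h1 := ih hρ
    have h2 := h.natDegree_le j hρ
    have hmem : ∀ m : ℕ, ∀ x ∈ I, ρ^[m] x ∈ I := by
      intro m
      induction m with
      | zero => intro x hx; exact hx
      | succ m ihm =>
        intro x hx
        rw [Function.iterate_succ_apply]
        exact ihm _ (h.maps x hx)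
    have h3 := hmem j _ hρ
    rw [rA_succ (j + 1), rB_succ (j + 1), h1.1, h1.2, pow_succ', hev_hev (h.dA _ h3) h2.1 h2.2,
      hev_hev (h.dB _ h3) h2.1 h2.2, ← rA_succ, ← rB_succ, Function.iterate_succ_apply]
    exact ⟨rfl, rfl⟩

/-- Zeros of the denominators along an orbit. -/
theorem RSys.rB_eval_succ (h : RSys d I ρ A B) (j : ℕ) {i : ι} (hi : i ∈ I) {v : k}
    (hv : (B i).eval v ≠ 0) :
    (rB d ρ A B (j + 1) i).eval v =
      (B i).eval v ^ d ^ j * (rB d ρ A B j (ρ i)).eval ((A i).eval v / (B i).eval v) := by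
  rw [rB_succ, eval_hev]
  have h1 := hevv_mul_right (h.natDegree_le j (h.maps i hi)).2
    ((A i).eval v / (B i).eval v) ((B i).eval v)
  rw [div_mul_cancel₀ _ hv] at h1
  exact h1

/-- The degree at time `n` is constant along a cycle of period `n`. -/
theorem RSys.degPQ_cyc [IsAlgClosed k] (h : RSys d I ρ A B) {n : ℕ} {i : ι} (hi : i ∈ I)
    (hper : ρ^[n] i = i) :
    degPQ (rA d ρ A B n (ρ i)) (rB d ρ A B n (ρ i)) = degPQ (rA d ρ A B n i) (rB d ρ A B n i) := by
  have h1 := h.natDegree_le n (h.maps i hi)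
  have h2 := degPQ_hev (h.non i hi) (h.nonC n (h.maps i hi)) h1.1 h1.2
  have h3 := degPQ_hev (h.nonC n hi) (h.non i hi) (h.dA i hi) (h.dB i hi)
  have h4 := h.succ' n hi
  rw [hper] at h4
  rw [← rA_succ, ← rB_succ, h4.1, h4.2, h3, mul_comm] at h2
  exact (Nat.eq_of_mul_eq_mul_right (one_le_degPQ (h.non i hi)) h2).symm

/-- Fixed directions are mapped to fixed directions. -/
theorem RSys.val_cyc [IsAlgClosed k] (h : RSys d I ρ A B) {n : ℕ} {i : ι} (hi : i ∈ I)
    (hper : ρ^[n] i = i) {v : k} (hv : (B i).eval v ≠ 0)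
    (hfix : Val (rA d ρ A B n i) (rB d ρ A B n i) v v) :
    Val (rA d ρ A B n (ρ i)) (rB d ρ A B n (ρ i)) ((A i).eval v / (B i).eval v)
      ((A i).eval v / (B i).eval v) := by
  have h0 := val_div (A := A i) (h.non i hi).1 hv
  have h1 := h.natDegree_le n (h.maps i hi)
  have h4 := h.succ' n hi
  rw [hper] at h4
  have h2 := val_hev_iff (z := (A i).eval v / (B i).eval v) (h.non i hi)
    (h.nonC n (h.maps i hi)) h1.1 h1.2 h0
  have h3 := val_hev_iff (z := (A i).eval v / (B i).eval v) (h.nonC n hi) (h.non i hi)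
    (h.dA i hi) (h.dB i hi) hfix
  rw [← rA_succ, ← rB_succ, h4.1, h4.2] at h2
  exact h2.1 (h3.2 h0)

/-- A fixed direction is determined by its image. -/
theorem RSys.val_inj [IsAlgClosed k] (h : RSys d I ρ A B) {n : ℕ} (hn : 1 ≤ n) {i : ι} (hi : i ∈ I)
    {v v' : k} (hv : (B i).eval v ≠ 0) (hv' : (B i).eval v' ≠ 0)
    (hfix : Val (rA d ρ A B n i) (rB d ρ A B n i) v v)
    (hfix' : Val (rA d ρ A B n i) (rB d ρ A B n i) v' v')
    (heq : (A i).eval v / (B i).eval v = (A i).eval v' / (B i).eval v') : v = v' := by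
  obtain ⟨m, rfl⟩ : ∃ m, n = m + 1 := ⟨n - 1, by omega⟩
  have h1 := h.natDegree_le m (h.maps i hi)
  have h0 := val_div (A := A i) (h.non i hi).1 hv
  have h0' := val_div (A := A i) (h.non i hi).1 hv'
  rw [rA_succ, rB_succ] at hfix hfix'
  have h2 := (val_hev_iff (h.non i hi) (h.nonC m (h.maps i hi)) h1.1 h1.2 h0).1 hfix
  have h3 := (val_hev_iff (h.non i hi) (h.nonC m (h.maps i hi)) h1.1 h1.2 h0').1 hfix'
  rw [← heq] at h3
  exact Val.unique h2 h3

end PoolBerk
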