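import Mathlib

/-!
# The levels lemma
-/

namespace PoolBerk

open Finset

/-- Fibrewise count of the elements with `τ` in a set of values. -/
private theorem Levels_fib {ι : Type*} (E : Finset ι) (τ : ι → ℕ) (a b : ℕ) :
    (E.filter (fun x => a < τ x ∧ τ x ≤ b)).card =
      ∑ t ∈ Ioc a b, (E.filter (fun x => τ x = t)).card := by
  classical
  rw [Finset.card_eq_sum_card_fiberwise (f := τ) (t := Ioc a b)]
  · refine Finset.sum_congr rfl fun t ht => ?_
    rw [Finset.mem_Ioc] at ht
    congr 1
    ext x
    simp only [Finset.mem_filter]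
    constructor
    · rintro ⟨⟨h1, _⟩, h3⟩
      exact ⟨h1, h3⟩
    · rintro ⟨h1, h3⟩
      exact ⟨⟨h1, by omega, by omega⟩, h3⟩
  · intro x hx
    simp only [Finset.coe_filter, Set.mem_ofPred_eq] at hx
    simp only [Finset.coe_Ioc, Set.mem_Ioc]
    exact hx.2

/-- **Levels.**  `f` maps the level `{τ = t + 1}` injectively into the level `{τ = t}` (`t ≥ 1`), so the
levels `L t`, `t = 1, ..., n` are nonincreasing and the last `k` of them contain at most the
proportion `k / n` of all the elements. -/
theorem levels {ι : Type*} (E : Finset ι) (τ : ι → ℕ) (f : ι → ι)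
    (n k : ℕ) (hk : k ≤ n)
    (h1 : ∀ x ∈ E, 2 ≤ τ x → τ x ≤ n → f x ∈ E ∧ τ (f x) + 1 = τ x)
    (hinj : ∀ x ∈ E, ∀ y ∈ E, 2 ≤ τ x → 2 ≤ τ y → f x = f y → x = y) :
    n * (E.filter (fun x => n - k < τ x ∧ τ x ≤ n)).card ≤ k * E.card := by
  classical
  set L : ℕ → ℕ := fun t => (E.filter (fun x => τ x = t)).card with hL
  have hstep : ∀ t, 1 ≤ t → t < n → L (t + 1) ≤ L t := by
    intro t ht htn
    refine Finset.card_le_card_of_injOn f ?_ ?_
    · intro x hx
      simp only [Finset.coe_filter, Set.mem_ofPred_eq] at hx ⊢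
      obtain ⟨hE, hτ⟩ := hx
      have := h1 x hE (by omega) (by omega)
      exact ⟨this.1, by omega⟩
    · intro x hx y hy hxy
      simp only [Finset.coe_filter, Set.mem_ofPred_eq] at hx hy
      exact hinj x hx.1 y hy.1 (by omega) (by omega) hxy
  have hmono : ∀ s, 1 ≤ s → ∀ t, s ≤ t → t ≤ n → L t ≤ L s := by
    intro s hs t hst
    induction t, hst using Nat.le_induction with
    | base => intro _; exact le_rfl
    | succ t hst ih =>
      intro htn
      exact (hstep t (by omega) (by omega)).trans (ih (by omega))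
  have hS1 := Levels_fib E τ (n - k) n
  have hS0 := Levels_fib E τ 0 (n - k)
  have hsum : (E.filter (fun x => 0 < τ x ∧ τ x ≤ n - k)).card +
      (E.filter (fun x => n - k < τ x ∧ τ x ≤ n)).card ≤ E.card := by
    rw [← Finset.card_union_of_disjoint]
    · apply Finset.card_le_card
      intro x hx
      simp only [Finset.mem_union, Finset.mem_filter] at hx
      rcases hx with hx | hx
      · exact hx.1
      · exact hx.1
    · rw [Finset.disjoint_left]
      intro x hx hy
      simp only [Finset.mem_filter] at hx hy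
      omega
  rcases Nat.eq_zero_or_pos k with hk0 | hk0
  · subst hk0
    have : (E.filter (fun x => n - 0 < τ x ∧ τ x ≤ n)).card = 0 := by
      rw [Finset.card_eq_zero, Finset.filter_eq_empty_iff]
      intro x _ h
      omega
    rw [this]; simp
  set M := L (n - k + 1) with hM
  have hup : (E.filter (fun x => n - k < τ x ∧ τ x ≤ n)).card ≤ k * M := by
    rw [hS1]
    calc ∑ t ∈ Ioc (n - k) n, L t ≤ ∑ _t ∈ Ioc (n - k) n, M := by
          refine Finset.sum_le_sum fun t ht => ?_
          rw [Finset.mem_Ioc] at ht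
          exact hmono _ (by omega) t (by omega) ht.2
      _ = k * M := by
          rw [Finset.sum_const, Nat.card_Ioc, smul_eq_mul]
          congr 1
          omega
  have hlo : (n - k) * M ≤ (E.filter (fun x => 0 < τ x ∧ τ x ≤ n - k)).card := by
    rw [hS0]
    calc (n - k) * M = ∑ _t ∈ Ioc 0 (n - k), M := by
          rw [Finset.sum_const, Nat.card_Ioc, smul_eq_mul]
          congr 1
      _ ≤ ∑ t ∈ Ioc 0 (n - k), L t := by
          refine Finset.sum_le_sum fun t ht => ?_
          rw [Finset.mem_Ioc] at ht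
          exact hmono t (by omega) _ (by omega) (by omega)
  set S1 := (E.filter (fun x => n - k < τ x ∧ τ x ≤ n)).card
  set S0 := (E.filter (fun x => 0 < τ x ∧ τ x ≤ n - k)).card
  obtain ⟨m, rfl⟩ : ∃ m, n = k + m := ⟨n - k, by omega⟩
  have e : k + m - k = m := by omega
  rw [e] at hlo
  calc (k + m) * S1 = k * S1 + m * S1 := by ring
    _ ≤ k * S1 + m * (k * M) := by gcongr
    _ = k * S1 + k * (m * M) := by ring
    _ ≤ k * S1 + k * S0 := by gcongr
    _ = k * (S0 + S1) := by ring
    _ ≤ k * E.card := by gcongr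

end PoolBerk
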