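import Pool.Agent.H.MP_db48a2_an.Bg.Cyc
import Pool.Agent.H.MP_db48a2_an.Bg.Levels

/-!
# Counting late poles
-/

namespace PoolBerk

open Polynomial Finset

variable {k : Type*} [Field k] {ι : Type*} {d : ℕ} {ρ : ι → ι} {A B : ι → k[X]} {I : Finset ι}

/-- The first time of a pole (`n + 1` if there is no pole up to time `n`). -/
noncomputable def tauv (d : ℕ) (ρ : ι → ι) (A B : ι → k[X]) (n : ℕ) (i : ι) (v : k) : ℕ :=
  sInf ({j | 1 ≤ j ∧ (rB d ρ A B j i).eval v = 0} ∪ {n + 1})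

private theorem CycCount_tau_le (n : ℕ) (i : ι) (v : k) {j : ℕ} (hj : 1 ≤ j)
    (h0 : (rB d ρ A B j i).eval v = 0) : tauv d ρ A B n i v ≤ j :=
  Nat.sInf_le (Or.inl ⟨hj, h0⟩)

private theorem CycCount_tau_spec (n : ℕ) (i : ι) (v : k) (h : tauv d ρ A B n i v ≤ n) :
    1 ≤ tauv d ρ A B n i v ∧ (rB d ρ A B (tauv d ρ A B n i v) i).eval v = 0 := by
  have hm : tauv d ρ A B n i v ∈ ({j | 1 ≤ j ∧ (rB d ρ A B j i).eval v = 0} ∪ {n + 1} : Set ℕ) :=
    Nat.sInf_mem ⟨n + 1, Or.inr rfl⟩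
  rcases hm with hm | hm
  · exact hm
  · have : tauv d ρ A B n i v = n + 1 := hm
    omega

/-- **Counting late poles.** -/
theorem RSys.count_late [IsAlgClosed k] (h : RSys d I ρ A B) {n k' : ℕ} (hn : 1 ≤ n)
    (hk : k' ≤ n) (hper : ∀ i ∈ I, ρ^[n] i = i)
    (hD : ∀ i ∈ I, 2 ≤ degPQ (rA d ρ A B n i) (rB d ρ A B n i)) (S : ι → Finset k)
    (hS : ∀ i ∈ I, ∀ v ∈ S i, Val (rA d ρ A B n i) (rB d ρ A B n i) v v ∧
      (∀ j, 1 ≤ j → j ≤ n - k' → (rB d ρ A B j i).eval v ≠ 0) ∧ (rB d ρ A B n i).eval v = 0) :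
    n * ∑ i ∈ I, (S i).card ≤
      3 * k' * ∑ i ∈ I, (degPQ (rA d ρ A B n i) (rB d ρ A B n i) - 1) := by
  classical
  have hfin : ∀ i ∈ I, ∃ T : Finset k, (∀ v, v ∈ T ↔ Val (rA d ρ A B n i) (rB d ρ A B n i) v v) ∧
      T.card ≤ 3 * (degPQ (rA d ρ A B n i) (rB d ρ A B n i) - 1) := by
    intro i hi
    have hB := (h.nonC n hi).1
    obtain ⟨h1, h2⟩ := card_val_self_le hB (ne_X_mul_of_two_le hB (hD i hi))
    refine ⟨h1.toFinset, fun v => ?_, ?_⟩
    · rw [Set.Finite.mem_toFinset, Set.mem_ofPred_eq]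
    · rw [← Set.ncard_eq_toFinset_card _ h1]
      have := hD i hi
      omega
  choose! T hT hTc using hfin
  obtain ⟨E, hE⟩ : ∃ E : Finset (Σ _ : ι, k), E = I.sigma T := ⟨_, rfl⟩
  have hmem : ∀ x : (Σ _ : ι, k), x ∈ E ↔
      x.1 ∈ I ∧ Val (rA d ρ A B n x.1) (rB d ρ A B n x.1) x.2 x.2 := by
    intro x
    rw [hE, Finset.mem_sigma]
    constructor
    · rintro ⟨h1, h2⟩
      exact ⟨h1, (hT _ h1 _).1 h2⟩
    · rintro ⟨h1, h2⟩
      exact ⟨h1, (hT _ h1 _).2 h2⟩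
  have hBne : ∀ (i : ι) (v : k), 2 ≤ tauv d ρ A B n i v → (B i).eval v ≠ 0 := by
    intro i v h2 h0
    have h3 : (rB d ρ A B 1 i).eval v = 0 := by rw [rB_one]; exact h0
    have := CycCount_tau_le (d := d) (ρ := ρ) (A := A) (B := B) n i v le_rfl h3
    omega
  have hlev := levels E (fun x => tauv d ρ A B n x.1 x.2)
    (fun x => ⟨ρ x.1, (A x.1).eval x.2 / (B x.1).eval x.2⟩) n k' hk
    (by
      intro x hx h2 hxn
      rw [hmem] at hx
      have hB0 := hBne _ _ h2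
      refine ⟨?_, ?_⟩
      · rw [hmem]
        exact ⟨h.maps _ hx.1, h.val_cyc hx.1 (hper _ hx.1) hB0 hx.2⟩
      · obtain ⟨t, ht⟩ : ∃ t, tauv d ρ A B n x.1 x.2 = t + 1 := ⟨_, (Nat.sub_add_cancel (by omega)).symm⟩
        have hz := (CycCount_tau_spec n x.1 x.2 hxn).2
        rw [ht, h.rB_eval_succ t hx.1 hB0] at hz
        have hz1 := (mul_eq_zero.1 hz).resolve_left (pow_ne_zero _ hB0)
        have hle := CycCount_tau_le n (ρ x.1) ((A x.1).eval x.2 / (B x.1).eval x.2)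
          (by omega : 1 ≤ t) hz1
        obtain ⟨s, hs⟩ : ∃ s, s = tauv d ρ A B n (ρ x.1) ((A x.1).eval x.2 / (B x.1).eval x.2) :=
          ⟨_, rfl⟩
        have hsp := CycCount_tau_spec n (ρ x.1) ((A x.1).eval x.2 / (B x.1).eval x.2)
          (hle.trans (by omega))
        rw [← hs] at hsp hle
        have hz2 : (rB d ρ A B (s + 1) x.1).eval x.2 = 0 := by
          rw [h.rB_eval_succ s hx.1 hB0, hsp.2, mul_zero]
        have := CycCount_tau_le n x.1 x.2 (by omega : 1 ≤ s + 1) hz2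
        change tauv d ρ A B n (ρ x.1) ((A x.1).eval x.2 / (B x.1).eval x.2) + 1 =
          tauv d ρ A B n x.1 x.2
        rw [← hs]
        omega)
    (by
      rintro ⟨i, v⟩ hx ⟨i', v'⟩ hy h2 h2' heq
      rw [hmem] at hx hy
      simp only at hx hy h2 h2'
      have hρ : ρ i = ρ i' := congrArg Sigma.fst heq
      have hii : i = i' := by
        have e1 := hper i hx.1
        have e2 := hper i' hy.1
        obtain ⟨m, rfl⟩ : ∃ m, n = m + 1 := ⟨n - 1, by omega⟩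
        rw [Function.iterate_succ_apply] at e1 e2
        rw [← e1, ← e2, hρ]
      subst hii
      have hev : (A i).eval v / (B i).eval v = (A i).eval v' / (B i).eval v' := by
        have := (Sigma.mk.inj heq).2
        exact eq_of_heq this
      have := h.val_inj hn hx.1 (hBne _ _ h2) (hBne _ _ h2') hx.2 hy.2 hev
      rw [this])
  have hsub : I.sigma S ⊆ E.filter (fun x => n - k' < tauv d ρ A B n x.1 x.2 ∧
      tauv d ρ A B n x.1 x.2 ≤ n) := by
    intro x hx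
    rw [Finset.mem_sigma] at hx
    obtain ⟨h1, h2, h3⟩ := hS x.1 hx.1 x.2 hx.2
    have hle := CycCount_tau_le n x.1 x.2 hn h3
    rw [Finset.mem_filter, hmem]
    refine ⟨⟨hx.1, h1⟩, ?_, hle⟩
    obtain ⟨h4, h5⟩ := CycCount_tau_spec n x.1 x.2 hle
    by_contra hc
    exact h2 _ h4 (by omega) h5
  have hc1 := Finset.card_le_card hsub
  rw [Finset.card_sigma] at hc1
  have hc2 : E.card ≤ ∑ i ∈ I, 3 * (degPQ (rA d ρ A B n i) (rB d ρ A B n i) - 1) := by
    rw [hE, Finset.card_sigma]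
    exact Finset.sum_le_sum fun i hi => hTc i hi
  rw [← Finset.mul_sum] at hc2
  calc n * ∑ i ∈ I, (S i).card ≤ n * _ := Nat.mul_le_mul_left _ hc1
    _ ≤ k' * E.card := hlev
    _ ≤ k' * (3 * ∑ i ∈ I, (degPQ (rA d ρ A B n i) (rB d ρ A B n i) - 1)) :=
        Nat.mul_le_mul_left _ hc2
    _ = _ := by ring

end PoolBerk
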