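import Pool.Agent.H.MP_db48a2_an.Bg.GnU

/-!
# Multipliers of fixed points
-/

namespace PoolBerk

open Polynomial Metric

variable {K : Type*} [NontriviallyNormedField K] [IsUltrametricDist K]

/-- Points with multiplier of norm at most one. -/
def Bad (P Q : K[X]) : Set K :=
  {y | ‖(derivative P * Q - P * derivative Q).eval y‖ ≤ ‖Q.eval y‖ ^ 2}

/-- Repelling fixed points in `K`. -/
def RepPts (P Q : K[X]) : Set K :=
  {y | Q.eval y ≠ 0 ∧ P.eval y = y * Q.eval y ∧
    ‖Q.eval y‖ ^ 2 < ‖(derivative P * Q - P * derivative Q).eval y‖}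

/-- The zeros of `P - X Q` which are not repelling. -/
noncomputable def badRoots (P Q : K[X]) : Multiset K := by
  classical exact (P - X * Q).roots.filter (fun y => y ∈ Bad P Q)

/-- At a zero of `P - X Q`. -/
theorem wronsk_eval {P Q : K[X]} {y : K} (h : P.eval y = y * Q.eval y) :
    (derivative P * Q - P * derivative Q).eval y =
      Q.eval y * ((derivative (P - X * Q)).eval y + Q.eval y) := by
  simp only [eval_sub, eval_mul, derivative_sub, derivative_mul, derivative_X, one_mul, eval_add,
    eval_X]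
  linear_combination (-(derivative Q).eval y) * h

omit [IsUltrametricDist K] in
theorem Deriv_root {P Q : K[X]} {y : K} (h : (P - X * Q).IsRoot y) :
    P.eval y = y * Q.eval y := by
  rw [IsRoot, eval_sub, eval_mul, eval_X] at h
  exact sub_eq_zero.1 h

/-- Multiple fixed points have multiplier one. -/
theorem bad_of_multiple {P Q : K[X]} {y : K} (hne : P - X * Q ≠ 0)
    (h : 2 ≤ (P - X * Q).rootMultiplicity y) : y ∈ Bad P Q := by
  have h1 := (one_lt_rootMultiplicity_iff_isRoot hne).1 h
  have h2 := wronsk_eval (Deriv_root h1.1)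
  have h3 : (derivative (P - X * Q)).eval y = 0 := h1.2
  show ‖(derivative P * Q - P * derivative Q).eval y‖ ≤ ‖Q.eval y‖ ^ 2
  rw [h2, h3, zero_add, norm_mul, pow_two]

/-- A zero which is alone in an open ball without poles and with `u < 1` is bad.
(`gn (P - X Q) y r = ‖(P - X Q)' y‖ * r`, `gn Q y r = ‖Q y‖`, so `‖(P - X Q)' y‖ < ‖Q y‖`.) -/
theorem bad_of_uu [IsAlgClosed K] {P Q : K[X]} (hQ : Q ≠ 0) (hne : P - X * Q ≠ 0) {y : K} {r : ℝ}
    (hr : 0 < r) (hy : (P - X * Q).rootMultiplicity y = 1)
    (h1 : ∀ z ∈ (P - X * Q).roots, z ∈ ball y r → z = y) (h2 : ∀ z ∈ Q.roots, z ∉ ball y r)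
    (hu : uu P Q y r < 1) : y ∈ Bad P Q := by
  obtain ⟨G, hG, hGd⟩ := exists_eq_pow_rootMultiplicity_mul_and_not_dvd (P - X * Q) hne y
  rw [hy, pow_one] at hG
  have hGy : G.eval y ≠ 0 := fun h0 => hGd (dvd_iff_isRoot.2 h0)
  have hG0 : G ≠ 0 := by
    intro h0
    rw [h0, eval_zero] at hGy
    exact hGy rfl
  have hroot : (P - X * Q).IsRoot y := by
    rw [hG, IsRoot, eval_mul, eval_sub, eval_X, eval_C, sub_self, zero_mul]
  have hder : (derivative (P - X * Q)).eval y = G.eval y := by
    rw [hG]
    simp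
  have hroots : (P - X * Q).roots = y ::ₘ G.roots := by
    rw [hG, roots_mul (by rw [← hG]; exact hne), roots_X_sub_C, Multiset.singleton_add]
  have hlc : (P - X * Q).leadingCoeff = G.leadingCoeff := by
    rw [hG, leadingCoeff_mul, leadingCoeff_X_sub_C, one_mul]
  have hgn : gn (P - X * Q) y r = r * gn G y r := by
    unfold gn
    rw [hroots, hlc, Multiset.map_cons, Multiset.prod_cons, sub_self, norm_zero,
      max_eq_left hr.le]
    ring
  have hGn : gn G y r = ‖G.eval y‖ := by
    apply gn_eq_norm_eval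
    intro α hα
    by_contra hcon
    push Not at hcon
    have h3 : α ∈ (P - X * Q).roots := by
      rw [hroots]
      exact Multiset.mem_cons_of_mem hα
    have h4 : α = y := h1 α h3 (by rw [mem_ball, dist_comm, dist_eq_norm]; exact hcon)
    rw [h4] at hα
    exact hGy (isRoot_of_mem_roots hα)
  have hQn : gn Q y r = ‖Q.eval y‖ := by
    apply gn_eq_norm_eval
    intro α hα
    by_contra hcon
    push Not at hcon
    exact h2 α hα (by rw [mem_ball, dist_comm, dist_eq_norm]; exact hcon)
  have hQpos : 0 < gn Q y r := gn_pos hQ y hr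
  have hlt : ‖G.eval y‖ < ‖Q.eval y‖ := by
    unfold uu at hu
    rw [div_lt_one (mul_pos hQpos hr), hgn, hGn, hQn, mul_comm] at hu
    exact lt_of_mul_lt_mul_right hu hr.le
  show ‖(derivative P * Q - P * derivative Q).eval y‖ ≤ ‖Q.eval y‖ ^ 2
  rw [wronsk_eval (Deriv_root hroot), hder, norm_mul, pow_two]
  refine mul_le_mul_of_nonneg_left ?_ (norm_nonneg _)
  exact (IsUltrametricDist.norm_add_le_max _ _).trans (max_le hlt.le le_rfl)

/-- The hypothesis `base` of the tree lemma. -/
theorem base_hyp [IsAlgClosed K] {P Q : K[X]} (hQ : Q ≠ 0) (hne : P - X * Q ≠ 0) {Th : Multiset K}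
    (y : K) (r : ℝ) (hr : 0 < r) (h1 : ∀ z ∈ (P - X * Q).roots, z ∈ ball y r → z = y)
    (h2 : ∀ z ∈ Q.roots, z ∉ ball y r)
    (hu : uu P Q y r < 1 ∨ 2 ≤ cnt (P - X * Q).roots (ball y r)) :
    cnt (P - X * Q).roots (ball y r) ≤ cnt (badRoots P Q + Th) (ball y r) := by
  classical
  rcases Nat.eq_zero_or_pos (cnt (P - X * Q).roots (ball y r)) with h0 | h0
  · rw [h0]
    exact Nat.zero_le _
  · obtain ⟨z, hz, hzb⟩ := (cnt_pos_iff _ _).1 h0
    have hzy := h1 z hz hzb
    rw [hzy] at hz
    have hcnt : cnt (P - X * Q).roots (ball y r) = (P - X * Q).rootMultiplicity y := by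
      rw [← count_roots]
      unfold cnt
      rw [Multiset.count]
      refine Multiset.countP_congr rfl ?_
      intro x hx
      apply propext
      constructor
      · intro hxb
        exact (h1 x hx hxb).symm
      · intro hxy
        rw [← hxy]
        exact mem_ball_self hr
    have hbad : y ∈ Bad P Q := by
      have hm : 0 < (P - X * Q).rootMultiplicity y :=
        (rootMultiplicity_pos hne).2 (isRoot_of_mem_roots hz)
      rcases Nat.lt_or_ge 1 ((P - X * Q).rootMultiplicity y) with hm2 | hm2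
      · exact bad_of_multiple hne hm2
      · refine bad_of_uu hQ hne hr (by omega) h1 h2 ?_
        rcases hu with hu | hu
        · exact hu
        · rw [hcnt] at hu
          omega
    have hb : cnt (P - X * Q).roots (ball y r) = cnt (badRoots P Q) (ball y r) := by
      unfold cnt badRoots
      rw [Multiset.countP_filter]
      refine Multiset.countP_congr rfl ?_
      intro x hx
      apply propext
      constructor
      · intro hxb
        refine ⟨hxb, ?_⟩
        rw [h1 x hx hxb]
        exact hbad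
      · intro hxb
        exact hxb.1
    rw [cnt_add, hb]
    exact Nat.le_add_right _ _

/-- In a direction without zero of the reduction of the denominator all fixed points are bad.
With `A₀ = C s * aff a c (P - C a * Q)`, `B₀ = C (s * c) * aff a c Q` integral, `y = a + c t`:
`A₀' B₀ - A₀ B₀'` is integral and equal to `(s c) ^ 2 * aff a c (P' Q - P Q')`, `‖B₀ (t)‖ = 1`. -/
theorem bad_of_dir [IsAlgClosed K] {P Q : K[X]} {a c s : K} {A B : (kK K)[X]} (hc : c ≠ 0)
    (h : IsRed P Q a c a c A B s) {v : kK K} (hv : B.eval v ≠ 0) {y : K} (hy : y ∈ dirB a c v) :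
    y ∈ Bad P Q := by
  obtain ⟨hy1, hy2⟩ := (mem_dirB_iff hc).1 hy
  have hcp : 0 < ‖c‖ := norm_pos_iff.2 hc
  obtain ⟨t, ht⟩ : ∃ t, t = (y - a) / c := ⟨_, rfl⟩
  have ht1 : ‖t‖ ≤ 1 := by
    rw [ht, norm_div, div_le_one hcp]
    rw [mem_closedBall, dist_eq_norm] at hy1
    exact hy1
  have hyt : a + c * t = y := by
    rw [ht, mul_div_cancel₀ _ hc]
    ring
  have hvt : red t = v := by
    rw [ht]
    exact hy2
  have haff : ∀ F : K[X], (aff a c F).eval t = F.eval y := by
    intro F
    rw [aff, eval_comp, eval_add, eval_mul, eval_C, eval_C, eval_X, hyt]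
  have hW : Intg (derivative (C s * aff a c (P - C a * Q)) * (C (s * c) * aff a c Q) -
      C s * aff a c (P - C a * Q) * derivative (C (s * c) * aff a c Q)) :=
    (h.i1.derivative.mul h.i2).sub (h.i1.mul h.i2.derivative)
  have hWe := (red_eval hW ht1).1
  have hWv : (derivative (C s * aff a c (P - C a * Q)) * (C (s * c) * aff a c Q) -
      C s * aff a c (P - C a * Q) * derivative (C (s * c) * aff a c Q)).eval t =
      (s * c) ^ 2 * (derivative P * Q - P * derivative Q).eval y := by
    rw [derivative_C_mul, derivative_C_mul, derivative_aff, derivative_aff, derivative_sub,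
      derivative_C_mul]
    simp only [eval_sub, eval_mul, eval_C, haff]
    ring
  have hB := red_eval h.i2 ht1
  rw [h.r2, hvt] at hB
  have hBv : (C (s * c) * aff a c Q).eval t = s * c * Q.eval y := by
    rw [eval_mul, eval_C, haff]
  rw [hBv] at hB
  have hB1 : ‖s * c * Q.eval y‖ = 1 := by
    refine le_antisymm hB.1 ?_
    by_contra hcon
    push Not at hcon
    rw [← red_eq_zero_iff hB.1, hB.2] at hcon
    exact hv hcon
  show ‖(derivative P * Q - P * derivative Q).eval y‖ ≤ ‖Q.eval y‖ ^ 2
  rw [hWv, norm_mul, norm_pow] at hWe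
  rw [norm_mul] at hB1
  have hsc : 0 < ‖s * c‖ := norm_pos_iff.2 (mul_ne_zero h.hs hc)
  have h3 : ‖s * c‖ ^ 2 * ‖(derivative P * Q - P * derivative Q).eval y‖ ≤
      ‖s * c‖ ^ 2 * ‖Q.eval y‖ ^ 2 := by
    rw [← mul_pow, hB1, one_pow]
    exact hWe
  exact le_of_mul_le_mul_left h3 (pow_pos hsc 2)

/-- Counting. -/
theorem card_badRoots_add {P Q : K[X]} (hne : P - X * Q ≠ 0) :
    (RepPts P Q).Finite ∧
      Multiset.card (badRoots P Q) + (RepPts P Q).ncard ≤ (P - X * Q).natDegree := by
  classical
  have hsub : RepPts P Q ⊆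
      (((P - X * Q).roots.filter (fun y => ¬ y ∈ Bad P Q)).toFinset : Set K) := by
    rintro y ⟨_, hy2, hy3⟩
    rw [Finset.mem_coe, Multiset.mem_toFinset, Multiset.mem_filter]
    refine ⟨?_, fun hb => absurd hy3 (not_lt.2 hb)⟩
    rw [mem_roots hne, IsRoot, eval_sub, eval_mul, eval_X, hy2, sub_self]
  have hfin : (RepPts P Q).Finite := (Finset.finite_toSet _).subset hsub
  refine ⟨hfin, ?_⟩
  have h1 : (RepPts P Q).ncard ≤
      Multiset.card ((P - X * Q).roots.filter (fun y => ¬ y ∈ Bad P Q)) := by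
    refine (Set.ncard_le_ncard hsub (Finset.finite_toSet _)).trans ?_
    rw [Set.ncard_coe_finset]
    exact Multiset.toFinset_card_le _
  have h2 : Multiset.card (badRoots P Q) =
      Multiset.card ((P - X * Q).roots.filter (fun y => y ∈ Bad P Q)) := by
    unfold badRoots
    congr!
  have h3 : Multiset.card ((P - X * Q).roots.filter (fun y => y ∈ Bad P Q)) +
      Multiset.card ((P - X * Q).roots.filter (fun y => ¬ y ∈ Bad P Q)) =
      Multiset.card (P - X * Q).roots := by
    rw [← Multiset.card_add, Multiset.filter_add_not]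
  have h4 := card_roots' (P - X * Q)
  omega

end PoolBerk
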