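import Pool.Agent.H.MP_db48a2_an.Bk.RedA
import Pool.Agent.H.MP_db48a2_an.Bk.CntA

/-!
# Directions at a closed ball
-/

namespace PoolBerk

open Polynomial Metric

variable {K : Type*} [NontriviallyNormedField K] [IsUltrametricDist K]

/-- A representative of norm at most one of an element of the residue field. -/
noncomputable def rep (v : kK K) : K := Classical.choose (red_surj v)

theorem norm_rep_le (v : kK K) : ‖rep v‖ ≤ 1 := (Classical.choose_spec (red_surj v)).1

theorem red_rep (v : kK K) : red (rep v) = v := (Classical.choose_spec (red_surj v)).2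

/-- The open ball in the direction `v` of the closed ball `closedBall a ‖c‖`. -/
noncomputable def dirB (a c : K) (v : kK K) : Set K := ball (a + c * rep v) ‖c‖

/-- The coordinate of a point. -/
noncomputable def dirOf (a c z : K) : kK K := red ((z - a) / c)

theorem norm_div_le_one_iff {a c z : K} (hc : c ≠ 0) :
    ‖(z - a) / c‖ ≤ 1 ↔ z ∈ closedBall a ‖c‖ := by
  have hc' : 0 < ‖c‖ := norm_pos_iff.mpr hc
  rw [norm_div, div_le_one hc', mem_closedBall, dist_eq_norm]

theorem mem_dirB_iff {a c : K} (hc : c ≠ 0) {v : kK K} {z : K} :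
    z ∈ dirB a c v ↔ z ∈ closedBall a ‖c‖ ∧ dirOf a c z = v := by
  have hc' : 0 < ‖c‖ := norm_pos_iff.mpr hc
  have key : z ∈ dirB a c v ↔ ‖(z - a) / c - rep v‖ < 1 := by
    have e : (z - a) / c - rep v = (z - (a + c * rep v)) / c := by
      field_simp
      ring
    rw [e, norm_div, div_lt_one hc', dirB, mem_ball, dist_eq_norm]
  rw [key, ← norm_div_le_one_iff hc]
  constructor
  · intro h
    have h1 : ‖(z - a) / c‖ ≤ 1 := by
      have h2 : (z - a) / c = ((z - a) / c - rep v) + rep v := by ring
      rw [h2]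
      exact le_trans (IsUltrametricDist.norm_add_le_max _ _) (max_le h.le (norm_rep_le v))
    refine ⟨h1, ?_⟩
    rw [dirOf, ← red_rep v]
    exact (red_eq_iff h1 (norm_rep_le v)).mpr h
  · rintro ⟨h1, h2⟩
    rw [dirOf, ← red_rep v] at h2
    exact (red_eq_iff h1 (norm_rep_le v)).mp h2

theorem dirB_subset {a c : K} (hc : c ≠ 0) (v : kK K) : dirB a c v ⊆ closedBall a ‖c‖ :=
  fun _ hz => ((mem_dirB_iff hc).mp hz).1

/-- Every point of the closed ball lies in exactly one direction. -/
theorem cnt_closedBall_eq_sum {a c : K} (hc : c ≠ 0) (F : Multiset K) (V : Finset (kK K))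
    (hV : ∀ z ∈ F, z ∈ closedBall a ‖c‖ → dirOf a c z ∈ V) :
    cnt F (closedBall a ‖c‖) = ∑ v ∈ V, cnt F (dirB a c v) := by
  classical
  induction F using Multiset.induction with
  | empty => simp [cnt]
  | cons z F ih =>
    have ih' := ih (fun w hw => hV w (Multiset.mem_cons_of_mem hw))
    have e : ∀ S : Set K, cnt (z ::ₘ F) S = cnt F S + if z ∈ S then 1 else 0 := by
      intro S
      simp only [cnt]
      rw [Multiset.countP_cons]
    simp only [e]
    rw [ih', Finset.sum_add_distrib]
    congr 1
    by_cases hz : z ∈ closedBall a ‖c‖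
    · rw [if_pos hz]
      have h1 := hV z (Multiset.mem_cons_self z F) hz
      rw [Finset.sum_eq_single (dirOf a c z)]
      · rw [if_pos ((mem_dirB_iff hc).mpr ⟨hz, rfl⟩)]
      · intro v _ hv
        rw [if_neg]
        intro h
        exact hv ((mem_dirB_iff hc).mp h).2.symm
      · intro h
        exact absurd h1 h
    · rw [if_neg hz, Finset.sum_eq_zero]
      intro v _
      rw [if_neg]
      intro h
      exact hz (dirB_subset hc v h)

theorem ball_eq_dirB {a c z : K} (hc : c ≠ 0) (hz : z ∈ closedBall a ‖c‖) :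
    ball z ‖c‖ = dirB a c (dirOf a c z) := by
  have h : z ∈ dirB a c (dirOf a c z) := (mem_dirB_iff hc).mpr ⟨hz, rfl⟩
  rw [dirB] at h ⊢
  exact (IsUltrametricDist.ball_eq_of_mem h).symm

end PoolBerk
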