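import Pool.Agent.H.MP_db48a2_an.Bg.Main
import Pool.Agent.H.MP_db48a2_an.Bk.ValB
import Pool.Agent.H.MP_db48a2_an.Bk.ValD

/-!
# From points of the Berkovich line to systems of closed balls
-/

namespace PoolBerk

open Polynomial Metric Finset

open scoped NNReal

variable {K : Type*} [NontriviallyNormedField K] [IsUltrametricDist K]

/-- The action of the rational map on points (`f ↦ v (σ f)`). -/
noncomputable def push (σ : RatFunc K →ₐ[K] RatFunc K) (v : Valuation (RatFunc K) ℝ≥0) :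
    Valuation (RatFunc K) ℝ≥0 :=
  v.comap (σ : RatFunc K →+* RatFunc K)

variable {σ : RatFunc K →ₐ[K] RatFunc K}

omit [IsUltrametricDist K] in
theorem push_apply (v : Valuation (RatFunc K) ℝ≥0) (f : RatFunc K) : push σ v f = v (σ f) := rfl

omit [IsUltrametricDist K] in
theorem push_iter_apply (j : ℕ) (v : Valuation (RatFunc K) ℝ≥0) (f : RatFunc K) :
    (push σ)^[j] v f = v ((σ ^ j) f) := by
  induction j generalizing v with
  | zero => rfl
  | succ j ih =>
    rw [Function.iterate_succ_apply, ih, push_apply, pow_succ']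
    rfl

omit [IsUltrametricDist K] in
theorem HPt.push_iter {v : Valuation (RatFunc K) ℝ≥0} (hv : HPt v) (j : ℕ) :
    HPt ((push σ)^[j] v) := by
  intro a
  rw [push_iter_apply, AlgHom.commutes]
  exact hv a

/-- `v` is a Gauss valuation. -/
def GP (v : Valuation (RatFunc K) ℝ≥0) : Prop := ∃ a c : K, c ≠ 0 ∧ IsG v a ‖c‖

/-- A frame of a point. -/
theorem exists_frame (v : Valuation (RatFunc K) ℝ≥0) :
    ∃ x : K × K, GP v → x.2 ≠ 0 ∧ IsG v x.1 ‖x.2‖ := by
  by_cases h : GP v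
  · obtain ⟨a, c, hc, hG⟩ := h
    exact ⟨(a, c), fun _ => ⟨hc, hG⟩⟩
  · exact ⟨(0, 1), fun h' => absurd h' h⟩

/-- A chosen frame of a point. -/
noncomputable def frame (v : Valuation (RatFunc K) ℝ≥0) : K × K := Classical.choose (exists_frame v)

theorem frame_spec {v : Valuation (RatFunc K) ℝ≥0} (h : GP v) :
    (frame v).2 ≠ 0 ∧ IsG v (frame v).1 ‖(frame v).2‖ := Classical.choose_spec (exists_frame v) h

/-- Reduction data between a point and its image. -/
theorem exists_red [IsAlgClosed K] (σ : RatFunc K →ₐ[K] RatFunc K)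
    (v : Valuation (RatFunc K) ℝ≥0) :
    ∃ x : K × (kK K)[X] × (kK K)[X], HPt v → GP v → GP (push σ v) →
      IsRed (σ RatFunc.X).num (σ RatFunc.X).denom (frame v).1 (frame v).2
        (frame (push σ v)).1 (frame (push σ v)).2 x.2.1 x.2.2 x.1 ∧ NonC x.2.1 x.2.2 := by
  by_cases h : HPt v ∧ GP v ∧ GP (push σ v)
  · obtain ⟨hv, h1, h2⟩ := h
    obtain ⟨hc, hG⟩ := frame_spec h1
    obtain ⟨hc', hG'⟩ := frame_spec h2
    have hden : C (frame (push σ v)).2 * aff (frame v).1 (frame v).2 (σ RatFunc.X).denom ≠ 0 := by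
      refine mul_ne_zero (C_ne_zero.mpr hc') ?_
      rw [Ne, aff_eq_zero_iff hc]
      exact (σ RatFunc.X).denom_ne_zero
    obtain ⟨e, he, hP, hQ, hne⟩ := exists_normalize
      (F := aff (frame v).1 (frame v).2
        ((σ RatFunc.X).num - C (frame (push σ v)).1 * (σ RatFunc.X).denom))
      (G := C (frame (push σ v)).2 * aff (frame v).1 (frame v).2 (σ RatFunc.X).denom) (Or.inr hden)
    have hee : C e * (C (frame (push σ v)).2 * aff (frame v).1 (frame v).2 (σ RatFunc.X).denom) =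
        C (e * (frame (push σ v)).2) * aff (frame v).1 (frame v).2 (σ RatFunc.X).denom := by
      rw [C_mul]; ring
    rw [hee] at hQ hne
    obtain ⟨g1, -, g3⟩ := lin_indep_gen hv hc hc' hG hG' (fun f => rfl) hP hQ hne
    exact ⟨(e, _, _), fun _ _ _ => ⟨⟨he, hP, hQ, rfl, rfl⟩, g1, g3⟩⟩
  · exact ⟨(1, 0, 0), fun h1 h2 h3 => absurd ⟨h1, h2, h3⟩ h⟩

/-- Chosen reduction data. -/
noncomputable def redData [IsAlgClosed K] (σ : RatFunc K →ₐ[K] RatFunc K)
    (v : Valuation (RatFunc K) ℝ≥0) : K × (kK K)[X] × (kK K)[X] :=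
  Classical.choose (exists_red σ v)

theorem redData_spec [IsAlgClosed K] (σ : RatFunc K →ₐ[K] RatFunc K)
    {v : Valuation (RatFunc K) ℝ≥0} (hv : HPt v) (h1 : GP v) (h2 : GP (push σ v)) :
    IsRed (σ RatFunc.X).num (σ RatFunc.X).denom (frame v).1 (frame v).2
        (frame (push σ v)).1 (frame (push σ v)).2 (redData σ v).2.1 (redData σ v).2.2
        (redData σ v).1 ∧ NonC (redData σ v).2.1 (redData σ v).2.2 :=
  Classical.choose_spec (exists_red σ v) hv h1 h2

/-- The orbit of a repelling fixed point consists of Gauss valuations. -/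
theorem GP.orbit [IsAlgClosed K] {n : ℕ} {v : Valuation (RatFunc K) ℝ≥0}
    (h : v ∈ RFixH (σ ^ n)) {j : ℕ} (hj : j ≤ n) : GP ((push σ)^[j] v) := by
  obtain ⟨hv, hfix, h2⟩ := h
  obtain ⟨f, hf1, hfe⟩ := exists_transc hv h2
  have key : ∀ g : RatFunc K, (push σ)^[j] v ((σ ^ (n - j)) g) = v g := by
    intro g
    rw [push_iter_apply, ← hfix g]
    congr 1
    change (σ ^ j * σ ^ (n - j)) g = _
    rw [← pow_add, Nat.add_sub_cancel' hj]
  obtain ⟨a, r, ⟨c, hc, hr⟩, hG⟩ := exists_isG (hv.push_iter (σ := σ) j)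
    ⟨(σ ^ (n - j)) f, by rw [key, hf1], fun e he => by
      have h3 : (σ ^ (n - j)) f - algebraMap K (RatFunc K) e =
          (σ ^ (n - j)) (f - algebraMap K (RatFunc K) e) := by
        rw [map_sub, AlgHom.commutes]
      rw [h3, key, hfe e he]⟩
  rw [← hr] at hG
  exact ⟨a, c, hc, hG⟩

omit [IsUltrametricDist K] in
theorem push_period {n : ℕ} {v : Valuation (RatFunc K) ℝ≥0}
    (hfix : ∀ f, v ((σ ^ n) f) = v f) : (push σ)^[n] v = v := by
  ext f
  rw [push_iter_apply, hfix]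

/-- The union of the orbits of a finite set of points. -/
noncomputable def orbs (σ : RatFunc K →ₐ[K] RatFunc K) (n : ℕ)
    (S : Finset (Valuation (RatFunc K) ℝ≥0)) : Finset (Valuation (RatFunc K) ℝ≥0) := by
  classical exact S.biUnion (fun v => (range n).image (fun j => (push σ)^[j] v))

omit [IsUltrametricDist K] in
theorem mem_orbs {n : ℕ} {S : Finset (Valuation (RatFunc K) ℝ≥0)}
    {w : Valuation (RatFunc K) ℝ≥0} :
    w ∈ orbs σ n S ↔ ∃ v ∈ S, ∃ j < n, (push σ)^[j] v = w := by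
  classical
  unfold orbs
  simp only [mem_biUnion, mem_image, mem_range]

theorem orbs_sys [IsAlgClosed K] {n : ℕ} {S : Finset (Valuation (RatFunc K) ℝ≥0)}
    (hn : 1 ≤ n) (hS : ∀ v ∈ S, v ∈ RFixH (σ ^ n)) :
    Sys (σ RatFunc.X).num (σ RatFunc.X).denom (orbs σ n S) (push σ) (fun v => (frame v).1)
      (fun v => (frame v).2) (fun v => (redData σ v).1) (fun v => (redData σ v).2.1)
      (fun v => (redData σ v).2.2) := by
  have hGP : ∀ w ∈ orbs σ n S, GP w := by
    intro w hw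
    obtain ⟨v, hv, j, hj, rfl⟩ := mem_orbs.mp hw
    exact GP.orbit (hS v hv) hj.le
  have hH : ∀ w ∈ orbs σ n S, HPt w := by
    intro w hw
    obtain ⟨v, hv, j, hj, rfl⟩ := mem_orbs.mp hw
    exact (hS v hv).1.push_iter j
  have hmaps : ∀ w ∈ orbs σ n S, push σ w ∈ orbs σ n S := by
    intro w hw
    obtain ⟨v, hv, j, hj, rfl⟩ := mem_orbs.mp hw
    rw [← Function.iterate_succ_apply' (push σ) j v]
    rcases Nat.lt_or_ge (j + 1) n with h | h
    · exact mem_orbs.mpr ⟨v, hv, j + 1, h, rfl⟩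
    · have h1 : j + 1 = n := by omega
      rw [Nat.succ_eq_add_one, h1, push_period (hS v hv).2.1]
      exact mem_orbs.mpr ⟨v, hv, 0, by omega, rfl⟩
  refine ⟨hmaps, fun w hw => (frame_spec (hGP w hw)).1, ?_, ?_, ?_⟩
  · intro v hv w hw h1 h2
    obtain ⟨hc, hG⟩ := frame_spec (hGP v hv)
    obtain ⟨hc', hG'⟩ := frame_spec (hGP w hw)
    refine IsG.unique (hH v hv) (hH w hw) ⟨_, hc, rfl⟩ ⟨_, hc', rfl⟩ hG hG' ?_
    rw [← h2]
    refine IsUltrametricDist.closedBall_eq_of_mem ?_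
    rw [mem_closedBall, dist_comm, dist_eq_norm]
    exact h1
  · intro v hv
    exact (redData_spec σ (hH v hv) (hGP v hv) (hGP _ (hmaps v hv))).1
  · intro v hv
    exact (redData_spec σ (hH v hv) (hGP v hv) (hGP _ (hmaps v hv))).2

theorem orbs_period {n : ℕ} {S : Finset (Valuation (RatFunc K) ℝ≥0)}
    (hS : ∀ v ∈ S, v ∈ RFixH (σ ^ n)) {w : Valuation (RatFunc K) ℝ≥0} (hw : w ∈ orbs σ n S) :
    (push σ)^[n] w = w := by
  obtain ⟨v, hv, j, hj, rfl⟩ := mem_orbs.mp hw
  rw [← Function.iterate_add_apply, add_comm, Function.iterate_add_apply,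
    push_period (hS v hv).2.1]

theorem subset_orbs {n : ℕ} {S : Finset (Valuation (RatFunc K) ℝ≥0)} (hn : 1 ≤ n) :
    S ⊆ orbs σ n S := fun v hv => mem_orbs.mpr ⟨v, hv, 0, by omega, rfl⟩

/-- The local degree is at most the degree of the reduced iterate. -/
theorem locDeg_le_red [IsAlgClosed K] (hd : 1 ≤ rdeg (σ RatFunc.X)) {n : ℕ}
    {S : Finset (Valuation (RatFunc K) ℝ≥0)} (hn : 1 ≤ n) (hS : ∀ v ∈ S, v ∈ RFixH (σ ^ n))
    {v : Valuation (RatFunc K) ℝ≥0} (hv : v ∈ S) :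
    locDeg (σ ^ n) v ≤ degPQ
      (rA (rdeg (σ RatFunc.X)) (push σ) (fun v => (redData σ v).2.1)
        (fun v => (redData σ v).2.2) n v)
      (rB (rdeg (σ RatFunc.X)) (push σ) (fun v => (redData σ v).2.1)
        (fun v => (redData σ v).2.2) n v) := by
  have hsys := orbs_sys hn hS
  have hvI := subset_orbs (σ := σ) (S := S) hn hv
  have hcop : IsCoprime (σ RatFunc.X).num (σ RatFunc.X).denom := RatFunc.isCoprime_num_denom _
  obtain ⟨t, ht⟩ := hsys.iter hcop rfl n hvI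
  rw [orbs_period hS hvI] at ht
  obtain ⟨l, hl, h1, h2⟩ := num_denom_iter σ hd n
  have ht' := ht.scale hl
  have hd' : max (σ RatFunc.X).num.natDegree (σ RatFunc.X).denom.natDegree =
      rdeg (σ RatFunc.X) := rfl
  rw [hd', ← h1, ← h2] at ht'
  have hr := hsys.rsys (d := rdeg (σ RatFunc.X)) (le_max_left _ _) (le_max_right _ _)
  obtain ⟨g1, g2⟩ := hr.nonC n hvI
  have hGP : GP v := GP.orbit (hS v hv) (Nat.zero_le n)
  obtain ⟨hc, hG⟩ := frame_spec hGP
  have hfix := (hS v hv).2.1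
  have h3 := locDeg_le (σ := σ ^ n) (hS v hv).1 hc hG hfix ht'.hs ht'.i1 ht'.i2
    (by rw [ht'.r2]; exact g1) (by rw [ht'.r1, ht'.r2]; exact g2)
  rw [ht'.r1, ht'.r2] at h3
  exact h3

end PoolBerk
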