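import Pool.Agent.H.MP_db48a2_an.Bg.FinA

/-!
# The inequality for repelling fixed points
-/

namespace PoolBerk

open Polynomial Metric Finset Filter Topology

open scoped NNReal

variable {K : Type*} [NontriviallyNormedField K] [IsUltrametricDist K]

omit [IsUltrametricDist K] in
theorem RepPts_scale {P Q : K[X]} {l : K} (hl : l ≠ 0) :
    RepPts (C l * P) (C l * Q) = RepPts P Q := by
  have hl' : 0 < ‖l‖ ^ 2 := by positivity
  ext y
  unfold RepPts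
  simp only [Set.mem_setOf_eq, eval_mul, eval_C, derivative_mul, derivative_C, zero_mul, zero_add]
  have h1 : (C l * derivative P * (C l * Q) - C l * P * (C l * derivative Q)).eval y =
      l ^ 2 * (derivative P * Q - P * derivative Q).eval y := by
    simp only [eval_sub, eval_mul, eval_C]; ring
  have h2 : l * P.eval y = y * (l * Q.eval y) ↔ P.eval y = y * Q.eval y := by
    constructor
    · intro h
      apply mul_left_cancel₀ hl
      rw [h]; ring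
    · intro h
      rw [h]; ring
  rw [h1, h2, norm_mul, norm_mul, norm_pow, mul_pow, mul_lt_mul_iff_right₀ hl']
  constructor
  · rintro ⟨a, b, c⟩
    exact ⟨right_ne_zero_of_mul a, b, c⟩
  · rintro ⟨a, b, c⟩
    exact ⟨mul_ne_zero hl a, b, c⟩

/-- Number of repelling fixed points in `K` of the `n`-th iterate. -/
noncomputable def repCount (σ : RatFunc K →ₐ[K] RatFunc K) (n : ℕ) : ℕ :=
  (RepPts ((σ ^ n) RatFunc.X).num ((σ ^ n) RatFunc.X).denom).ncard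

variable {σ : RatFunc K →ₐ[K] RatFunc K}

theorem main_finset [IsAlgClosed K] (hd : 2 ≤ rdeg (σ RatFunc.X)) {n k : ℕ} (hn : 1 ≤ n)
    (hk : 3 * k ≤ n) (S : Finset (Valuation (RatFunc K) ℝ≥0))
    (hS : ∀ v ∈ S, v ∈ RFixH (σ ^ n)) :
    n * (∑ v ∈ S, (locDeg (σ ^ n) v - 1) + repCount σ n) ≤
      n * (rdeg (σ RatFunc.X) ^ n + 1 + ∑ j ∈ Icc 1 (n - k), rdeg (σ RatFunc.X) ^ j) +
        3 * k * ∑ v ∈ S, (locDeg (σ ^ n) v - 1) := by
  have hsys := orbs_sys hn hS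
  have hcop : IsCoprime (σ RatFunc.X).num (σ RatFunc.X).denom := RatFunc.isCoprime_num_denom _
  have hr := hsys.rsys (d := rdeg (σ RatFunc.X)) (le_max_left _ _) (le_max_right _ _)
  set D : Valuation (RatFunc K) ℝ≥0 → ℕ := fun v => degPQ
      (rA (rdeg (σ RatFunc.X)) (push σ) (fun v => (redData σ v).2.1)
        (fun v => (redData σ v).2.2) n v)
      (rB (rdeg (σ RatFunc.X)) (push σ) (fun v => (redData σ v).2.1)
        (fun v => (redData σ v).2.2) n v) with hDdef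
  have hper : ∀ w ∈ orbs σ n S, (push σ)^[n] w = w := fun w hw => orbs_period hS hw
  have hiter : ∀ v ∈ S, ∀ j, (push σ)^[j] v ∈ orbs σ n S := fun v hv j =>
    hsys.iter_mem j (subset_orbs hn hv)
  have hDj : ∀ v ∈ S, ∀ j, D ((push σ)^[j] v) = D v := by
    intro v hv j
    induction j with
    | zero => rfl
    | succ j ih =>
      rw [Function.iterate_succ_apply' (push σ) j v, ← ih]
      exact hr.degPQ_cyc (hiter v hv j) (hper _ (hiter v hv j))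
  have hloc : ∀ v ∈ S, locDeg (σ ^ n) v ≤ D v := fun v hv =>
    locDeg_le_red (by omega) hn hS hv
  have hD2 : ∀ w ∈ orbs σ n S, 2 ≤ D w := by
    intro w hw
    obtain ⟨v, hv, j, hj, rfl⟩ := mem_orbs.mp hw
    rw [hDj v hv j]
    exact (hS v hv).2.2.trans (hloc v hv)
  have hmain := hsys.main hcop (d := rdeg (σ RatFunc.X)) rfl hd hn (k := k) (by omega) hper hD2
  obtain ⟨l, hl, h1, h2⟩ := num_denom_iter σ (by omega : 1 ≤ rdeg (σ RatFunc.X)) n
  have hrep : (RepPts (itP (rdeg (σ RatFunc.X)) (σ RatFunc.X).num (σ RatFunc.X).denom n)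
      (itQ (rdeg (σ RatFunc.X)) (σ RatFunc.X).num (σ RatFunc.X).denom n)).ncard =
      repCount σ n := by
    unfold repCount
    rw [h1, h2, RepPts_scale hl]
  rw [hrep] at hmain
  have hsum : ∑ v ∈ S, (locDeg (σ ^ n) v - 1) ≤ ∑ v ∈ orbs σ n S, (D v - 1) := by
    calc ∑ v ∈ S, (locDeg (σ ^ n) v - 1) ≤ ∑ v ∈ S, (D v - 1) :=
          Finset.sum_le_sum fun v hv => Nat.sub_le_sub_right (hloc v hv) 1
      _ ≤ ∑ v ∈ orbs σ n S, (D v - 1) :=
          Finset.sum_le_sum_of_subset (subset_orbs hn)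
  change n * (∑ v ∈ orbs σ n S, (D v - 1) + repCount σ n) ≤
      n * (rdeg (σ RatFunc.X) ^ n + 1 + ∑ j ∈ Icc 1 (n - k), rdeg (σ RatFunc.X) ^ j) +
        3 * k * ∑ v ∈ orbs σ n S, (D v - 1) at hmain
  obtain ⟨m, rfl⟩ : ∃ m, n = 3 * k + m := ⟨n - 3 * k, by omega⟩
  generalize ∑ v ∈ orbs σ (3 * k + m) S, (D v - 1) = X1 at *
  generalize ∑ v ∈ S, (locDeg (σ ^ (3 * k + m)) v - 1) = X2 at *
  generalize (rdeg (σ RatFunc.X) ^ (3 * k + m) + 1 +
    ∑ j ∈ Icc 1 (3 * k + m - k), rdeg (σ RatFunc.X) ^ j) = X3 at *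
  nlinarith [Nat.mul_le_mul_left m hsum]

theorem finite_RFixH [IsAlgClosed K] (hd : 2 ≤ rdeg (σ RatFunc.X)) {n : ℕ} (hn : 1 ≤ n) :
    (RFixH (σ ^ n)).Finite := by
  by_contra hinf
  obtain ⟨S, hS, hcard⟩ := Set.Infinite.exists_subset_card_eq hinf
    (rdeg (σ RatFunc.X) ^ n + 1 + ∑ j ∈ Icc 1 n, rdeg (σ RatFunc.X) ^ j + 1)
  have h1 := main_finset hd hn (k := 0) (by omega) S (fun v hv => hS hv)
  simp only [mul_zero, zero_mul, add_zero, Nat.sub_zero] at h1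
  have h2 : ∑ v ∈ S, (locDeg (σ ^ n) v - 1) + repCount σ n ≤
      rdeg (σ RatFunc.X) ^ n + 1 + ∑ j ∈ Icc 1 n, rdeg (σ RatFunc.X) ^ j :=
    Nat.le_of_mul_le_mul_left h1 hn
  have h3 : S.card ≤ ∑ v ∈ S, (locDeg (σ ^ n) v - 1) := by
    rw [Finset.card_eq_sum_ones]
    refine Finset.sum_le_sum fun v hv => ?_
    have := (hS hv).2.2
    omega
  omega

/-- Sum of the local degrees minus one. -/
noncomputable def excess (σ : RatFunc K →ₐ[K] RatFunc K) (n : ℕ) : ℝ :=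
  ∑ᶠ v ∈ RFixH (σ ^ n), ((locDeg (σ ^ n) v : ℝ) - 1)

/-- Sum of the local degrees. -/
noncomputable def total (σ : RatFunc K →ₐ[K] RatFunc K) (n : ℕ) : ℝ :=
  ∑ᶠ v ∈ RFixH (σ ^ n), (locDeg (σ ^ n) v : ℝ)

theorem excess_eq [IsAlgClosed K] (hd : 2 ≤ rdeg (σ RatFunc.X)) {n : ℕ} (hn : 1 ≤ n) :
    excess σ n =
      ((∑ v ∈ (finite_RFixH (σ := σ) hd hn).toFinset, (locDeg (σ ^ n) v - 1) : ℕ) : ℝ) := by
  unfold excess
  rw [finsum_mem_eq_finite_toFinset_sum _ (finite_RFixH (σ := σ) hd hn), Nat.cast_sum]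
  refine Finset.sum_congr rfl fun v hv => ?_
  have h2 : 2 ≤ locDeg (σ ^ n) v := ((Set.Finite.mem_toFinset _).mp hv).2.2
  rw [Nat.cast_sub (by omega), Nat.cast_one]

theorem excess_nonneg [IsAlgClosed K] (hd : 2 ≤ rdeg (σ RatFunc.X)) {n : ℕ} (hn : 1 ≤ n) :
    0 ≤ excess σ n := by
  rw [excess_eq hd hn]
  exact Nat.cast_nonneg _

theorem total_nonneg [IsAlgClosed K] (hd : 2 ≤ rdeg (σ RatFunc.X)) {n : ℕ} (hn : 1 ≤ n) :
    0 ≤ total σ n := by
  unfold total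
  rw [finsum_mem_eq_finite_toFinset_sum _ (finite_RFixH (σ := σ) hd hn)]
  exact Finset.sum_nonneg fun v _ => Nat.cast_nonneg _

theorem total_le [IsAlgClosed K] (hd : 2 ≤ rdeg (σ RatFunc.X)) {n : ℕ} (hn : 1 ≤ n) :
    total σ n ≤ 2 * excess σ n := by
  unfold total excess
  rw [finsum_mem_eq_finite_toFinset_sum _ (finite_RFixH (σ := σ) hd hn),
    finsum_mem_eq_finite_toFinset_sum _ (finite_RFixH (σ := σ) hd hn), Finset.mul_sum]
  refine Finset.sum_le_sum fun v hv => ?_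
  have h2 : 2 ≤ locDeg (σ ^ n) v := ((Set.Finite.mem_toFinset _).mp hv).2.2
  have h3 : (2 : ℝ) ≤ (locDeg (σ ^ n) v : ℝ) := by exact_mod_cast h2
  linarith

/-- **The inequality.** -/
theorem ineq_real [IsAlgClosed K] (hd : 2 ≤ rdeg (σ RatFunc.X)) {n k : ℕ} (hn : 1 ≤ n)
    (hk : 3 * k ≤ n) :
    (1 - 3 * (k : ℝ) / n) * excess σ n + repCount σ n ≤
      (rdeg (σ RatFunc.X) : ℝ) ^ n + 1 +
        ∑ j ∈ Icc 1 (n - k), (rdeg (σ RatFunc.X) : ℝ) ^ j := by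
  have h1 := main_finset hd hn hk (finite_RFixH (σ := σ) hd hn).toFinset
    (fun v hv => (Set.Finite.mem_toFinset _).mp hv)
  have h2 : (n : ℝ) * (excess σ n + repCount σ n) ≤
      n * ((rdeg (σ RatFunc.X) : ℝ) ^ n + 1 +
        ∑ j ∈ Icc 1 (n - k), (rdeg (σ RatFunc.X) : ℝ) ^ j) + 3 * k * excess σ n := by
    rw [excess_eq hd hn]
    exact_mod_cast h1
  have hn0 : (0 : ℝ) < n := by exact_mod_cast hn
  have h3 : (n : ℝ) * ((1 - 3 * (k : ℝ) / n) * excess σ n + repCount σ n) ≤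
      n * ((rdeg (σ RatFunc.X) : ℝ) ^ n + 1 +
        ∑ j ∈ Icc 1 (n - k), (rdeg (σ RatFunc.X) : ℝ) ^ j) := by
    have h4 : (n : ℝ) * ((1 - 3 * (k : ℝ) / n) * excess σ n + repCount σ n) =
        n * (excess σ n + repCount σ n) - 3 * k * excess σ n := by
      field_simp
      ring
    rw [h4]
    linarith
  exact le_of_mul_le_mul_left h3 hn0

theorem sum_pow_le {d : ℝ} (hd : 2 ≤ d) (m : ℕ) : ∑ j ∈ Icc 1 m, d ^ j ≤ 2 * d ^ m := by
  induction m with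
  | zero => simp
  | succ m ih =>
    rw [Finset.sum_Icc_succ_top (by omega), pow_succ]
    have h1 : 0 < d ^ m := by positivity
    nlinarith

theorem excess_le [IsAlgClosed K] (hd : 2 ≤ rdeg (σ RatFunc.X)) {n : ℕ} (hn : 1 ≤ n) :
    excess σ n ≤ 4 * (rdeg (σ RatFunc.X) : ℝ) ^ n := by
  have h1 := ineq_real hd hn (k := 0) (by omega)
  have hd' : (2 : ℝ) ≤ (rdeg (σ RatFunc.X) : ℝ) := by exact_mod_cast hd
  have h2 := sum_pow_le hd' n
  have h3 : (0 : ℝ) ≤ repCount σ n := Nat.cast_nonneg _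
  have h4 : (1 : ℝ) ≤ (rdeg (σ RatFunc.X) : ℝ) ^ n := one_le_pow₀ (by linarith)
  simp only [Nat.cast_zero, mul_zero, zero_div, sub_zero, one_mul, Nat.sub_zero] at h1
  linarith

/-- **Asymptotic form.** -/
theorem asymp [IsAlgClosed K] (hd : 2 ≤ rdeg (σ RatFunc.X)) {ε : ℝ} (hε : 0 < ε) :
    ∀ᶠ n : ℕ in atTop, repCount σ n + excess σ n ≤
      (1 + ε) * (rdeg (σ RatFunc.X) : ℝ) ^ n := by
  set d : ℝ := (rdeg (σ RatFunc.X) : ℝ) with hddef
  have hd' : (2 : ℝ) ≤ d := by rw [hddef]; exact_mod_cast hd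
  have hd0 : 0 < d := by linarith
  have hinv : d⁻¹ < 1 := inv_lt_one_of_one_lt₀ (by linarith)
  have ht : Tendsto (fun k : ℕ => 2 * d⁻¹ ^ k) atTop (𝓝 (2 * 0)) :=
    (tendsto_pow_atTop_nhds_zero_of_lt_one (by positivity) hinv).const_mul 2
  rw [mul_zero] at ht
  obtain ⟨k, hk⟩ := (ht.eventually (gt_mem_nhds (half_pos hε))).exists
  have ht2 : Tendsto (fun n : ℕ => d⁻¹ ^ n + 12 * (k : ℝ) / n) atTop (𝓝 (0 + 0)) :=
    (tendsto_pow_atTop_nhds_zero_of_lt_one (by positivity) hinv).add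
      (tendsto_const_div_atTop_nhds_zero_nat _)
  rw [add_zero] at ht2
  filter_upwards [ht2.eventually (gt_mem_nhds (half_pos hε)), eventually_ge_atTop (3 * k + 1)]
    with n hn1 hn2
  have hn : 1 ≤ n := by omega
  have hn0 : (0 : ℝ) < n := by exact_mod_cast hn
  have h1 := ineq_real hd hn (k := k) (by omega)
  rw [← hddef] at h1
  have h2 := sum_pow_le hd' (n - k)
  have h3 := excess_le (σ := σ) hd hn
  rw [← hddef] at h3
  have hdn : 0 < d ^ n := by positivity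
  have h4 : d ^ (n - k) = d⁻¹ ^ k * d ^ n := by
    rw [inv_pow, ← div_eq_inv_mul, eq_div_iff (by positivity), ← pow_add]
    congr 1
    omega
  have h5 : (1 : ℝ) = d⁻¹ ^ n * d ^ n := by
    rw [← mul_pow, inv_mul_cancel₀ hd0.ne', one_pow]
  have h6 : 3 * (k : ℝ) / n * excess σ n ≤ 12 * (k : ℝ) / n * d ^ n := by
    have h7 : 0 ≤ 3 * (k : ℝ) / n := by positivity
    calc 3 * (k : ℝ) / n * excess σ n ≤ 3 * (k : ℝ) / n * (4 * d ^ n) :=
          mul_le_mul_of_nonneg_left h3 h7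
      _ = 12 * (k : ℝ) / n * d ^ n := by ring
  have h8 : repCount σ n + excess σ n ≤ d ^ n + d⁻¹ ^ n * d ^ n + 2 * (d⁻¹ ^ k * d ^ n) +
      12 * (k : ℝ) / n * d ^ n := by
    rw [← h5, ← h4]
    linarith
  have h9 : d ^ n + d⁻¹ ^ n * d ^ n + 2 * (d⁻¹ ^ k * d ^ n) + 12 * (k : ℝ) / n * d ^ n =
      (1 + (d⁻¹ ^ n + 12 * (k : ℝ) / n) + 2 * d⁻¹ ^ k) * d ^ n := by ring
  rw [h9] at h8
  refine h8.trans (mul_le_mul_of_nonneg_right ?_ hdn.le)
  linarith

/-- **Vanishing.** -/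
theorem vanishing [IsAlgClosed K] (hd : 2 ≤ rdeg (σ RatFunc.X))
    (hrep : Tendsto (fun n : ℕ => (repCount σ n : ℝ) / (rdeg (σ RatFunc.X) : ℝ) ^ n) atTop (𝓝 1)) :
    Tendsto (fun n : ℕ => total σ n / (rdeg (σ RatFunc.X) : ℝ) ^ n) atTop (𝓝 0) := by
  set d : ℝ := (rdeg (σ RatFunc.X) : ℝ) with hddef
  have hd' : (2 : ℝ) ≤ d := by rw [hddef]; exact_mod_cast hd
  rw [Metric.tendsto_nhds]
  intro ε hε
  have hε4 : 0 < ε / 8 := by positivity
  filter_upwards [asymp (σ := σ) hd hε4, hrep.eventually (lt_mem_nhds (by linarith : 1 - ε / 8 < 1)),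
    eventually_ge_atTop 1] with n h1 h2 hn
  rw [← hddef] at h1
  have hdn : 0 < d ^ n := by positivity
  rw [lt_div_iff₀ hdn] at h2
  have h3 := total_le (σ := σ) hd hn
  have h4 := total_nonneg (σ := σ) hd hn
  rw [Real.dist_eq, sub_zero, abs_of_nonneg (div_nonneg h4 hdn.le), div_lt_iff₀ hdn]
  have h5 : excess σ n ≤ (ε / 4) * d ^ n := by nlinarith
  have h6 : 0 < ε * d ^ n := by positivity
  nlinarith

end PoolBerk
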