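import Pool.Agent.H.MP_db48a2_an.Bg.Hev
import Pool.Agent.H.MP_db48a2_an.Bk.Alg

/-!
# The local inequality (polynomials over an algebraically closed field)
-/

namespace PoolBerk

open Polynomial Finset

variable {k : Type*} [Field k]

/-- `A ≠ X * B` if the degree of `A / B` is at least two. -/
theorem ne_X_mul_of_two_le {A B : k[X]} (hB : B ≠ 0) (hD : 2 ≤ degPQ A B) : A - X * B ≠ 0 := by
  obtain ⟨H, p1, q1, hH, hA, hB', cop, hq1, hdeg⟩ := exists_coprime_parts (p := A) hB
  intro h0
  have h1 : H * (p1 - X * q1) = 0 := by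
    rw [hA, hB'] at h0
    rw [← h0]
    ring
  have h2 : p1 = X * q1 := by
    rcases mul_eq_zero.1 h1 with h | h
    · exact absurd h hH
    · exact sub_eq_zero.1 h
  have hu : IsUnit q1 := cop.isUnit_of_dvd' (by rw [h2]; exact dvd_mul_left _ _) dvd_rfl
  have h3 : q1.natDegree = 0 := natDegree_eq_zero_of_isUnit hu
  have h4 : p1.natDegree ≤ 1 := by
    rw [h2]
    refine natDegree_mul_le.trans ?_
    rw [h3]
    exact (add_zero _).le.trans natDegree_X_le
  rw [hdeg, h3] at hD
  omega

theorem LocPoly_roots [IsAlgClosed k] {F : k[X]} (V : Finset k)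
    (hV : ∀ v, F.rootMultiplicity v ≠ 0 → v ∈ V) :
    (F.natDegree : ℤ) ≤ ∑ v ∈ V, (F.rootMultiplicity v : ℤ) := by
  classical
  have h1 : F.roots.card = F.natDegree := by
    have := IsAlgClosed.splits F
    exact (splits_iff_card_roots.1 this)
  rw [← h1, ← Multiset.toFinset_sum_count_eq]
  push_cast
  simp only [count_roots]
  apply Finset.sum_le_sum_of_subset_of_nonneg
  · intro v hv
    apply hV
    rw [Multiset.mem_toFinset] at hv
    rw [← count_roots]
    exact Multiset.count_ne_zero.2 hv
  · intro v _ _
    exact Int.natCast_nonneg _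

theorem LocPoly_cop {p1 q1 : k[X]} (cop : IsCoprime p1 q1) {v : k} (hq : q1.eval v = 0)
    (hp : p1.eval v = 0) : False := by
  obtain ⟨a, b, hab⟩ := cop
  have := congrArg (Polynomial.eval v) hab
  rw [eval_add, eval_mul, eval_mul, hq, hp, mul_zero, mul_zero, add_zero, eval_one] at this
  exact zero_ne_one this

/-- **Local inequality.** -/
theorem loc_poly [IsAlgClosed k] {A B : k[X]} (h : NonC A B) (hne : A - X * B ≠ 0)
    (V : Finset k) (hV : ∀ v, (A - X * B).rootMultiplicity v ≠ 0 → v ∈ V) :
    (degPQ A B : ℤ) + 1 ≤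
      ∑ v ∈ V, max (((A - X * B).rootMultiplicity v : ℤ) - B.rootMultiplicity v) 0 +
        max 1 (2 - (((A - X * B).natDegree : ℤ) - B.natDegree)) := by
  obtain ⟨H, p1, q1, hH, hA, hB', cop, hq1, hdeg⟩ := exists_coprime_parts (p := A) h.1
  have hfac : A - X * B = H * (p1 - X * q1) := by
    rw [hA, hB']
    ring
  have hF : p1 - X * q1 ≠ 0 := by
    intro h0
    apply hne
    rw [hfac, h0, mul_zero]
  rw [hfac] at hne hV ⊢
  have hm : ∀ v, (H * (p1 - X * q1)).rootMultiplicity v =
      H.rootMultiplicity v + (p1 - X * q1).rootMultiplicity v := fun v =>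
    rootMultiplicity_mul hne
  have hmB : ∀ v, B.rootMultiplicity v = H.rootMultiplicity v + q1.rootMultiplicity v := by
    intro v
    rw [hB']
    exact rootMultiplicity_mul (mul_ne_zero hH hq1)
  have hd : (H * (p1 - X * q1)).natDegree = H.natDegree + (p1 - X * q1).natDegree :=
    natDegree_mul hH hF
  have hdB : B.natDegree = H.natDegree + q1.natDegree := by
    rw [hB']
    exact natDegree_mul hH hq1
  have hsum : ((p1 - X * q1).natDegree : ℤ) ≤
      ∑ v ∈ V, max (((H * (p1 - X * q1)).rootMultiplicity v : ℤ) - B.rootMultiplicity v) 0 := by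
    refine (LocPoly_roots (F := p1 - X * q1) V ?_).trans ?_
    · intro v hv
      apply hV
      rw [hm]
      omega
    · apply Finset.sum_le_sum
      intro v _
      rw [hm, hmB]
      by_cases h0 : (p1 - X * q1).rootMultiplicity v = 0
      · rw [h0]
        simp
      · have hroot : (p1 - X * q1).eval v = 0 := by
          have := (rootMultiplicity_pos hF).1 (Nat.pos_of_ne_zero h0)
          exact this
        have hq : q1.rootMultiplicity v = 0 := by
          apply rootMultiplicity_eq_zero
          intro hqv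
          have hqv' : q1.eval v = 0 := hqv
          rw [eval_sub, eval_mul, eval_X, hqv', mul_zero, sub_zero] at hroot
          exact LocPoly_cop cop hqv' hroot
        rw [hq]
        push_cast
        exact le_max_of_le_left (by linarith)
  rw [hd, hdB, hdeg]
  push_cast
  by_cases hlt : (p1 - X * q1).natDegree < max p1.natDegree q1.natDegree
  · have h1 := up_alg hq1 (Or.inr hlt)
    have h2 : (q1.natDegree : ℤ) + 1 = max (p1.natDegree : ℤ) q1.natDegree := by
      exact_mod_cast h1
    have h3 := le_max_right (1 : ℤ)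
      (2 - ((H.natDegree : ℤ) + (p1 - X * q1).natDegree - (H.natDegree + q1.natDegree)))
    linarith
  · have h1 : max (p1.natDegree : ℤ) q1.natDegree ≤ (p1 - X * q1).natDegree := by
      exact_mod_cast not_lt.1 hlt
    have h3 := le_max_left (1 : ℤ)
      (2 - ((H.natDegree : ℤ) + (p1 - X * q1).natDegree - (H.natDegree + q1.natDegree)))
    linarith

/-- The value of the rational function `A / B` at `v` is `w`. -/
def Val (A B : k[X]) (v w : k) : Prop :=
  ∃ h α β : k[X], h ≠ 0 ∧ IsCoprime α β ∧ A = h * α ∧ B = h * β ∧ α.eval v = w * β.eval v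

/-- If the multiplicity of `v` as a zero of `A - X B` is larger than as a zero of `B` then `v` is a
fixed point of `A / B`. -/
theorem val_self_of_lt {A B : k[X]} (hB : B ≠ 0) (hne : A - X * B ≠ 0) {v : k}
    (h : B.rootMultiplicity v < (A - X * B).rootMultiplicity v) : Val A B v v := by
  obtain ⟨H, p1, q1, hH, hA, hB', cop, hq1, hdeg⟩ := exists_coprime_parts (p := A) hB
  have hfac : A - X * B = H * (p1 - X * q1) := by
    rw [hA, hB']
    ring
  have hF : p1 - X * q1 ≠ 0 := by
    intro h0
    apply hne
    rw [hfac, h0, mul_zero]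
  rw [hfac] at hne h
  rw [rootMultiplicity_mul hne] at h
  have hmB : B.rootMultiplicity v = H.rootMultiplicity v + q1.rootMultiplicity v := by
    rw [hB']
    exact rootMultiplicity_mul (mul_ne_zero hH hq1)
  rw [hmB] at h
  have hroot : (p1 - X * q1).eval v = 0 := (rootMultiplicity_pos hF).1 (by omega)
  refine ⟨H, p1, q1, hH, cop, hA, hB', ?_⟩
  rw [eval_sub, eval_mul, eval_X] at hroot
  exact sub_eq_zero.1 hroot

/-- The number of fixed points is at most the degree plus one. -/
theorem card_val_self_le {A B : k[X]} (hB : B ≠ 0) (hne : A - X * B ≠ 0) :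
    {v : k | Val A B v v}.Finite ∧ {v : k | Val A B v v}.ncard ≤ degPQ A B + 1 := by
  classical
  obtain ⟨H, p1, q1, hH, hA, hB', cop, hq1, hdeg⟩ := exists_coprime_parts (p := A) hB
  have hfac : A - X * B = H * (p1 - X * q1) := by
    rw [hA, hB']
    ring
  have hF : p1 - X * q1 ≠ 0 := by
    intro h0
    apply hne
    rw [hfac, h0, mul_zero]
  have hsub : {v : k | Val A B v v} ⊆ ((p1 - X * q1).roots.toFinset : Set k) := by
    rintro v ⟨h, α, β, hh, cab, hA2, hB2, hv⟩
    rw [Finset.mem_coe, Multiset.mem_toFinset, mem_roots hF]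
    have h1 : (H * h) * (p1 * β) = (H * h) * (α * q1) := by
      calc (H * h) * (p1 * β) = (H * p1) * (h * β) := by ring
        _ = (h * α) * (H * q1) := by rw [← hA, ← hB2, ← hA2, ← hB']
        _ = (H * h) * (α * q1) := by ring
    have h2 := mul_left_cancel₀ (mul_ne_zero hH hh) h1
    have h3 := congrArg (Polynomial.eval v) h2
    rw [eval_mul, eval_mul, hv] at h3
    have hβ : β.eval v ≠ 0 := by
      intro h0
      rw [h0, mul_zero] at hv
      exact LocPoly_cop cab h0 hv
    have h4 : p1.eval v = v * q1.eval v := by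
      apply mul_right_cancel₀ hβ
      rw [h3]
      ring
    change (p1 - X * q1).eval v = 0
    rw [eval_sub, eval_mul, eval_X, h4, sub_self]
  refine ⟨(Finset.finite_toSet _).subset hsub, ?_⟩
  calc {v : k | Val A B v v}.ncard ≤ ((p1 - X * q1).roots.toFinset : Set k).ncard :=
        Set.ncard_le_ncard hsub (Finset.finite_toSet _)
    _ = (p1 - X * q1).roots.toFinset.card := Set.ncard_coe_finset _
    _ ≤ (p1 - X * q1).roots.card := Multiset.toFinset_card_le _
    _ ≤ (p1 - X * q1).natDegree := card_roots' _
    _ ≤ degPQ A B + 1 := by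
      rw [hdeg]
      refine (natDegree_sub_le _ _).trans ?_
      have h5 : (X * q1).natDegree ≤ q1.natDegree + 1 := by
        refine natDegree_mul_le.trans ?_
        have := natDegree_X_le (R := k)
        omega
      have h6 := le_max_left p1.natDegree q1.natDegree
      have h7 := le_max_right p1.natDegree q1.natDegree
      exact max_le (by omega) (by omega)

end PoolBerk
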