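import Pool.Agent.H.MP_db48a2_an.Bg.Dirs

/-!
# The tree lemma: definitions
-/

namespace PoolBerk

open Polynomial Metric Finset

variable {K : Type*} [NontriviallyNormedField K] [IsUltrametricDist K]

/-- Number of zeros minus number of poles in a set. -/
noncomputable def NN (Z Pl : Multiset K) (S : Set K) : ℤ := (cnt Z S : ℤ) - cnt Pl S

/-- Zeros `Z`, poles `Pl`, marked points `Th` and the size function `u` of `g (z) - z`. -/
structure TreeHyp (Z Pl Th : Multiset K) (u : K → ℝ → ℝ) : Prop where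
  disj : ∀ z ∈ Z, z ∉ Pl
  pos : ∀ a r, 0 < r → 0 < u a r
  cong : ∀ a b r, 0 < r → ‖a - b‖ ≤ r → u a r = u b r
  edge : ∀ a r s, 0 < s → s < r → cnt Z (closedBall a s) = cnt Z (ball a r) →
    cnt Pl (closedBall a s) = cnt Pl (ball a r) →
    u a r = u a s * (r / s) ^ (NN Z Pl (ball a r) - 1)
  base : ∀ y r, 0 < r → (∀ z ∈ Z, z ∈ ball y r → z = y) → (∀ z ∈ Pl, z ∉ ball y r) →
    (u y r < 1 ∨ 2 ≤ cnt Z (ball y r)) → cnt Z (ball y r) ≤ cnt Th (ball y r)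

/-- A finite family of closed balls `closedBall (a i) ‖c i‖` with integer weights. -/
structure TreeItems (Z Pl Th : Multiset K) (u : K → ℝ → ℝ) {ι : Type*} (I : Finset ι)
    (a c : ι → K) (wt : ι → ℤ) : Prop where
  hc : ∀ i ∈ I, c i ≠ 0
  sep : ∀ i ∈ I, ∀ j ∈ I, ‖a i - a j‖ ≤ ‖c i‖ → ‖c i‖ = ‖c j‖ → i = j
  one : ∀ i ∈ I, u (a i) ‖c i‖ = 1
  loc : ∀ i ∈ I, ∀ V : Finset (kK K),
    (∀ v, cnt Z (dirB (a i) (c i) v) ≠ 0 → v ∈ V) →
    (∀ v, cnt Pl (dirB (a i) (c i) v) ≠ 0 → v ∈ V) →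
    wt i + 2 ≤ ∑ v ∈ V, (max (NN Z Pl (dirB (a i) (c i) v)) 0 -
        (if NN Z Pl (dirB (a i) (c i) v) = 1 ∧ cnt Th (dirB (a i) (c i) v) = 0 then 1 else 0)) +
      max 1 (2 - NN Z Pl (closedBall (a i) ‖c i‖))

/-- The items contained in the open ball `ball x r`. -/
noncomputable def inO {ι : Type*} (I : Finset ι) (a c : ι → K) (x : K) (r : ℝ) : Finset ι := by
  classical exact I.filter (fun i => a i ∈ ball x r ∧ ‖c i‖ < r)

/-- The items contained in the closed ball `closedBall x r`. -/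
noncomputable def inC {ι : Type*} (I : Finset ι) (a c : ι → K) (x : K) (r : ℝ) : Finset ι := by
  classical exact I.filter (fun i => a i ∈ closedBall x r ∧ ‖c i‖ ≤ r)

/-- The condition `Neg` for open balls. -/
def NegO (Z Pl : Multiset K) (u : K → ℝ → ℝ) (x : K) (r : ℝ) : Prop :=
  u x r < 1 ∨ (u x r = 1 ∧ 2 ≤ NN Z Pl (ball x r))

/-- The condition `Neg` for closed balls. -/
def NegC (Z Pl : Multiset K) (u : K → ℝ → ℝ) (x : K) (r : ℝ) : Prop :=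
  u x r < 1 ∨ (u x r = 1 ∧ NN Z Pl (closedBall x r) ≤ 0)

/-- The claim for open balls. -/
def ClaimO (Z Pl Th : Multiset K) (u : K → ℝ → ℝ) {ι : Type*} (I : Finset ι)
    (a c : ι → K) (wt : ι → ℤ) (x : K) (r : ℝ) : Prop :=
  (NegO Z Pl u x r → ∑ i ∈ inO I a c x r, wt i ≤ (cnt Th (ball x r) : ℤ) - NN Z Pl (ball x r)) ∧
  (¬ NegO Z Pl u x r → ∑ i ∈ inO I a c x r, wt i ≤ max ((cnt Th (ball x r) : ℤ) - 1) 0)

/-- The claim for closed balls. -/
def ClaimC (Z Pl Th : Multiset K) (u : K → ℝ → ℝ) {ι : Type*} (I : Finset ι)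
    (a c : ι → K) (wt : ι → ℤ) (x : K) (r : ℝ) : Prop :=
  (NegC Z Pl u x r →
    ∑ i ∈ inC I a c x r, wt i ≤ (cnt Th (closedBall x r) : ℤ) - NN Z Pl (closedBall x r)) ∧
  (¬ NegC Z Pl u x r → ∑ i ∈ inC I a c x r, wt i ≤ max ((cnt Th (closedBall x r) : ℤ) - 1) 0)

end PoolBerk
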