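import Pool.Agent.H.MP_db48a2_an.Bg.Red
import Pool.Agent.H.MP_db48a2_an.Bg.TreeDefs
import Pool.Agent.H.MP_db48a2_an.Bg.LocPoly
import Pool.Agent.H.MP_db48a2_an.Bk.GnB

/-!
# The size of `g (z) - z`
-/

namespace PoolBerk

open Polynomial Metric

variable {K : Type*} [NontriviallyNormedField K] [IsUltrametricDist K]

/-- The size of `P / Q - z` at the closed ball `closedBall a r`, divided by `r`. -/
noncomputable def uu (P Q : K[X]) (a : K) (r : ℝ) : ℝ := gn (P - X * Q) a r / (gn Q a r * r)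

omit [IsUltrametricDist K] in
theorem GnU_prod (M : Multiset K) (a : K) {r s : ℝ} (hs : 0 < s) (hsr : s < r)
    (h : ∀ α ∈ M, α ∈ ball a r → α ∈ closedBall a s) :
    (M.map (fun α => max r ‖a - α‖)).prod =
      (M.map (fun α => max s ‖a - α‖)).prod * (r / s) ^ cnt M (ball a r) := by
  classical
  induction M using Multiset.induction_on with
  | empty => simp [cnt]
  | cons α M ih =>
    have h1 := ih fun β hβ => h β (Multiset.mem_cons_of_mem hβ)
    have h2 := h α (Multiset.mem_cons_self α M)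
    have hc : cnt (α ::ₘ M) (ball a r) =
        cnt M (ball a r) + if α ∈ ball a r then 1 else 0 := by
      unfold cnt
      rw [Multiset.countP_cons]
    rw [Multiset.map_cons, Multiset.map_cons, Multiset.prod_cons, Multiset.prod_cons, h1, hc]
    by_cases hα : α ∈ ball a r
    · have h3 := h2 hα
      rw [mem_closedBall_iff_norm'] at h3
      rw [if_pos hα, pow_succ, max_eq_left (h3.trans hsr.le), max_eq_left h3]
      field_simp
    · rw [if_neg hα, add_zero]
      rw [mem_ball_iff_norm', not_lt] at hα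
      rw [max_eq_right hα, max_eq_right (hsr.le.trans hα)]
      ring

theorem gn_edge (F : K[X]) (a : K) {r s : ℝ} (hs : 0 < s) (hsr : s < r)
    (h : cnt F.roots (closedBall a s) = cnt F.roots (ball a r)) :
    gn F a r = gn F a s * (r / s) ^ cnt F.roots (ball a r) := by
  have hsub : closedBall a s ⊆ ball a r := closedBall_subset_ball hsr
  have h1 : ball a r = closedBall a s ∪ (ball a r \ closedBall a s) :=
    (Set.union_sdiff_cancel hsub).symm
  have h2 : cnt F.roots (ball a r \ closedBall a s) = 0 := by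
    have h3 := cnt_union F.roots (S := closedBall a s) (T := ball a r \ closedBall a s)
      Set.disjoint_sdiff_right
    rw [← h1] at h3
    omega
  rw [cnt_eq_zero_iff] at h2
  have h4 := GnU_prod F.roots a hs hsr fun α hα hαr => by
    by_contra hn
    exact h2 α hα ⟨hαr, hn⟩
  unfold gn
  rw [h4]
  ring

/-- The converse of `gn_red`. -/
theorem gn_of_red [IsAlgClosed K] {F : K[X]} {a c e : K} (hc : c ≠ 0)
    (hF : Intg (C e * aff a c F)) (h : redP (C e * aff a c F) ≠ 0) : ‖e‖ * gn F a ‖c‖ = 1 := by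
  have hF0 : F ≠ 0 := by
    rintro rfl
    apply h
    rw [aff, zero_comp, mul_zero, redP_zero']
  obtain ⟨d, hd, hdn⟩ := gn_isRad hF0 a (⟨c, hc, rfl⟩ : IsRad K ‖c‖)
  have hdp : 0 < ‖d‖ := norm_pos_iff.2 hd
  have h1 : ‖d⁻¹‖ * gn F a ‖c‖ = 1 := by
    rw [norm_inv, ← hdn, inv_mul_cancel₀ hdp.ne']
  obtain ⟨h2, h3⟩ := gn_red hc h1
  have h4 : C e * aff a c F = C (e * d) * (C d⁻¹ * aff a c F) := by
    rw [← mul_assoc, ← C_mul, mul_assoc, mul_inv_cancel₀ hd, mul_one]
  have h5 : ‖e * d‖ ≤ 1 := norm_le_one_of_intg_C_mul h2 h3 (by rw [← h4]; exact hF)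
  have h6 : ¬ ‖e * d‖ < 1 := by
    intro h7
    apply h
    rw [h4]
    exact (redP_C_mul_eq_zero h2 h7).2
  rw [← hdn, ← norm_mul]
  exact le_antisymm h5 (not_lt.1 h6)

theorem GnU_aff_phi (P Q : K[X]) (a c s : K) :
    C s * aff a c (P - X * Q) =
      C s * aff a c (P - C a * Q) - X * (C (s * c) * aff a c Q) := by
  rw [aff_sub, aff_mul, aff_X, aff_sub, aff_mul, aff_C, C_mul]
  ring

/-- `C s * aff a c (P - X * Q) = C s * aff a c (P - C a * Q) - X * (C (s * c) * aff a c Q)`. -/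
theorem IsRed.phi {P Q : K[X]} {a c s : K} {A B : (kK K)[X]} (h : IsRed P Q a c a c A B s) :
    Intg (C s * aff a c (P - X * Q)) ∧ redP (C s * aff a c (P - X * Q)) = A - X * B := by
  rw [GnU_aff_phi]
  refine ⟨h.i1.sub (Intg.var.mul h.i2), ?_⟩
  rw [redP_sub h.i1 (Intg.var.mul h.i2), redP_mul Intg.var h.i2, redP_X, h.r1, h.r2]

theorem uu_one [IsAlgClosed K] {P Q : K[X]} {a c s : K} {A B : (kK K)[X]} (hc : c ≠ 0)
    (h : IsRed P Q a c a c A B s) (hB : B ≠ 0) (hne : A - X * B ≠ 0) : uu P Q a ‖c‖ = 1 := by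
  have h1 := gn_of_red hc h.phi.1 (by rw [h.phi.2]; exact hne)
  have h2 := gn_of_red hc h.i2 (by rw [h.r2]; exact hB)
  have hs : 0 < ‖s‖ := norm_pos_iff.2 h.hs
  have hcp : 0 < ‖c‖ := norm_pos_iff.2 hc
  rw [norm_mul] at h2
  have h3 : gn (P - X * Q) a ‖c‖ = gn Q a ‖c‖ * ‖c‖ := by
    apply mul_left_cancel₀ hs.ne'
    rw [h1, ← h2]
    ring
  have h4 : gn Q a ‖c‖ * ‖c‖ ≠ 0 := by
    intro h5
    have : ‖s‖ * ‖c‖ * gn Q a ‖c‖ = ‖s‖ * (gn Q a ‖c‖ * ‖c‖) := by ring
    rw [this, h5, mul_zero] at h2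
    exact zero_ne_one h2
  unfold uu
  rw [h3]
  exact div_self h4

theorem uu_pos {P Q : K[X]} (hQ : Q ≠ 0) (hne : P - X * Q ≠ 0) (a : K) {r : ℝ} (hr : 0 < r) :
    0 < uu P Q a r :=
  div_pos (gn_pos hne a hr) (mul_pos (gn_pos hQ a hr) hr)

theorem uu_congr (P Q : K[X]) {a b : K} {r : ℝ} (h : ‖a - b‖ ≤ r) : uu P Q a r = uu P Q b r := by
  unfold uu
  rw [gn_congr _ h, gn_congr _ h]

theorem uu_edge {P Q : K[X]} (hQ : Q ≠ 0) (a : K) {r s : ℝ} (hs : 0 < s) (hsr : s < r)
    (hZ : cnt (P - X * Q).roots (closedBall a s) = cnt (P - X * Q).roots (ball a r))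
    (hP : cnt Q.roots (closedBall a s) = cnt Q.roots (ball a r)) :
    uu P Q a r = uu P Q a s * (r / s) ^ (NN (P - X * Q).roots Q.roots (ball a r) - 1) := by
  have hr : 0 < r := hs.trans hsr
  have hrs : 0 < r / s := div_pos hr hs
  have hq := gn_pos hQ a hs
  unfold uu NN
  rw [gn_edge _ a hs hsr hZ, gn_edge _ a hs hsr hP, zpow_sub₀ hrs.ne', zpow_sub₀ hrs.ne',
    zpow_natCast, zpow_natCast, zpow_one]
  have h1 : 0 < (r / s) ^ cnt Q.roots (ball a r) := pow_pos hrs _
  generalize (r / s) ^ cnt Q.roots (ball a r) = y at *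
  generalize (r / s) ^ cnt (P - X * Q).roots (ball a r) = x at *
  field_simp

/-- Counting zeros and poles in the directions. -/
theorem cnt_dir_red [IsAlgClosed K] {P Q : K[X]} {a c s : K} {A B : (kK K)[X]} (hc : c ≠ 0)
    (h : IsRed P Q a c a c A B s) (hB : B ≠ 0) (hne : A - X * B ≠ 0) (v : kK K) :
    cnt (P - X * Q).roots (dirB a c v) = (A - X * B).rootMultiplicity v ∧
    cnt Q.roots (dirB a c v) = B.rootMultiplicity v := by
  have hz : a + c * rep v ∈ closedBall a ‖c‖ := by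
    rw [mem_closedBall_iff_norm, add_sub_cancel_left, norm_mul]
    exact mul_le_of_le_one_right (norm_nonneg _) (norm_rep_le v)
  have hv : red ((a + c * rep v - a) / c) = v := by
    rw [add_sub_cancel_left, mul_div_cancel_left₀ _ hc, red_rep]
  have h1 := cnt_ball_red hc h.hs h.phi.1 (by rw [h.phi.2]; exact hne) hz
  have h2 := cnt_ball_red hc (mul_ne_zero h.hs hc) h.i2 (by rw [h.r2]; exact hB) hz
  rw [hv, h.phi.2] at h1
  rw [hv, h.r2] at h2
  exact ⟨h1, h2⟩

theorem cnt_closed_red [IsAlgClosed K] {P Q : K[X]} {a c s : K} {A B : (kK K)[X]} (hc : c ≠ 0)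
    (h : IsRed P Q a c a c A B s) (hB : B ≠ 0) (hne : A - X * B ≠ 0) :
    cnt (P - X * Q).roots (closedBall a ‖c‖) = (A - X * B).natDegree ∧
    cnt Q.roots (closedBall a ‖c‖) = B.natDegree := by
  have h1 := cnt_closedBall_red hc h.hs h.phi.1 (by rw [h.phi.2]; exact hne)
  have h2 := cnt_closedBall_red hc (mul_ne_zero h.hs hc) h.i2 (by rw [h.r2]; exact hB)
  rw [h.phi.2] at h1
  rw [h.r2] at h2
  exact ⟨h1, h2⟩

/-- Poles in the directions, different target. -/
theorem cnt_pole_red [IsAlgClosed K] {P Q : K[X]} {a c b e s : K} {A B : (kK K)[X]} (hc : c ≠ 0)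
    (he : e ≠ 0) (h : IsRed P Q a c b e A B s) (hB : B ≠ 0) (v : kK K) :
    cnt Q.roots (dirB a c v) = B.rootMultiplicity v := by
  have hz : a + c * rep v ∈ closedBall a ‖c‖ := by
    rw [mem_closedBall_iff_norm, add_sub_cancel_left, norm_mul]
    exact mul_le_of_le_one_right (norm_nonneg _) (norm_rep_le v)
  have hv : red ((a + c * rep v - a) / c) = v := by
    rw [add_sub_cancel_left, mul_div_cancel_left₀ _ hc, red_rep]
  have h2 := cnt_ball_red hc (mul_ne_zero h.hs he) h.i2 (by rw [h.r2]; exact hB) hz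
  rw [hv, h.r2] at h2
  exact h2

end PoolBerk
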