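import Mathlib

/-!
# Homogeneous evaluation of polynomials
-/

namespace PoolBerk

open Polynomial Finset

section Gen

variable {R A : Type*} [CommRing R] [CommRing A] [Algebra R A]

/-- Homogeneous evaluation of the degree `m` homogenization of `p` at `(x, y)`, in an algebra. -/
noncomputable def hevA (m : ℕ) (p : R[X]) (x y : A) : A :=
  ∑ i ∈ Finset.range (m + 1), algebraMap R A (p.coeff i) * x ^ i * y ^ (m - i)

theorem hevA_add (m : ℕ) (p q : R[X]) (x y : A) :
    hevA m (p + q) x y = hevA m p x y + hevA m q x y := by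
  simp only [hevA, ← Finset.sum_add_distrib, coeff_add, map_add, add_mul]

theorem hevA_zero (m : ℕ) (x y : A) : hevA m (0 : R[X]) x y = 0 := by
  simp [hevA]

theorem hevA_neg (m : ℕ) (p : R[X]) (x y : A) : hevA m (-p) x y = -hevA m p x y := by
  simp only [hevA, coeff_neg, map_neg, neg_mul, Finset.sum_neg_distrib]

theorem hevA_sub (m : ℕ) (p q : R[X]) (x y : A) :
    hevA m (p - q) x y = hevA m p x y - hevA m q x y := by
  rw [sub_eq_add_neg, hevA_add, hevA_neg, sub_eq_add_neg]

theorem hevA_C_mul (m : ℕ) (c : R) (p : R[X]) (x y : A) :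
    hevA m (C c * p) x y = algebraMap R A c * hevA m p x y := by
  simp only [hevA, Finset.mul_sum]
  refine Finset.sum_congr rfl fun i _ => ?_
  rw [coeff_C_mul, map_mul]
  ring

theorem hevA_sum {ι : Type*} (s : Finset ι) (m : ℕ) (p : ι → R[X]) (x y : A) :
    hevA m (∑ j ∈ s, p j) x y = ∑ j ∈ s, hevA m (p j) x y := by
  classical
  induction s using Finset.induction_on with
  | empty => simp [hevA_zero]
  | insert j s hj ih => rw [Finset.sum_insert hj, Finset.sum_insert hj, hevA_add, ih]

theorem hevA_X_pow (m i : ℕ) (hi : i ≤ m) (x y : A) :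
    hevA m (X ^ i : R[X]) x y = x ^ i * y ^ (m - i) := by
  classical
  rw [hevA, Finset.sum_eq_single i]
  · simp [coeff_X_pow]
  · intro j _ hj
    simp [coeff_X_pow, hj]
  · intro h
    exact absurd (Finset.mem_range.2 (Nat.lt_succ_of_le hi)) h

theorem hevA_one (m : ℕ) (x y : A) : hevA m (1 : R[X]) x y = y ^ m := by
  have := hevA_X_pow (R := R) m 0 (Nat.zero_le _) x y
  simpa using this

theorem hevA_C (m : ℕ) (c : R) (x y : A) : hevA m (C c : R[X]) x y = algebraMap R A c * y ^ m := by
  have := hevA_C_mul m c (1 : R[X]) x y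
  rwa [mul_one, hevA_one] at this

theorem hevA_X (m : ℕ) (hm : 1 ≤ m) (x y : A) : hevA m (X : R[X]) x y = x * y ^ (m - 1) := by
  have := hevA_X_pow (R := R) m 1 hm x y
  simpa using this

/-- homogeneity -/
theorem hevA_smul (m : ℕ) (p : R[X]) (c x y : A) :
    hevA m p (c * x) (c * y) = c ^ m * hevA m p x y := by
  simp only [hevA, Finset.mul_sum]
  refine Finset.sum_congr rfl fun i hi => ?_
  have h : c ^ m = c ^ i * c ^ (m - i) := by
    rw [← pow_add, Nat.add_sub_cancel' (Nat.lt_succ_iff.1 (Finset.mem_range.1 hi))]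
  rw [h, mul_pow, mul_pow]
  ring

theorem sum_monomial_range (m : ℕ) (p : R[X]) (hp : p.natDegree ≤ m) :
    p = ∑ i ∈ Finset.range (m + 1), C (p.coeff i) * X ^ i :=
  p.as_sum_range_C_mul_X_pow' (Nat.lt_succ_of_le hp)

theorem hevA_shift (m n i : ℕ) (hi : i ≤ n) (p : R[X]) (hp : p.natDegree ≤ m) (x y : A) :
    hevA (m + n) (p * X ^ i) x y = hevA m p x y * (x ^ i * y ^ (n - i)) := by
  conv_lhs => rw [sum_monomial_range m p hp, Finset.sum_mul, hevA_sum]
  rw [hevA, Finset.sum_mul]
  refine Finset.sum_congr rfl fun j hj => ?_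
  have hj' : j ≤ m := Nat.lt_succ_iff.1 (Finset.mem_range.1 hj)
  rw [mul_assoc (C (p.coeff j)), ← pow_add, hevA_C_mul, hevA_X_pow _ _ (add_le_add hj' hi)]
  have h : m + n - (j + i) = (m - j) + (n - i) := by omega
  rw [h, pow_add, pow_add]
  ring

/-- multiplicativity -/
theorem hevA_mul (m n : ℕ) (p q : R[X]) (hp : p.natDegree ≤ m) (hq : q.natDegree ≤ n) (x y : A) :
    hevA (m + n) (p * q) x y = hevA m p x y * hevA n q x y := by
  have e : p * q = ∑ i ∈ Finset.range (n + 1), C (q.coeff i) * (p * X ^ i) := by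
    conv_lhs => rw [sum_monomial_range n q hq, Finset.mul_sum]
    refine Finset.sum_congr rfl fun j _ => ?_
    ring
  rw [e, hevA_sum]
  conv_rhs => rw [hevA, hevA, Finset.mul_sum]
  refine Finset.sum_congr rfl fun j hj => ?_
  have hj' : j ≤ n := Nat.lt_succ_iff.1 (Finset.mem_range.1 hj)
  rw [hevA_C_mul, hevA_shift m n j hj' p hp, hevA]
  ring

theorem hevA_pow (m : ℕ) (p : R[X]) (hp : p.natDegree ≤ m) (k : ℕ) (x y : A) :
    hevA (k * m) (p ^ k) x y = hevA m p x y ^ k := by
  induction k with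
  | zero => rw [Nat.zero_mul, pow_zero, pow_zero, hevA_one, pow_zero]
  | succ k ih =>
    rw [pow_succ, pow_succ, Nat.add_mul, Nat.one_mul, hevA_mul _ _ _ _ ?_ hp, ih]
    exact (natDegree_pow_le_of_le k hp)

theorem hevA_algHom {B : Type*} [CommRing B] [Algebra R B] (f : A →ₐ[R] B) (m : ℕ) (p : R[X])
    (x y : A) : f (hevA m p x y) = hevA m p (f x) (f y) := by
  simp only [hevA, map_sum, map_mul, map_pow, AlgHom.commutes]

/-- evaluation at `(x, 1)` -/
theorem hevA_aeval (m : ℕ) (p : R[X]) (hp : p.natDegree ≤ m) (x : A) :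
    hevA m p x 1 = aeval x p := by
  conv_rhs => rw [sum_monomial_range m p hp]
  rw [hevA, map_sum]
  refine Finset.sum_congr rfl fun i _ => ?_
  simp

theorem hevA_zero_right (m : ℕ) (p : R[X]) (x : A) :
    hevA m p x 0 = algebraMap R A (p.coeff m) * x ^ m := by
  rw [hevA, Finset.sum_eq_single m]
  · simp
  · intro j hj hjm
    have : m - j ≠ 0 := by
      have := Finset.mem_range.1 hj
      omega
    rw [zero_pow this, mul_zero]
  · intro h
    exact absurd (Finset.mem_range.2 (Nat.lt_succ_self m)) h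

end Gen

section Ring

variable {R S : Type*} [CommRing R] [CommRing S]

/-- Homogeneous evaluation (of degree `m`) of the polynomial `p` at a pair of polynomials. -/
noncomputable def hev (m : ℕ) (p x y : R[X]) : R[X] :=
  ∑ i ∈ range (m + 1), C (p.coeff i) * x ^ i * y ^ (m - i)

/-- Homogeneous evaluation (of degree `m`) of the polynomial `p` at a pair of elements. -/
def hevv (m : ℕ) (p : R[X]) (x y : R) : R :=
  ∑ i ∈ range (m + 1), p.coeff i * x ^ i * y ^ (m - i)

theorem hev_eqA (m : ℕ) (p x y : R[X]) : hev m p x y = hevA m p x y := rfl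

theorem hevv_eqA (m : ℕ) (p : R[X]) (x y : R) : hevv m p x y = hevA m p x y := rfl

theorem hev_map (f : R →+* S) (m : ℕ) (p x y : R[X]) :
    (hev m p x y).map f = hev m (p.map f) (x.map f) (y.map f) := by
  simp only [hev, Polynomial.map_sum, Polynomial.map_mul, Polynomial.map_pow, map_C, coeff_map]

theorem hev_comp (m : ℕ) (p x y q : R[X]) :
    (hev m p x y).comp q = hev m p (x.comp q) (y.comp q) := by
  simp only [hev, Polynomial.sum_comp, mul_comp, pow_comp, C_comp]

theorem eval_hev (m : ℕ) (p x y : R[X]) (v : R) :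
    (hev m p x y).eval v = hevv m p (x.eval v) (y.eval v) := by
  simp only [hev, hevv, eval_finsetSum, eval_mul, eval_pow, eval_C]

theorem hevv_one_right (m : ℕ) (p : R[X]) (hp : p.natDegree ≤ m) (x : R) :
    hevv m p x 1 = p.eval x := by
  rw [hevv_eqA, hevA_aeval m p hp]
  rfl

theorem hevv_smul (m : ℕ) (p : R[X]) (c x y : R) :
    hevv m p (c * x) (c * y) = c ^ m * hevv m p x y := hevA_smul m p c x y

theorem hevv_mul_right {m : ℕ} {p : R[X]} (hp : p.natDegree ≤ m) (w y : R) :
    hevv m p (w * y) y = y ^ m * p.eval w := by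
  have h := hevv_smul m p y w 1
  rw [mul_one, hevv_one_right m p hp, mul_comm y w] at h
  exact h

theorem hevv_zero (m : ℕ) (p : R[X]) (x : R) : hevv m p x 0 = p.coeff m * x ^ m :=
  hevA_zero_right m p x

theorem hev_add (m : ℕ) (p q x y : R[X]) : hev m (p + q) x y = hev m p x y + hev m q x y :=
  hevA_add m p q x y

theorem hev_sub (m : ℕ) (p q x y : R[X]) : hev m (p - q) x y = hev m p x y - hev m q x y :=
  hevA_sub m p q x y

theorem hev_C_mul (m : ℕ) (a : R) (p x y : R[X]) : hev m (C a * p) x y = C a * hev m p x y :=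
  hevA_C_mul m a p x y

/-- Homogeneity. -/
theorem hev_smul (m : ℕ) (p h x y : R[X]) : hev m p (h * x) (h * y) = h ^ m * hev m p x y :=
  hevA_smul m p h x y

theorem hev_one' (m : ℕ) (x y : R[X]) : hev m 1 x y = y ^ m := hevA_one m x y

theorem hev_C' (m : ℕ) (c : R) (x y : R[X]) : hev m (C c) x y = C c * y ^ m := hevA_C m c x y

theorem hev_X' (m : ℕ) (hm : 1 ≤ m) (x y : R[X]) : hev m X x y = x * y ^ (m - 1) :=
  hevA_X m hm x y

theorem hev_one_X (x y : R[X]) : hev 1 X x y = x := by
  rw [hev_X' 1 le_rfl, Nat.sub_self, pow_zero, mul_one]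

theorem hev_one_one (x y : R[X]) : hev 1 1 x y = y := by
  rw [hev_one', pow_one]

theorem hev_one_right {m : ℕ} {p : R[X]} (hp : p.natDegree ≤ m) (x : R[X]) :
    hev m p x 1 = p.comp x := by
  rw [hev_eqA, hevA_aeval m p hp]
  rfl

/-- `x / y` at `(X, 1)`. -/
theorem hev_X_one {m : ℕ} {p : R[X]} (hp : p.natDegree ≤ m) : hev m p X 1 = p := by
  rw [hev_one_right hp, comp_X]

theorem natDegree_hev_le {m e : ℕ} (p : R[X]) {x y : R[X]} (hx : x.natDegree ≤ e)
    (hy : y.natDegree ≤ e) : (hev m p x y).natDegree ≤ m * e := by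
  refine natDegree_sum_le_of_forall_le _ _ fun i hi => ?_
  have hi' : i ≤ m := Nat.lt_succ_iff.1 (Finset.mem_range.1 hi)
  rw [mul_assoc]
  refine (natDegree_C_mul_le _ _).trans (natDegree_mul_le.trans ?_)
  have h1 := natDegree_pow_le_of_le i hx
  have h2 := natDegree_pow_le_of_le (m - i) hy
  refine (add_le_add h1 h2).trans ?_
  rw [← Nat.add_mul, Nat.add_sub_cancel' hi']

/-- Multiplicativity. -/
theorem hev_mul {m m' : ℕ} {p q : R[X]} (hp : p.natDegree ≤ m) (hq : q.natDegree ≤ m')
    (x y : R[X]) : hev (m + m') (p * q) x y = hev m p x y * hev m' q x y :=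
  hevA_mul m m' p q hp hq x y

/-- Associativity in an algebra. -/
theorem hevA_hev {A : Type*} [CommRing A] [Algebra R A] {m m' : ℕ} {p P Q : R[X]}
    (hP : P.natDegree ≤ m') (hQ : Q.natDegree ≤ m') (x y : A) :
    hevA (m * m') (hev m p P Q) x y = hevA m p (hevA m' P x y) (hevA m' Q x y) := by
  rw [hev, hevA_sum, hevA]
  refine Finset.sum_congr rfl fun i hi => ?_
  have hi' : i ≤ m := Nat.lt_succ_iff.1 (Finset.mem_range.1 hi)
  have hm : m * m' = i * m' + (m - i) * m' := by
    rw [← Nat.add_mul, Nat.add_sub_cancel' hi']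
  rw [mul_assoc, hevA_C_mul, hm, hevA_mul _ _ _ _ (natDegree_pow_le_of_le i hP)
    (natDegree_pow_le_of_le (m - i) hQ), hevA_pow m' P hP, hevA_pow m' Q hQ, mul_assoc]

/-- Associativity. -/
theorem hev_hev {m m' : ℕ} {p P Q : R[X]} (_hp : p.natDegree ≤ m) (hP : P.natDegree ≤ m')
    (hQ : Q.natDegree ≤ m') (x y : R[X]) :
    hev (m * m') (hev m p P Q) x y = hev m p (hev m' P x y) (hev m' Q x y) :=
  hevA_hev hP hQ x y

/-- Affine change of the variable. -/
theorem hev_aff {m : ℕ} {p : R[X]} (hp : p.natDegree ≤ m) (b e : R) (x y : R[X]) :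
    hev m (p.comp (C b + C e * X)) x y = hev m p (C e * x + C b * y) y := by
  have h1 : (C b + C e * X : R[X]).natDegree ≤ 1 := by
    rw [add_comm]
    exact natDegree_linear_le
  have h2 : (1 : R[X]).natDegree ≤ 1 := by
    rw [natDegree_one]
    exact Nat.zero_le _
  have h := hev_hev hp h1 h2 x y
  rw [hev_one_right hp, mul_one, hev_add, hev_C_mul, hev_one_X, hev_one_one, hev_C', pow_one,
    add_comm (C b * y)] at h
  exact h

theorem coeff_hev_top {m e : ℕ} (p : R[X]) {x y : R[X]} (hx : x.natDegree ≤ e)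
    (hy : y.natDegree ≤ e) :
    (hev m p x y).coeff (m * e) = hevv m p (x.coeff e) (y.coeff e) := by
  rw [hev, hevv, finsetSum_coeff]
  refine Finset.sum_congr rfl fun i hi => ?_
  have hi' : i ≤ m := Nat.lt_succ_iff.1 (Finset.mem_range.1 hi)
  have hm : m * e = i * e + (m - i) * e := by
    rw [← Nat.add_mul, Nat.add_sub_cancel' hi']
  rw [mul_assoc, coeff_C_mul, hm, coeff_mul_add_eq_of_natDegree_le (natDegree_pow_le_of_le i hx)
    (natDegree_pow_le_of_le (m - i) hy), coeff_pow_of_natDegree_le hx,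
    coeff_pow_of_natDegree_le hy, mul_assoc]

end Ring

section Fld

variable {k : Type*} [Field k]

/-- In an algebra which is a field: homogeneous evaluation and ordinary evaluation. -/
theorem hevA_div {A : Type*} [Field A] [Algebra k A] (m : ℕ) (p : k[X])
    (hp : p.natDegree ≤ m) (x y : A) (hy : y ≠ 0) :
    hevA m p x y = y ^ m * aeval (x / y) p := by
  have h := hevA_smul m p y (x / y) (1 : A)
  rw [mul_div_cancel₀ _ hy, mul_one, hevA_aeval m p hp] at h
  exact h

theorem coeff_max_ne {e : ℕ} {x y : k[X]} (hN : max x.natDegree y.natDegree = e)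
    (hxy : x ≠ 0 ∨ y ≠ 0) : x.coeff e ≠ 0 ∨ y.coeff e ≠ 0 := by
  have hx : x.natDegree ≤ e := hN ▸ le_max_left _ _
  have hy : y.natDegree ≤ e := hN ▸ le_max_right _ _
  by_contra hc
  push Not at hc
  rcases le_total x.natDegree y.natDegree with h | h
  · rw [max_eq_right h] at hN
    have h1 : y = 0 := by rw [← leadingCoeff_eq_zero, leadingCoeff, hN, hc.2]
    have h2 : x = 0 := by
      rw [h1, natDegree_zero] at hN
      have h3 : x.natDegree ≤ 0 := by rw [hN]; exact hx
      rw [eq_C_of_natDegree_le_zero h3, hN, hc.1, C_0]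
    rcases hxy with h3 | h3
    · exact h3 h2
    · exact h3 h1
  · rw [max_eq_left h] at hN
    have h1 : x = 0 := by rw [← leadingCoeff_eq_zero, leadingCoeff, hN, hc.1]
    have h2 : y = 0 := by
      rw [h1, natDegree_zero] at hN
      have h3 : y.natDegree ≤ 0 := by rw [hN]; exact hy
      rw [eq_C_of_natDegree_le_zero h3, hN, hc.2, C_0]
    rcases hxy with h3 | h3
    · exact h3 h1
    · exact h3 h2

theorem ne_zero_or_of_isCoprime {x y : k[X]} (h : IsCoprime x y) : x ≠ 0 ∨ y ≠ 0 := by
  by_contra hc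
  push Not at hc
  rw [hc.1, hc.2] at h
  exact not_isCoprime_zero_zero h

/-- no common zero on the projective line -/
theorem hevv_ne {m : ℕ} {p q : k[X]} (hpq : IsCoprime p q)
    (hm : max p.natDegree q.natDegree = m) {x y : k} (hxy : x ≠ 0 ∨ y ≠ 0) :
    hevv m p x y ≠ 0 ∨ hevv m q x y ≠ 0 := by
  have hp : p.natDegree ≤ m := hm ▸ le_max_left _ _
  have hq : q.natDegree ≤ m := hm ▸ le_max_right _ _
  by_cases hy : y = 0
  · have hx : x ≠ 0 := by
      rcases hxy with h | h
      · exact h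
      · exact absurd hy h
    rw [hy, hevv_zero, hevv_zero]
    rcases coeff_max_ne hm (ne_zero_or_of_isCoprime hpq) with h | h
    · exact Or.inl (mul_ne_zero h (pow_ne_zero _ hx))
    · exact Or.inr (mul_ne_zero h (pow_ne_zero _ hx))
  · have e1 : hevv m p x y = y ^ m * p.eval (x / y) := hevA_div m p hp x y hy
    have e2 : hevv m q x y = y ^ m * q.eval (x / y) := hevA_div m q hq x y hy
    rw [e1, e2]
    obtain ⟨a, b, hab⟩ := hpq
    by_contra hc
    push Not at hc
    have h1 : p.eval (x / y) = 0 := by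
      rcases mul_eq_zero.1 hc.1 with h | h
      · exact absurd h (pow_ne_zero _ hy)
      · exact h
    have h2 : q.eval (x / y) = 0 := by
      rcases mul_eq_zero.1 hc.2 with h | h
      · exact absurd h (pow_ne_zero _ hy)
      · exact h
    have h3 := congrArg (eval (x / y)) hab
    rw [eval_add, eval_mul, eval_mul, h1, h2, eval_one] at h3
    simp at h3

/-- Coprimality of a composition. -/
theorem isCoprime_hev [IsAlgClosed k] {m : ℕ} {p q x y : k[X]} (h : IsCoprime p q)
    (hm : max p.natDegree q.natDegree = m) (hxy : IsCoprime x y) :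
    IsCoprime (hev m p x y) (hev m q x y) := by
  rw [isCoprime_iff_aeval_ne_zero_of_isAlgClosed k k]
  intro t
  have e : ∀ f : k[X], aeval t f = f.eval t := fun f => rfl
  rw [e, e, eval_hev, eval_hev]
  refine hevv_ne h hm ?_
  exact (isCoprime_iff_aeval_ne_zero_of_isAlgClosed k k x y).1 hxy t

/-- Degree of a composition. -/
theorem natDegree_hev [IsAlgClosed k] {m e : ℕ} {p q x y : k[X]} (h : IsCoprime p q)
    (hm : max p.natDegree q.natDegree = m) (hxy : IsCoprime x y)
    (he : max x.natDegree y.natDegree = e) :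
    max (hev m p x y).natDegree (hev m q x y).natDegree = m * e := by
  have hx : x.natDegree ≤ e := he ▸ le_max_left _ _
  have hy : y.natDegree ≤ e := he ▸ le_max_right _ _
  refine le_antisymm (max_le (natDegree_hev_le p hx hy)
    (natDegree_hev_le q hx hy)) ?_
  rcases hevv_ne h hm (coeff_max_ne he (ne_zero_or_of_isCoprime hxy)) with h | h
  · rw [← coeff_hev_top p hx hy] at h
    exact le_max_of_le_left (le_natDegree_of_ne_zero h)
  · rw [← coeff_hev_top q hx hy] at h
    exact le_max_of_le_right (le_natDegree_of_ne_zero h)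

/-- Nonconstant pairs: `B ≠ 0` and `A` is not a constant multiple of `B`. -/
def NonC (A B : k[X]) : Prop := B ≠ 0 ∧ ∀ t : k, A ≠ C t * B

/-- A nonzero polynomial does not vanish at a nonconstant rational function. -/
theorem hev_ne_zero [IsAlgClosed k] {m : ℕ} {p A B : k[X]} (hp : p.natDegree ≤ m) (hp0 : p ≠ 0)
    (h : NonC A B) : hev m p A B ≠ 0 := by
  intro h0
  have hB : algebraMap k[X] (RatFunc k) B ≠ 0 := RatFunc.algebraMap_ne_zero h.1
  have h1 := hevA_div m p hp (algebraMap k[X] (RatFunc k) A) (algebraMap k[X] (RatFunc k) B) hB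
  have h2 := hevA_algHom (IsScalarTower.toAlgHom k k[X] (RatFunc k)) m p A B
  rw [IsScalarTower.coe_toAlgHom'] at h2
  rw [← h2, ← hev_eqA, h0, map_zero] at h1
  rcases mul_eq_zero.1 h1.symm with h3 | h3
  · exact pow_ne_zero _ hB h3
  · have h4 : p = C p.leadingCoeff * (p.roots.map fun a => X - C a).prod :=
      (IsAlgClosed.splits p).eq_prod_roots
    rw [h4, map_mul, map_multiset_prod, Multiset.map_map] at h3
    rcases mul_eq_zero.1 h3 with h5 | h5
    · rw [aeval_C] at h5
      exact hp0 (leadingCoeff_eq_zero.1 ((map_eq_zero _).1 h5))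
    · rw [Multiset.prod_eq_zero_iff, Multiset.mem_map] at h5
      obtain ⟨t, _, ht⟩ := h5
      rw [Function.comp_apply, map_sub, aeval_X, aeval_C, sub_eq_zero, div_eq_iff hB] at ht
      apply h.2 t
      apply RatFunc.algebraMap_injective k
      rw [ht, map_mul]
      rfl

/-- Compositions of nonconstant pairs are nonconstant. -/
theorem NonC.hev [IsAlgClosed k] {m : ℕ} {A' B' A B : k[X]} (hA : A'.natDegree ≤ m)
    (hB : B'.natDegree ≤ m) (h' : NonC A' B') (h : NonC A B) :
    NonC (hev m A' A B) (PoolBerk.hev m B' A B) := by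
  refine ⟨hev_ne_zero hB h'.1 h, fun t ht => ?_⟩
  have h1 : PoolBerk.hev m (A' - C t * B') A B = 0 := by
    rw [hev_sub, hev_C_mul, ht, sub_self]
  refine hev_ne_zero ?_ ?_ h h1
  · exact (natDegree_sub_le _ _).trans (max_le hA ((natDegree_C_mul_le _ _).trans hB))
  · exact sub_ne_zero.2 (h'.2 t)

end Fld

end PoolBerk
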