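import Pool.Agent.H.MP_db48a2_an.Bg.Hev
import Pool.Agent.H.MP_db48a2_an.Bk.Defs

/-!
# Numerators and denominators of iterates
-/

namespace PoolBerk

open Polynomial Finset

section

variable {K : Type*} [Field K]

/-- Numerator and denominator of the `j`-th iterate of `P / Q` (`d` is the degree of `P / Q`). -/
noncomputable def itPQ (d : ℕ) (P Q : K[X]) : ℕ → K[X] × K[X]
  | 0 => (X, 1)
  | j + 1 => (hev (d ^ j) (itPQ d P Q j).1 P Q, hev (d ^ j) (itPQ d P Q j).2 P Q)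

/-- Numerator. -/
noncomputable def itP (d : ℕ) (P Q : K[X]) (j : ℕ) : K[X] := (itPQ d P Q j).1

/-- Denominator. -/
noncomputable def itQ (d : ℕ) (P Q : K[X]) (j : ℕ) : K[X] := (itPQ d P Q j).2

theorem itP_zero (d : ℕ) (P Q : K[X]) : itP d P Q 0 = X := rfl

theorem itQ_zero (d : ℕ) (P Q : K[X]) : itQ d P Q 0 = 1 := rfl

theorem itP_succ (d : ℕ) (P Q : K[X]) (j : ℕ) :
    itP d P Q (j + 1) = hev (d ^ j) (itP d P Q j) P Q := rfl

theorem itQ_succ (d : ℕ) (P Q : K[X]) (j : ℕ) :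
    itQ d P Q (j + 1) = hev (d ^ j) (itQ d P Q j) P Q := rfl

theorem itP_one (d : ℕ) (P Q : K[X]) : itP d P Q 1 = P := by
  rw [itP_succ, itP_zero, pow_zero, hev_one_X]

theorem itQ_one (d : ℕ) (P Q : K[X]) : itQ d P Q 1 = Q := by
  rw [itQ_succ, itQ_zero, pow_zero, hev_one_one]

variable {d : ℕ} {P Q : K[X]}

theorem natDegree_itP_le' (hP : P.natDegree ≤ d) (hQ : Q.natDegree ≤ d) (n : ℕ) :
    (itP d P Q n).natDegree ≤ d ^ n := by
  cases n with
  | zero => exact natDegree_X_le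
  | succ n =>
    rw [itP_succ, pow_succ]
    exact natDegree_hev_le _ hP hQ

theorem natDegree_itQ_le' (hP : P.natDegree ≤ d) (hQ : Q.natDegree ≤ d) (n : ℕ) :
    (itQ d P Q n).natDegree ≤ d ^ n := by
  cases n with
  | zero => rw [itQ_zero, natDegree_one]; exact Nat.zero_le _
  | succ n =>
    rw [itQ_succ, pow_succ]
    exact natDegree_hev_le _ hP hQ

/-- Composition of iterates. -/
theorem itP_add (hP : P.natDegree ≤ d) (hQ : Q.natDegree ≤ d) (i j : ℕ) :
    itP d P Q (i + j) = hev (d ^ i) (itP d P Q i) (itP d P Q j) (itQ d P Q j) := by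
  induction j with
  | zero => rw [add_zero, itP_zero, itQ_zero, hev_X_one (natDegree_itP_le' hP hQ i)]
  | succ j ih =>
    rw [← add_assoc, itP_succ, ih, pow_add, hev_hev (natDegree_itP_le' hP hQ i)
      (natDegree_itP_le' hP hQ j) (natDegree_itQ_le' hP hQ j), ← itP_succ, ← itQ_succ]

theorem itQ_add (hP : P.natDegree ≤ d) (hQ : Q.natDegree ≤ d) (i j : ℕ) :
    itQ d P Q (i + j) = hev (d ^ i) (itQ d P Q i) (itP d P Q j) (itQ d P Q j) := by
  induction j with
  | zero => rw [add_zero, itP_zero, itQ_zero, hev_X_one (natDegree_itQ_le' hP hQ i)]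
  | succ j ih =>
    rw [← add_assoc, itQ_succ, ih, pow_add, hev_hev (natDegree_itQ_le' hP hQ i)
      (natDegree_itP_le' hP hQ j) (natDegree_itQ_le' hP hQ j), ← itP_succ, ← itQ_succ]

theorem itP_succ' (hP : P.natDegree ≤ d) (hQ : Q.natDegree ≤ d) (n : ℕ) :
    itP d P Q (n + 1) = hev d P (itP d P Q n) (itQ d P Q n) := by
  rw [add_comm n 1, itP_add hP hQ 1 n, pow_one, itP_one]

theorem itQ_succ' (hP : P.natDegree ≤ d) (hQ : Q.natDegree ≤ d) (n : ℕ) :
    itQ d P Q (n + 1) = hev d Q (itP d P Q n) (itQ d P Q n) := by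
  rw [add_comm n 1, itQ_add hP hQ 1 n, pow_one, itQ_one]

/-- The degrees are exactly `d ^ j`, and numerator and denominator are coprime. -/
theorem itPQ_spec [IsAlgClosed K] (hPQ : IsCoprime P Q)
    (hd : max P.natDegree Q.natDegree = d) (j : ℕ) :
    IsCoprime (itP d P Q j) (itQ d P Q j) ∧
      max (itP d P Q j).natDegree (itQ d P Q j).natDegree = d ^ j := by
  induction j with
  | zero =>
    refine ⟨isCoprime_one_right, ?_⟩
    rw [itP_zero, itQ_zero, natDegree_X, natDegree_one, pow_zero]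
    rfl
  | succ n ih =>
    refine ⟨isCoprime_hev ih.1 ih.2 hPQ, ?_⟩
    rw [itP_succ, itQ_succ, natDegree_hev ih.1 ih.2 hPQ hd, pow_succ]

theorem natDegree_itP_le [IsAlgClosed K] (hPQ : IsCoprime P Q)
    (hd : max P.natDegree Q.natDegree = d) (j : ℕ) : (itP d P Q j).natDegree ≤ d ^ j :=
  (itPQ_spec hPQ hd j).2 ▸ le_max_left _ _

theorem natDegree_itQ_le [IsAlgClosed K] (hPQ : IsCoprime P Q)
    (hd : max P.natDegree Q.natDegree = d) (j : ℕ) : (itQ d P Q j).natDegree ≤ d ^ j :=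
  (itPQ_spec hPQ hd j).2 ▸ le_max_right _ _

theorem itQ_ne_zero [IsAlgClosed K] (hPQ : IsCoprime P Q)
    (hd : max P.natDegree Q.natDegree = d) (h1 : 1 ≤ d) (j : ℕ) : itQ d P Q j ≠ 0 := by
  intro h
  obtain ⟨h2, h3⟩ := itPQ_spec hPQ hd j
  rw [h, isCoprime_zero_right] at h2
  rw [h, natDegree_zero, natDegree_eq_zero_of_isUnit h2] at h3
  have h4 : 1 ≤ d ^ j := Nat.one_le_pow _ _ h1
  simp at h3
  omega

/-- The iterates of an endomorphism of the field of rational functions. -/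
theorem sigma_pow_X (σ : RatFunc K →ₐ[K] RatFunc K) (hQ0 : Q ≠ 0)
    (hσ : σ RatFunc.X = algebraMap K[X] (RatFunc K) P / algebraMap K[X] (RatFunc K) Q)
    (hP : P.natDegree ≤ d) (hQ : Q.natDegree ≤ d) (n : ℕ) :
    (σ ^ n) RatFunc.X =
      algebraMap K[X] (RatFunc K) (itP d P Q n) / algebraMap K[X] (RatFunc K) (itQ d P Q n) := by
  have hQ1 : algebraMap K[X] (RatFunc K) Q ≠ 0 := RatFunc.algebraMap_ne_zero hQ0
  have key : ∀ (m : ℕ) (f : K[X]), f.natDegree ≤ m →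
      σ (algebraMap K[X] (RatFunc K) f) * (algebraMap K[X] (RatFunc K) Q) ^ m =
        algebraMap K[X] (RatFunc K) (hev m f P Q) := by
    intro m f hf
    have h1 : σ (algebraMap K[X] (RatFunc K) f) = aeval (σ RatFunc.X) f := by
      have h2 : algebraMap K[X] (RatFunc K) f = aeval (RatFunc.X : RatFunc K) f := by
        rw [← RatFunc.algebraMap_X, aeval_algebraMap_apply, aeval_X_left_apply]
      rw [h2, ← aeval_algHom_apply]
    have h3 := hevA_div m f hf (algebraMap K[X] (RatFunc K) P) (algebraMap K[X] (RatFunc K) Q) hQ1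
    rw [h1, hσ, mul_comm, ← h3, hev_eqA]
    have h4 := hevA_algHom (IsScalarTower.toAlgHom K K[X] (RatFunc K)) m f P Q
    rw [IsScalarTower.coe_toAlgHom'] at h4
    exact h4.symm
  induction n with
  | zero => rw [pow_zero, itP_zero, itQ_zero, map_one, div_one, RatFunc.algebraMap_X]; rfl
  | succ n ih =>
    have e : (σ ^ (n + 1)) RatFunc.X = σ ((σ ^ n) RatFunc.X) := by
      rw [pow_succ']; rfl
    rw [e, ih, map_div₀, itP_succ, itQ_succ, ← key _ _ (natDegree_itP_le' hP hQ n),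
      ← key _ _ (natDegree_itQ_le' hP hQ n), mul_div_mul_right _ _ (pow_ne_zero _ hQ1)]

end

section

variable {K : Type*} [Field K] [IsAlgClosed K] (σ : RatFunc K →ₐ[K] RatFunc K)

/-- `(σ ^ j) X = itP j / itQ j`. -/
theorem iter_eq (j : ℕ) :
    (σ ^ j) RatFunc.X =
      algebraMap K[X] (RatFunc K)
        (itP (rdeg (σ RatFunc.X)) (σ RatFunc.X).num (σ RatFunc.X).denom j) /
      algebraMap K[X] (RatFunc K)
        (itQ (rdeg (σ RatFunc.X)) (σ RatFunc.X).num (σ RatFunc.X).denom j) :=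
  sigma_pow_X σ (RatFunc.denom_ne_zero _) (RatFunc.num_div_denom _).symm
    (le_max_left _ _) (le_max_right _ _) j

/-- Numerator and denominator of `(σ ^ j) X` up to a common constant. -/
theorem num_denom_iter (hd : 1 ≤ rdeg (σ RatFunc.X)) (j : ℕ) :
    ∃ l : K, l ≠ 0 ∧
      ((σ ^ j) RatFunc.X).num =
        C l * itP (rdeg (σ RatFunc.X)) (σ RatFunc.X).num (σ RatFunc.X).denom j ∧
      ((σ ^ j) RatFunc.X).denom =
        C l * itQ (rdeg (σ RatFunc.X)) (σ RatFunc.X).num (σ RatFunc.X).denom j := by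
  obtain ⟨hc, _⟩ := itPQ_spec (RatFunc.isCoprime_num_denom (σ RatFunc.X)) rfl j
  have hq0 := itQ_ne_zero (RatFunc.isCoprime_num_denom (σ RatFunc.X)) rfl hd j
  have h1 := iter_eq σ j
  change IsCoprime (itP (rdeg (σ RatFunc.X)) (σ RatFunc.X).num (σ RatFunc.X).denom j)
    (itQ (rdeg (σ RatFunc.X)) (σ RatFunc.X).num (σ RatFunc.X).denom j) at hc
  change itQ (rdeg (σ RatFunc.X)) (σ RatFunc.X).num (σ RatFunc.X).denom j ≠ 0 at hq0
  obtain ⟨p, hp⟩ : ∃ p, p = itP (rdeg (σ RatFunc.X)) (σ RatFunc.X).num (σ RatFunc.X).denom j :=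
    ⟨_, rfl⟩
  obtain ⟨q, hq⟩ : ∃ q, q = itQ (rdeg (σ RatFunc.X)) (σ RatFunc.X).num (σ RatFunc.X).denom j :=
    ⟨_, rfl⟩
  rw [← hp, ← hq] at hc h1
  rw [← hq] at hq0
  rw [← hp, ← hq]
  obtain ⟨f, hf⟩ : ∃ f, f = (σ ^ j) RatFunc.X := ⟨_, rfl⟩
  rw [← hf] at h1 ⊢
  have h2 : f.num * q = p * f.denom := by
    have h3 : algebraMap K[X] (RatFunc K) f.denom ≠ 0 :=
      RatFunc.algebraMap_ne_zero (RatFunc.denom_ne_zero f)
    have h4 : algebraMap K[X] (RatFunc K) q ≠ 0 := RatFunc.algebraMap_ne_zero hq0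
    apply RatFunc.algebraMap_injective K
    rw [map_mul, map_mul]
    have h5 := (RatFunc.num_div_denom f).trans h1
    rw [div_eq_div_iff h3 h4] at h5
    exact h5
  have hd1 : q ∣ f.denom := by
    refine hc.symm.dvd_of_dvd_mul_left ?_
    rw [← h2]
    exact dvd_mul_left _ _
  have hd2 : f.denom ∣ q := by
    refine (RatFunc.isCoprime_num_denom f).symm.dvd_of_dvd_mul_left ?_
    rw [h2]
    exact dvd_mul_left _ _
  obtain ⟨u, hu⟩ := associated_of_dvd_dvd hd1 hd2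
  obtain ⟨l, hl, hul⟩ := Polynomial.isUnit_iff.1 u.isUnit
  refine ⟨l, hl.ne_zero, ?_, ?_⟩
  · refine mul_right_cancel₀ hq0 ?_
    rw [h2, ← hu, ← hul]
    ring
  · rw [← hu, ← hul]
    ring

end

end PoolBerk
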