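import Pool.Agent.H.MP_db48a2_an.Bg.TreeEdge

/-!
# The tree lemma: induction
-/

namespace PoolBerk

open Polynomial Metric Finset

variable {K : Type*} [NontriviallyNormedField K] [IsUltrametricDist K]
variable {Z Pl Th : Multiset K} {u : K → ℝ → ℝ} {ι : Type*} {I : Finset ι} {a c : ι → K}
  {wt : ι → ℤ}

/-- Base case: no item and at most one marked point. -/
theorem base_step (h : TreeHyp Z Pl Th u) {x : K} {r : ℝ} (hr : 0 < r)
    (hI : inO I a c x r = ∅)
    (h1 : ∀ z ∈ Z + Pl + Th, ∀ z' ∈ Z + Pl + Th, z ∈ ball x r → z' ∈ ball x r → z = z') :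
    ClaimO Z Pl Th u I a c wt x r := by
  classical
  rw [ClaimO, hI, Finset.sum_empty]
  refine ⟨fun hneg => ?_, fun _ => le_max_right _ _⟩
  by_cases hex : ∃ y ∈ Z, y ∈ ball x r
  · obtain ⟨y, hyZ, hy⟩ := hex
    have hyM : y ∈ Z + Pl + Th := by simp [hyZ]
    have hb : ball x r = ball y r := IsUltrametricDist.ball_eq_of_mem hy
    have hxy : ‖x - y‖ < r := by
      rw [mem_ball, dist_eq_norm, norm_sub_rev] at hy
      exact hy
    have hu : u x r = u y r := h.cong x y r hr hxy.le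
    have hZ1 : ∀ z ∈ Z, z ∈ ball y r → z = y := by
      intro z hz hz2
      exact h1 z (by simp [hz]) y hyM (hb ▸ hz2) hy
    have hP1 : ∀ z ∈ Pl, z ∉ ball y r := by
      intro z hz hz2
      have := h1 z (by simp [hz]) y hyM (hb ▸ hz2) hy
      rw [this] at hz
      exact h.disj y hyZ hz
    have hcP : cnt Pl (ball x r) = 0 := by
      rw [hb, cnt_eq_zero_iff]
      exact hP1
    have hN : NN Z Pl (ball x r) = cnt Z (ball x r) := by
      rw [NN, hcP]; simp
    have := h.base y r hr hZ1 hP1 (by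
      rw [← hb, ← hu]
      rcases hneg with hn | ⟨_, hn⟩
      · exact Or.inl hn
      · rw [hN] at hn
        exact Or.inr (by exact_mod_cast hn))
    rw [← hb] at this
    rw [hN]
    omega
  · have hcZ : cnt Z (ball x r) = 0 := by
      rw [cnt_eq_zero_iff]
      intro z hz hz2
      exact hex ⟨z, hz, hz2⟩
    rw [NN, hcZ]
    omega

/-- The number of marks in an open ball. -/
noncomputable def marks (Z Pl Th : Multiset K) {ι : Type*} (I : Finset ι) (a c : ι → K) (x : K)
    (r : ℝ) : ℕ := by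
  classical exact ((Z + Pl + Th).toFinset.filter (fun z => z ∈ ball x r)).card +
    (inO I a c x r).card

/-- Not base case: there is a smallest closed ball containing all marks and items. -/
theorem exists_hull (hI : ∀ i ∈ I, c i ≠ 0) {x y : K} (hy : y ≠ 0)
    (h : ¬ (inO I a c x ‖y‖ = ∅ ∧
      ∀ z ∈ Z + Pl + Th, ∀ z' ∈ Z + Pl + Th, z ∈ ball x ‖y‖ → z' ∈ ball x ‖y‖ → z = z')) :
    ∃ x' y' : K, y' ≠ 0 ∧ ‖x' - x‖ < ‖y‖ ∧ ‖y'‖ < ‖y‖ ∧
      (∀ z ∈ Z + Pl + Th, z ∈ ball x ‖y‖ → z ∈ closedBall x' ‖y'‖) ∧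
      (∀ i ∈ inO I a c x ‖y‖, a i ∈ closedBall x' ‖y'‖ ∧ ‖c i‖ ≤ ‖y'‖) ∧
      ∀ v : kK K, marks Z Pl Th I a c (x' + y' * rep v) ‖y'‖ < marks Z Pl Th I a c x ‖y‖ := by
  classical
  set P : Finset K := ((Z + Pl + Th).toFinset.filter (fun z => z ∈ ball x ‖y‖)) ∪
    (inO I a c x ‖y‖).image a with hP
  set D : Finset K := ((P ×ˢ P).image (fun p => p.1 - p.2)) ∪ (inO I a c x ‖y‖).image c with hD
  have hPball : ∀ p ∈ P, ‖p - x‖ < ‖y‖ := by
    intro p hp
    rw [hP, Finset.mem_union, Finset.mem_filter, Finset.mem_image] at hp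
    rw [← dist_eq_norm, ← mem_ball]
    rcases hp with hp | ⟨i, hi, rfl⟩
    · exact hp.2
    · exact (mem_inO.mp hi).2.1
  have hdiff : ∀ p q : K, ‖p - x‖ < ‖y‖ → ‖q - x‖ < ‖y‖ → ‖p - q‖ < ‖y‖ := by
    intro p q hp hq
    have e : p - q = (p - x) + (x - q) := by ring
    rw [e]
    refine lt_of_le_of_lt (IsUltrametricDist.norm_add_le_max _ _) (max_lt hp ?_)
    rwa [norm_sub_rev]
  -- a nonzero element of D, and a point of P
  have hne : (∃ δ ∈ D, δ ≠ 0) ∧ P.Nonempty := by
    by_cases hemp : inO I a c x ‖y‖ = ∅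
    · have h2 : ∃ z ∈ Z + Pl + Th, ∃ z' ∈ Z + Pl + Th, z ∈ ball x ‖y‖ ∧ z' ∈ ball x ‖y‖ ∧
          z ≠ z' := by
        by_contra hcon
        apply h
        refine ⟨hemp, ?_⟩
        intro z hz z' hz' h3 h4
        by_contra h5
        exact hcon ⟨z, hz, z', hz', h3, h4, h5⟩
      obtain ⟨z, hz, z', hz', h3, h4, h5⟩ := h2
      have hzP : z ∈ P := by
        rw [hP, Finset.mem_union, Finset.mem_filter]
        exact Or.inl ⟨Multiset.mem_toFinset.mpr hz, h3⟩
      have hzP' : z' ∈ P := by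
        rw [hP, Finset.mem_union, Finset.mem_filter]
        exact Or.inl ⟨Multiset.mem_toFinset.mpr hz', h4⟩
      refine ⟨⟨z - z', ?_, sub_ne_zero.mpr h5⟩, ⟨z, hzP⟩⟩
      rw [hD, Finset.mem_union, Finset.mem_image]
      exact Or.inl ⟨(z, z'), Finset.mem_product.mpr ⟨hzP, hzP'⟩, rfl⟩
    · obtain ⟨i, hi⟩ := Finset.nonempty_iff_ne_empty.mpr hemp
      refine ⟨⟨c i, ?_, hI i (mem_inO.mp hi).1⟩, ⟨a i, ?_⟩⟩
      · rw [hD, Finset.mem_union]
        exact Or.inr (Finset.mem_image_of_mem c hi)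
      · rw [hP, Finset.mem_union]
        exact Or.inr (Finset.mem_image_of_mem a hi)
  obtain ⟨⟨δ, hδD, hδ0⟩, ⟨x', hx'⟩⟩ := hne
  obtain ⟨y', hy'D, hmax⟩ := Finset.exists_max_image D (fun d => ‖d‖) ⟨δ, hδD⟩
  have hy'0 : y' ≠ 0 := by
    intro h0
    have := hmax δ hδD
    rw [h0, norm_zero] at this
    exact hδ0 (norm_le_zero_iff.mp this)
  have hy'lt : ‖y'‖ < ‖y‖ := by
    rw [hD, Finset.mem_union, Finset.mem_image, Finset.mem_image] at hy'D
    rcases hy'D with ⟨p, hp, rfl⟩ | ⟨i, hi, rfl⟩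
    · rw [Finset.mem_product] at hp
      exact hdiff _ _ (hPball _ hp.1) (hPball _ hp.2)
    · exact (mem_inO.mp hi).2.2
  have hPx' : ∀ p ∈ P, p ∈ closedBall x' ‖y'‖ := by
    intro p hp
    rw [mem_closedBall, dist_eq_norm]
    apply hmax
    rw [hD, Finset.mem_union, Finset.mem_image]
    exact Or.inl ⟨(p, x'), Finset.mem_product.mpr ⟨hp, hx'⟩, rfl⟩
  refine ⟨x', y', hy'0, hPball x' hx', hy'lt, ?_, ?_, ?_⟩
  · intro z hz hzb
    apply hPx'
    rw [hP, Finset.mem_union, Finset.mem_filter]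
    exact Or.inl ⟨Multiset.mem_toFinset.mpr hz, hzb⟩
  · intro i hi
    constructor
    · apply hPx'
      rw [hP, Finset.mem_union]
      exact Or.inr (Finset.mem_image_of_mem a hi)
    · apply hmax
      rw [hD, Finset.mem_union]
      exact Or.inr (Finset.mem_image_of_mem c hi)
  · intro v
    have hsub : ball (x' + y' * rep v) ‖y'‖ ⊆ ball x ‖y‖ := by
      intro z hz
      rw [mem_ball, dist_eq_norm] at hz ⊢
      have e : z - x = (z - (x' + y' * rep v)) + ((x' - x) + y' * rep v) := by ring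
      rw [e]
      refine lt_of_le_of_lt (IsUltrametricDist.norm_add_le_max _ _)
        (max_lt (lt_trans hz hy'lt) ?_)
      refine lt_of_le_of_lt (IsUltrametricDist.norm_add_le_max _ _)
        (max_lt (hPball x' hx') ?_)
      rw [norm_mul]
      exact lt_of_le_of_lt (mul_le_of_le_one_right (norm_nonneg _) (norm_rep_le v)) hy'lt
    have hs1 : (Z + Pl + Th).toFinset.filter (fun z => z ∈ ball (x' + y' * rep v) ‖y'‖) ⊆
        (Z + Pl + Th).toFinset.filter (fun z => z ∈ ball x ‖y‖) := by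
      intro z hz
      rw [Finset.mem_filter] at hz ⊢
      exact ⟨hz.1, hsub hz.2⟩
    have hs2 : inO I a c (x' + y' * rep v) ‖y'‖ ⊆ inO I a c x ‖y‖ := by
      intro i hi
      rw [mem_inO] at hi ⊢
      exact ⟨hi.1, hsub hi.2.1, lt_trans hi.2.2 hy'lt⟩
    have hc1 := Finset.card_le_card hs1
    have hc2 := Finset.card_le_card hs2
    have hlt : ((Z + Pl + Th).toFinset.filter
          (fun z => z ∈ ball (x' + y' * rep v) ‖y'‖)).card <
        ((Z + Pl + Th).toFinset.filter (fun z => z ∈ ball x ‖y‖)).card ∨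
        (inO I a c (x' + y' * rep v) ‖y'‖).card < (inO I a c x ‖y‖).card := by
      -- a point of P outside of the small ball gives a strict inclusion
      have hpoint : ∀ p ∈ P, p ∉ ball (x' + y' * rep v) ‖y'‖ →
          ((Z + Pl + Th).toFinset.filter
          (fun z => z ∈ ball (x' + y' * rep v) ‖y'‖)).card <
        ((Z + Pl + Th).toFinset.filter (fun z => z ∈ ball x ‖y‖)).card ∨
        (inO I a c (x' + y' * rep v) ‖y'‖).card < (inO I a c x ‖y‖).card := by
        intro p hp hpn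
        rw [hP, Finset.mem_union, Finset.mem_image] at hp
        rcases hp with hp | ⟨i, hi, rfl⟩
        · left
          apply Finset.card_lt_card
          refine ⟨hs1, fun hcon => hpn ?_⟩
          exact (Finset.mem_filter.mp (hcon hp)).2
        · right
          apply Finset.card_lt_card
          refine ⟨hs2, fun hcon => hpn ?_⟩
          exact (mem_inO.mp (hcon hi)).2.1
      have hy'D' := hy'D
      rw [hD, Finset.mem_union, Finset.mem_image, Finset.mem_image] at hy'D'
      rcases hy'D' with ⟨p, hp, hpe⟩ | ⟨i, hi, hie⟩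
      · rw [Finset.mem_product] at hp
        by_cases h1 : p.1 ∈ ball (x' + y' * rep v) ‖y'‖
        · by_cases h2 : p.2 ∈ ball (x' + y' * rep v) ‖y'‖
          · exfalso
            rw [mem_ball, dist_eq_norm] at h1 h2
            have e : y' = (p.1 - (x' + y' * rep v)) + ((x' + y' * rep v) - p.2) := by
              rw [← hpe]; ring
            have h3 : ‖(p.1 - (x' + y' * rep v)) + ((x' + y' * rep v) - p.2)‖ < ‖y'‖ := by
              refine lt_of_le_of_lt (IsUltrametricDist.norm_add_le_max _ _) (max_lt h1 ?_)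
              rwa [norm_sub_rev]
            rw [← e] at h3
            exact lt_irrefl _ h3
          · exact hpoint _ hp.2 h2
        · exact hpoint _ hp.1 h1
      · right
        apply Finset.card_lt_card
        refine ⟨hs2, fun hcon => ?_⟩
        have := (mem_inO.mp (hcon hi)).2.2
        rw [hie] at this
        exact lt_irrefl _ this
    simp only [marks]
    rcases hlt with hlt | hlt <;> omega

theorem cnt_congr {F : Multiset K} {S T : Set K} (h : ∀ z ∈ F, z ∈ S ↔ z ∈ T) :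
    cnt F S = cnt F T := by
  classical
  simp only [cnt]
  exact Multiset.countP_congr rfl (fun z hz => propext (h z hz))

/-- **Tree lemma** for open balls. -/
theorem tree_open (h : TreeHyp Z Pl Th u) (hI : TreeItems Z Pl Th u I a c wt) (x y : K)
    (hy : y ≠ 0) : ClaimO Z Pl Th u I a c wt x ‖y‖ := by
  classical
  suffices H : ∀ n : ℕ, ∀ x y : K, y ≠ 0 → marks Z Pl Th I a c x ‖y‖ = n →
      ClaimO Z Pl Th u I a c wt x ‖y‖ from H _ x y hy rfl
  intro n
  induction n using Nat.strong_induction_on with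
  | _ n ih =>
    intro x y hy hn
    by_cases hbase : inO I a c x ‖y‖ = ∅ ∧
      ∀ z ∈ Z + Pl + Th, ∀ z' ∈ Z + Pl + Th, z ∈ ball x ‖y‖ → z' ∈ ball x ‖y‖ → z = z'
    · exact base_step h (norm_pos_iff.mpr hy) hbase.1 hbase.2
    · obtain ⟨x', y', hy', hxx, hyy, hpts, hits, hmk⟩ := exists_hull hI.hc hy hbase
      have hC : ClaimC Z Pl Th u I a c wt x' ‖y'‖ := by
        apply merge_step h hI hy'
        intro v
        exact ih _ (hn ▸ hmk v) _ _ hy' rfl
      have hb : ball x ‖y‖ = ball x' ‖y‖ := by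
        apply IsUltrametricDist.ball_eq_of_mem
        rw [mem_ball, dist_eq_norm]
        exact hxx
      have hsub : closedBall x' ‖y'‖ ⊆ ball x' ‖y‖ := closedBall_subset_ball hyy
      have hcnt : ∀ F : Multiset K, F ≤ Z + Pl + Th →
          cnt F (closedBall x' ‖y'‖) = cnt F (ball x' ‖y‖) := by
        intro F hF
        apply cnt_congr
        intro z hz
        exact ⟨fun h => hsub h, fun h => hpts z (Multiset.mem_of_le hF hz) (hb ▸ h)⟩
      have hO : ClaimO Z Pl Th u I a c wt x' ‖y‖ := by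
        apply edge_step h (norm_pos_iff.mpr hy') hyy (hcnt Z _) (hcnt Pl _) (hcnt Th _) _ hC
        · rw [add_assoc]; exact Multiset.le_add_right _ _
        · exact le_trans (Multiset.le_add_left _ _) (Multiset.le_add_right _ _)
        · exact Multiset.le_add_left _ _
        · ext i
          rw [mem_inC, mem_inO]
          constructor
          · rintro ⟨h1, h2, h3⟩
            exact ⟨h1, hsub h2, lt_of_le_of_lt h3 hyy⟩
          · rintro ⟨h1, h2, h3⟩
            have := hits i (mem_inO.mpr ⟨h1, hb ▸ h2, h3⟩)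
            exact ⟨h1, this.1, this.2⟩
      exact claimO_congr h hxx hO

/-- **Tree lemma**, global form. -/
theorem tree_top (h : TreeHyp Z Pl Th u) (hI : TreeItems Z Pl Th u I a c wt) :
    ∑ i ∈ I, wt i ≤ (Multiset.card Th : ℤ) +
      max 0 ((Multiset.card Pl : ℤ) - Multiset.card Z) := by
  classical
  -- a large ball
  obtain ⟨M, hM⟩ : ∃ M : ℝ, (∀ z ∈ Z + Pl + Th, ‖z‖ < M) ∧ (∀ i ∈ I, ‖a i‖ < M ∧ ‖c i‖ < M) := by
    refine ⟨∑ z ∈ (Z + Pl + Th).toFinset, ‖z‖ + ∑ i ∈ I, (‖a i‖ + ‖c i‖) + 1, ?_, ?_⟩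
    · intro z hz
      have h1 : ‖z‖ ≤ ∑ z ∈ (Z + Pl + Th).toFinset, ‖z‖ :=
        Finset.single_le_sum (f := fun z => ‖z‖) (fun _ _ => norm_nonneg _)
          (Multiset.mem_toFinset.mpr hz)
      have h2 : 0 ≤ ∑ i ∈ I, (‖a i‖ + ‖c i‖) :=
        Finset.sum_nonneg (fun _ _ => by positivity)
      linarith
    · intro i hi
      have h1 : ‖a i‖ + ‖c i‖ ≤ ∑ i ∈ I, (‖a i‖ + ‖c i‖) :=
        Finset.single_le_sum (f := fun i => ‖a i‖ + ‖c i‖) (fun _ _ => by positivity) hi
      have h2 : 0 ≤ ∑ z ∈ (Z + Pl + Th).toFinset, ‖z‖ :=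
        Finset.sum_nonneg (fun _ _ => norm_nonneg _)
      constructor
      · linarith [norm_nonneg (c i)]
      · linarith [norm_nonneg (a i)]
  obtain ⟨y, hyM⟩ := NormedField.exists_lt_norm K (max M 0)
  have hy0 : y ≠ 0 := by
    intro h0
    rw [h0, norm_zero] at hyM
    exact absurd (le_max_right M 0) (not_le.mpr hyM)
  have hMy : M < ‖y‖ := lt_of_le_of_lt (le_max_left _ _) hyM
  have hcl := tree_open h hI 0 y hy0
  have hcnt : ∀ F : Multiset K, F ≤ Z + Pl + Th → cnt F (ball 0 ‖y‖) = Multiset.card F := by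
    intro F hF
    rw [← cnt_univ F]
    apply cnt_congr
    intro z hz
    simp only [Set.mem_univ, iff_true]
    rw [mem_ball, dist_zero_right]
    exact lt_trans (hM.1 z (Multiset.mem_of_le hF hz)) hMy
  have hin : inO I a c 0 ‖y‖ = I := by
    ext i
    rw [mem_inO]
    constructor
    · exact fun h => h.1
    · intro hi
      refine ⟨hi, ?_, lt_trans (hM.2 i hi).2 hMy⟩
      rw [mem_ball, dist_zero_right]
      exact lt_trans (hM.2 i hi).1 hMy
  have hcZ := hcnt Z (by rw [add_assoc]; exact Multiset.le_add_right _ _)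
  have hcP := hcnt Pl (le_trans (Multiset.le_add_left _ _) (Multiset.le_add_right _ _))
  have hcT := hcnt Th (Multiset.le_add_left _ _)
  rw [ClaimO, hin, NN, hcZ, hcP, hcT] at hcl
  by_cases hneg : NegO Z Pl u 0 ‖y‖
  · have := hcl.1 hneg
    have h2 := le_max_right (0 : ℤ) ((Multiset.card Pl : ℤ) - Multiset.card Z)
    linarith
  · have := hcl.2 hneg
    have h2 := le_max_left (0 : ℤ) ((Multiset.card Pl : ℤ) - Multiset.card Z)
    have h3 : max ((Multiset.card Th : ℤ) - 1) 0 ≤ Multiset.card Th := by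
      apply max_le <;> omega
    linarith

end PoolBerk
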