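import Pool.Agent.H.MP_db48a2_an.Bg.Deriv
import Pool.Agent.H.MP_db48a2_an.Bg.TreeTop

/-!
# The static inequality
-/

namespace PoolBerk

open Polynomial Metric Finset

variable {K : Type*} [NontriviallyNormedField K] [IsUltrametricDist K]

/-- The failing directions. -/
def failSet (P Q : K[X]) (Th : Multiset K) (a c : K) : Set (kK K) :=
  {v | cnt (P - X * Q).roots (dirB a c v) = cnt Q.roots (dirB a c v) + 1 ∧
    cnt (badRoots P Q + Th) (dirB a c v) = 0}

/-- Failing directions are fixed directions. -/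
theorem fail_val [IsAlgClosed K] {P Q : K[X]} {Th : Multiset K} {a c s : K} {A B : (kK K)[X]}
    (hc : c ≠ 0) (h : IsRed P Q a c a c A B s) (hB : B ≠ 0) (hne : A - X * B ≠ 0) {v : kK K}
    (hv : v ∈ failSet P Q Th a c) : Val A B v v := by
  obtain ⟨h1, h2⟩ := cnt_dir_red hc h hB hne v
  have h3 := hv.1
  rw [h1, h2] at h3
  exact val_self_of_lt hB hne (by omega)

/-- Failing directions are zeros of the reduction of the denominator. -/
theorem fail_pole [IsAlgClosed K] {P Q : K[X]} {Th : Multiset K} {a c s : K} {A B : (kK K)[X]}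
    (hc : c ≠ 0) (h : IsRed P Q a c a c A B s) (hB : B ≠ 0) (hne : A - X * B ≠ 0) {v : kK K}
    (hv : v ∈ failSet P Q Th a c) : B.eval v = 0 := by
  classical
  by_contra hcon
  have h3 := hv.1
  have h4 : 0 < cnt (P - X * Q).roots (dirB a c v) := by omega
  obtain ⟨z, hz1, hz2⟩ := (cnt_pos_iff _ _).1 h4
  have h5 : z ∈ Bad P Q := bad_of_dir hc h hcon hz2
  have h6 : z ∈ badRoots P Q + Th := by
    rw [Multiset.mem_add]
    left
    unfold badRoots
    convert Multiset.mem_filter.2 ⟨hz1, h5⟩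
  exact (cnt_eq_zero_iff _ _).1 hv.2 z h6 hz2

theorem treeHyp_uu [IsAlgClosed K] {P Q : K[X]} (hPQ : IsCoprime P Q) (hQ : Q ≠ 0)
    (hne : P - X * Q ≠ 0) (Th : Multiset K) :
    TreeHyp (P - X * Q).roots Q.roots (badRoots P Q + Th) (uu P Q) where
  disj := by
    intro z hz hz2
    rw [mem_roots hne, IsRoot.def, eval_sub, eval_mul, eval_X] at hz
    rw [mem_roots hQ, IsRoot.def] at hz2
    rw [hz2, mul_zero, sub_zero] at hz
    obtain ⟨u, v, huv⟩ := hPQ
    have h1 := congrArg (eval z) huv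
    rw [eval_add, eval_mul, eval_mul, hz, hz2, mul_zero, mul_zero, add_zero, eval_one] at h1
    exact zero_ne_one h1
  pos := fun a r hr => uu_pos hQ hne a hr
  cong := fun a b r _ h => uu_congr P Q h
  edge := fun a r s hs hsr hZ hP => uu_edge hQ a hs hsr hZ hP
  base := fun y r hr h1 h2 hu => base_hyp hQ hne y r hr h1 h2 hu

theorem Static_count {P Q : K[X]} (Th : Multiset K) (a c : K)
    (hfin : (failSet P Q Th a c).Finite) (V : Finset (kK K)) :
    ∑ v ∈ V, (if NN (P - X * Q).roots Q.roots (dirB a c v) = 1 ∧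
      cnt (badRoots P Q + Th) (dirB a c v) = 0 then (1 : ℤ) else 0) ≤
      ((failSet P Q Th a c).ncard : ℤ) := by
  classical
  rw [Finset.sum_ite, Finset.sum_const_zero, add_zero, Finset.sum_const, nsmul_eq_mul, mul_one]
  norm_cast
  rw [← Set.ncard_coe_finset]
  refine Set.ncard_le_ncard ?_ hfin
  intro v hv
  rw [Finset.mem_coe, Finset.mem_filter] at hv
  refine ⟨?_, hv.2.2⟩
  have h1 := hv.2.1
  unfold NN at h1
  omega

theorem treeItems_uu [IsAlgClosed K] {P Q : K[X]} (Th : Multiset K) {ι : Type*} {I : Finset ι}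
    {a c s : ι → K} {A B : ι → (kK K)[X]} (hc : ∀ i ∈ I, c i ≠ 0)
    (sep : ∀ i ∈ I, ∀ j ∈ I, ‖a i - a j‖ ≤ ‖c i‖ → ‖c i‖ = ‖c j‖ → i = j)
    (hred : ∀ i ∈ I, IsRed P Q (a i) (c i) (a i) (c i) (A i) (B i) (s i))
    (hnon : ∀ i ∈ I, NonC (A i) (B i)) (hD : ∀ i ∈ I, 2 ≤ degPQ (A i) (B i)) :
    TreeItems (P - X * Q).roots Q.roots (badRoots P Q + Th) (uu P Q) I a c
      (fun i => (degPQ (A i) (B i) : ℤ) - 1 - (failSet P Q Th (a i) (c i)).ncard) where
  hc := hc
  sep := sep
  one := fun i hi => uu_one (hc i hi) (hred i hi) (hnon i hi).1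
    (ne_X_mul_of_two_le (hnon i hi).1 (hD i hi))
  loc := by
    intro i hi V hV1 hV2
    have hB : B i ≠ 0 := (hnon i hi).1
    have hne := ne_X_mul_of_two_le hB (hD i hi)
    have hfin : (failSet P Q Th (a i) (c i)).Finite :=
      (card_val_self_le hB hne).1.subset (fun v hv => fail_val (hc i hi) (hred i hi) hB hne hv)
    have h1 := Static_count Th (a i) (c i) hfin V
    have hdir : ∀ v, NN (P - X * Q).roots Q.roots (dirB (a i) (c i) v) =
        ((A i - X * B i).rootMultiplicity v : ℤ) - (B i).rootMultiplicity v := by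
      intro v
      obtain ⟨h1, h2⟩ := cnt_dir_red (hc i hi) (hred i hi) hB hne v
      unfold NN
      rw [h1, h2]
    have hclo : NN (P - X * Q).roots Q.roots (closedBall (a i) ‖c i‖) =
        ((A i - X * B i).natDegree : ℤ) - (B i).natDegree := by
      obtain ⟨h1, h2⟩ := cnt_closed_red (hc i hi) (hred i hi) hB hne
      unfold NN
      rw [h1, h2]
    have h2 := loc_poly (hnon i hi) hne V (by
      intro v hv
      apply hV1
      rw [(cnt_dir_red (hc i hi) (hred i hi) hB hne v).1]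
      exact hv)
    rw [Finset.sum_sub_distrib, hclo]
    have h3 : ∑ v ∈ V, max (NN (P - X * Q).roots Q.roots (dirB (a i) (c i) v)) 0 =
        ∑ v ∈ V, max (((A i - X * B i).rootMultiplicity v : ℤ) - (B i).rootMultiplicity v) 0 := by
      refine Finset.sum_congr rfl (fun v _ => ?_)
      rw [hdir]
    rw [h3]
    linarith

/-- **Static inequality.** -/
theorem static_ineq [IsAlgClosed K] {P Q : K[X]} (hPQ : IsCoprime P Q) (hQ : Q ≠ 0)
    (hne : P - X * Q ≠ 0) {δ : ℕ} (hP : P.natDegree ≤ δ) (hQd : Q.natDegree ≤ δ)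
    (Th : Multiset K) {ι : Type*} {I : Finset ι}
    {a c s : ι → K} {A B : ι → (kK K)[X]} (hc : ∀ i ∈ I, c i ≠ 0)
    (sep : ∀ i ∈ I, ∀ j ∈ I, ‖a i - a j‖ ≤ ‖c i‖ → ‖c i‖ = ‖c j‖ → i = j)
    (hred : ∀ i ∈ I, IsRed P Q (a i) (c i) (a i) (c i) (A i) (B i) (s i))
    (hnon : ∀ i ∈ I, NonC (A i) (B i)) (hD : ∀ i ∈ I, 2 ≤ degPQ (A i) (B i)) :
    ∑ i ∈ I, ((degPQ (A i) (B i) : ℤ) - 1) + (RepPts P Q).ncard ≤
      (δ : ℤ) + 1 + Multiset.card Th + ∑ i ∈ I, ((failSet P Q Th (a i) (c i)).ncard : ℤ) := by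
  have h1 := tree_top (treeHyp_uu hPQ hQ hne Th) (treeItems_uu Th hc sep hred hnon hD)
  obtain ⟨-, h2⟩ := card_badRoots_add hne
  have h3 : (P - X * Q).natDegree ≤ δ + 1 := by
    refine (natDegree_sub_le _ _).trans (max_le (by omega) ?_)
    refine natDegree_mul_le.trans ?_
    have := natDegree_X_le (R := K)
    omega
  have h4 : Multiset.card (P - X * Q).roots = (P - X * Q).natDegree :=
    IsAlgClosed.card_roots_eq_natDegree
  have h5 : Multiset.card Q.roots = Q.natDegree :=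
    IsAlgClosed.card_roots_eq_natDegree
  rw [h4, h5, Multiset.card_add, Finset.sum_sub_distrib] at h1
  push_cast at h1
  have h6 : ((P - X * Q).natDegree : ℤ) + max 0 ((Q.natDegree : ℤ) - (P - X * Q).natDegree) ≤
      (δ : ℤ) + 1 := by
    rcases le_total (0 : ℤ) ((Q.natDegree : ℤ) - (P - X * Q).natDegree) with h | h
    · rw [max_eq_right h]
      omega
    · rw [max_eq_left h]
      omega
  have h7 : (Multiset.card (badRoots P Q) : ℤ) + (RepPts P Q).ncard ≤
      ((P - X * Q).natDegree : ℤ) := by exact_mod_cast h2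
  linarith

end PoolBerk
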