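import Pool.Agent.H.MP_db48a2_an.Bg.Iter
import Pool.Agent.H.MP_db48a2_an.Bg.CycCount
import Pool.Agent.H.MP_db48a2_an.Bg.Static

/-!
# The main inequality for systems of closed balls
-/

namespace PoolBerk

open Polynomial Metric Finset

variable {K : Type*} [NontriviallyNormedField K] [IsUltrametricDist K]

/-- A finite system of closed balls `closedBall (a i) ‖c i‖` which is stable under the rational map
`P / Q` (`ρ` is the map on the balls, `(A i, B i)` is the reduction from the `i`-th ball to the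
`ρ i`-th ball). -/
structure Sys (P Q : K[X]) {ι : Type*} (I : Finset ι) (ρ : ι → ι) (a c s : ι → K)
    (A B : ι → (kK K)[X]) : Prop where
  maps : ∀ i ∈ I, ρ i ∈ I
  hc : ∀ i ∈ I, c i ≠ 0
  sep : ∀ i ∈ I, ∀ j ∈ I, ‖a i - a j‖ ≤ ‖c i‖ → ‖c i‖ = ‖c j‖ → i = j
  red : ∀ i ∈ I, IsRed P Q (a i) (c i) (a (ρ i)) (c (ρ i)) (A i) (B i) (s i)
  non : ∀ i ∈ I, NonC (A i) (B i)

variable {P Q : K[X]} {ι : Type*} {I : Finset ι} {ρ : ι → ι} {a c s : ι → K}
  {A B : ι → (kK K)[X]}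

theorem Main_natDegree_redP (F : K[X]) : (redP F).natDegree ≤ F.natDegree := by
  rw [natDegree_le_iff_coeff_eq_zero]
  intro n hn
  rw [coeff_redP, coeff_eq_zero_of_natDegree_lt hn, red_zero]

omit [IsUltrametricDist K] in
theorem Main_natDegree_aff (a c : K) (F : K[X]) : (aff a c F).natDegree ≤ F.natDegree := by
  unfold aff
  refine natDegree_comp_le.trans ?_
  have h1 : (C a + C c * X : K[X]).natDegree ≤ 1 := by
    rw [add_comm]
    exact natDegree_linear_le
  calc F.natDegree * (C a + C c * X : K[X]).natDegree ≤ F.natDegree * 1 :=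
        Nat.mul_le_mul_left _ h1
    _ = F.natDegree := mul_one _

theorem Main_natDegree_red (a c s : K) (F : K[X]) {d : ℕ} (hF : F.natDegree ≤ d) :
    (redP (C s * aff a c F)).natDegree ≤ d :=
  (Main_natDegree_redP _).trans ((natDegree_C_mul_le _ _).trans
    ((Main_natDegree_aff a c F).trans hF))

theorem Sys.rsys (h : Sys P Q I ρ a c s A B) {d : ℕ} (hP : P.natDegree ≤ d)
    (hQ : Q.natDegree ≤ d) : RSys d I ρ A B := by
  refine ⟨h.maps, ?_, ?_, h.non⟩
  · intro i hi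
    rw [← (h.red i hi).r1]
    apply Main_natDegree_red
    exact (natDegree_sub_le _ _).trans (max_le hP ((natDegree_C_mul_le _ _).trans hQ))
  · intro i hi
    rw [← (h.red i hi).r2]
    exact Main_natDegree_red _ _ _ _ hQ

/-- Reductions of the iterates. -/
theorem Sys.iter [IsAlgClosed K] (h : Sys P Q I ρ a c s A B) (hPQ : IsCoprime P Q) {d : ℕ}
    (hd : max P.natDegree Q.natDegree = d) (j : ℕ) {i : ι} (hi : i ∈ I) :
    ∃ t, IsRed (itP d P Q j) (itQ d P Q j) (a i) (c i) (a (ρ^[j] i)) (c (ρ^[j] i))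
      (rA d ρ A B j i) (rB d ρ A B j i) t := by
  induction j generalizing i with
  | zero => exact ⟨_, IsRed.id (h.hc i hi)⟩
  | succ j ih =>
    obtain ⟨t, ht⟩ := ih (h.maps i hi)
    exact ⟨_, IsRed.comp (h.hc _ (h.maps i hi)) (natDegree_itP_le hPQ hd j)
      (natDegree_itQ_le hPQ hd j) (h.red i hi) ht⟩

theorem Sys.iter_mem (h : Sys P Q I ρ a c s A B) (j : ℕ) {i : ι} (hi : i ∈ I) :
    ρ^[j] i ∈ I := by
  induction j generalizing i with
  | zero => exact hi
  | succ j ih =>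
    rw [Function.iterate_succ_apply]
    exact ih (h.maps i hi)

/-- The poles of the first `J` iterates. -/
noncomputable def poles (d : ℕ) (P Q : K[X]) (J : ℕ) : Multiset K :=
  ∑ j ∈ Icc 1 J, (itQ d P Q j).roots

theorem card_poles_le [IsAlgClosed K] (hPQ : IsCoprime P Q) {d : ℕ}
    (hd : max P.natDegree Q.natDegree = d) (J : ℕ) :
    Multiset.card (poles d P Q J) ≤ ∑ j ∈ Icc 1 J, d ^ j := by
  unfold poles
  rw [Multiset.card_sum]
  refine Finset.sum_le_sum fun j _ => ?_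
  exact (card_roots' _).trans (natDegree_itQ_le hPQ hd j)

/-- Failing directions have no early pole. -/
theorem Sys.fail_late [IsAlgClosed K] (h : Sys P Q I ρ a c s A B) (hPQ : IsCoprime P Q) {d : ℕ}
    (hd : max P.natDegree Q.natDegree = d) {n J : ℕ} {i : ι} (hi : i ∈ I) {v : kK K}
    (hv : v ∈ failSet (itP d P Q n) (itQ d P Q n) (poles d P Q J) (a i) (c i)) {j : ℕ} (hj : 1 ≤ j)
    (hjJ : j ≤ J) : (rB d ρ A B j i).eval v ≠ 0 := by
  have h1 := hv.2
  rw [cnt_add] at h1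
  have h2 : cnt (poles d P Q J) (dirB (a i) (c i) v) = 0 := by omega
  have h3 : (itQ d P Q j).roots ≤ poles d P Q J := by
    unfold poles
    exact Finset.single_le_sum_of_canonicallyOrdered (f := fun j => (itQ d P Q j).roots)
      (Finset.mem_Icc.mpr ⟨hj, hjJ⟩)
  have h4 := cnt_le_of_le h3 (dirB (a i) (c i) v)
  obtain ⟨t, ht⟩ := h.iter hPQ hd j hi
  have hP : P.natDegree ≤ d := hd ▸ le_max_left _ _
  have hQ : Q.natDegree ≤ d := hd ▸ le_max_right _ _
  have hB : rB d ρ A B j i ≠ 0 := ((h.rsys hP hQ).nonC j hi).1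
  have h5 := cnt_pole_red (h.hc i hi) (h.hc _ (h.iter_mem j hi)) ht hB v
  have h6 : (rB d ρ A B j i).rootMultiplicity v = 0 := by omega
  intro h7
  exact hB (rootMultiplicity_eq_zero_iff.mp h6 h7)

/-- `P_n - X Q_n` does not vanish. -/
theorem itP_sub_ne_zero [IsAlgClosed K] (hPQ : IsCoprime P Q) {d : ℕ}
    (hd : max P.natDegree Q.natDegree = d) (h2 : 2 ≤ d) {n : ℕ} (hn : 1 ≤ n) :
    itP d P Q n - X * itQ d P Q n ≠ 0 := by
  intro h0
  rw [sub_eq_zero] at h0
  obtain ⟨h3, h4⟩ := itPQ_spec hPQ hd n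
  have h5 : IsUnit (itQ d P Q n) :=
    h3.isUnit_of_dvd' (h0 ▸ dvd_mul_left _ _) dvd_rfl
  have h6 : (itQ d P Q n).natDegree = 0 := natDegree_eq_zero_of_isUnit h5
  have h7 : (itP d P Q n).natDegree ≤ 1 := by
    rw [h0]
    refine natDegree_mul_le.trans ?_
    rw [h6, natDegree_X]
  have h8 : d ≤ d ^ n := Nat.le_self_pow (by omega) d
  rw [← h4, h6] at h8
  have h9 : max (itP d P Q n).natDegree 0 ≤ 1 := max_le h7 (by omega)
  omega

/-- **Main inequality** for systems of closed balls. -/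
theorem Sys.main [IsAlgClosed K] (h : Sys P Q I ρ a c s A B) (hPQ : IsCoprime P Q) {d : ℕ}
    (hd : max P.natDegree Q.natDegree = d) (h2 : 2 ≤ d) {n k : ℕ} (hn : 1 ≤ n) (hk : k ≤ n)
    (hper : ∀ i ∈ I, ρ^[n] i = i)
    (hD : ∀ i ∈ I, 2 ≤ degPQ (rA d ρ A B n i) (rB d ρ A B n i)) :
    n * (∑ i ∈ I, (degPQ (rA d ρ A B n i) (rB d ρ A B n i) - 1) +
        (RepPts (itP d P Q n) (itQ d P Q n)).ncard) ≤
      n * (d ^ n + 1 + ∑ j ∈ Icc 1 (n - k), d ^ j) +
      3 * k * ∑ i ∈ I, (degPQ (rA d ρ A B n i) (rB d ρ A B n i) - 1) := by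
  have hP : P.natDegree ≤ d := hd ▸ le_max_left _ _
  have hQ : Q.natDegree ≤ d := hd ▸ le_max_right _ _
  have hR := h.rsys hP hQ
  have hit : ∀ i ∈ I, ∃ t, IsRed (itP d P Q n) (itQ d P Q n) (a i) (c i) (a i) (c i)
      (rA d ρ A B n i) (rB d ρ A B n i) t := by
    intro i hi
    obtain ⟨t, ht⟩ := h.iter hPQ hd n hi
    rw [hper i hi] at ht
    exact ⟨t, ht⟩
  choose! t ht using hit
  have hnon : ∀ i ∈ I, NonC (rA d ρ A B n i) (rB d ρ A B n i) := fun i hi => hR.nonC n hi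
  have hne := itP_sub_ne_zero hPQ hd h2 hn
  have hst := static_ineq (itPQ_spec hPQ hd n).1 (itQ_ne_zero hPQ hd (by omega) n) hne
    (natDegree_itP_le hPQ hd n) (natDegree_itQ_le hPQ hd n) (poles d P Q (n - k)) h.hc h.sep
    ht hnon hD
  have hfin : ∀ i ∈ I,
      (failSet (itP d P Q n) (itQ d P Q n) (poles d P Q (n - k)) (a i) (c i)).Finite := by
    intro i hi
    have h3 := ne_X_mul_of_two_le (hnon i hi).1 (hD i hi)
    exact (card_val_self_le (hnon i hi).1 h3).1.subset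
      (fun v hv => fail_val (h.hc i hi) (ht i hi) (hnon i hi).1 h3 hv)
  classical
  set S : ι → Finset (kK K) := fun i => if hi : i ∈ I then (hfin i hi).toFinset else ∅ with hS
  have hScard : ∀ i ∈ I, (S i).card =
      (failSet (itP d P Q n) (itQ d P Q n) (poles d P Q (n - k)) (a i) (c i)).ncard := by
    intro i hi
    rw [hS]
    simp only [hi, dif_pos]
    rw [Set.ncard_eq_toFinset_card _ (hfin i hi)]
  have hcl := hR.count_late hn hk hper hD S (by
    intro i hi v hv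
    have hv' : v ∈ failSet (itP d P Q n) (itQ d P Q n) (poles d P Q (n - k)) (a i) (c i) := by
      rw [hS] at hv
      simp only [hi, dif_pos] at hv
      exact (Set.Finite.mem_toFinset _).mp hv
    have h3 := ne_X_mul_of_two_le (hnon i hi).1 (hD i hi)
    refine ⟨fail_val (h.hc i hi) (ht i hi) (hnon i hi).1 h3 hv', ?_,
      fail_pole (h.hc i hi) (ht i hi) (hnon i hi).1 h3 hv'⟩
    intro j hj1 hj2
    exact h.fail_late hPQ hd hi hv' hj1 hj2)
  have hcast : (∑ i ∈ I, ((degPQ (rA d ρ A B n i) (rB d ρ A B n i) : ℤ) - 1)) =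
      ((∑ i ∈ I, (degPQ (rA d ρ A B n i) (rB d ρ A B n i) - 1) : ℕ) : ℤ) := by
    push_cast
    refine Finset.sum_congr rfl fun i hi => ?_
    have := hD i hi
    omega
  have hcast2 : (∑ i ∈ I, ((failSet (itP d P Q n) (itQ d P Q n) (poles d P Q (n - k))
      (a i) (c i)).ncard : ℤ)) = ((∑ i ∈ I, (S i).card : ℕ) : ℤ) := by
    push_cast
    refine Finset.sum_congr rfl fun i hi => ?_
    rw [hScard i hi]
  rw [hcast, hcast2] at hst
  have hpol := card_poles_le (J := n - k) hPQ hd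
  have hst' : ∑ i ∈ I, (degPQ (rA d ρ A B n i) (rB d ρ A B n i) - 1) +
      (RepPts (itP d P Q n) (itQ d P Q n)).ncard ≤
      d ^ n + 1 + ∑ j ∈ Icc 1 (n - k), d ^ j + ∑ i ∈ I, (S i).card := by
    have h4 : ((∑ i ∈ I, (degPQ (rA d ρ A B n i) (rB d ρ A B n i) - 1) +
        (RepPts (itP d P Q n) (itQ d P Q n)).ncard : ℕ) : ℤ) ≤
        ((d ^ n + 1 + Multiset.card (poles d P Q (n - k)) + ∑ i ∈ I, (S i).card : ℕ) : ℤ) := by
      push_cast at hst ⊢
      exact hst
    have h5 := Int.ofNat_le.mp h4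
    omega
  calc n * (∑ i ∈ I, (degPQ (rA d ρ A B n i) (rB d ρ A B n i) - 1) +
        (RepPts (itP d P Q n) (itQ d P Q n)).ncard) ≤
      n * (d ^ n + 1 + ∑ j ∈ Icc 1 (n - k), d ^ j + ∑ i ∈ I, (S i).card) :=
        Nat.mul_le_mul_left _ hst'
    _ = n * (d ^ n + 1 + ∑ j ∈ Icc 1 (n - k), d ^ j) + n * ∑ i ∈ I, (S i).card := by ring
    _ ≤ _ := Nat.add_le_add_left hcl _

end PoolBerk
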