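import Pool.Agent.H.MP_db48a2_an.Bg.Hev
import Pool.Agent.H.MP_db48a2_an.Bk.Aff

/-!
# Reductions of rational maps between two closed balls
-/

namespace PoolBerk

open Polynomial Metric

variable {K : Type*} [NontriviallyNormedField K] [IsUltrametricDist K]

/-- `(A, B)` is the reduction (with the normalising factor `s`) of the rational map `P / Q` in the
coordinate `z = a + c X` at the source and `z = b + e X` at the target. -/
structure IsRed (P Q : K[X]) (a c b e : K) (A B : (kK K)[X]) (s : K) : Prop where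
  hs : s ≠ 0
  i1 : Intg (C s * aff a c (P - C b * Q))
  i2 : Intg (C (s * e) * aff a c Q)
  r1 : redP (C s * aff a c (P - C b * Q)) = A
  r2 : redP (C (s * e) * aff a c Q) = B

theorem Intg_zero : Intg (0 : K[X]) := by
  intro n
  rw [coeff_zero, norm_zero]
  exact zero_le_one

theorem Intg_one : Intg (1 : K[X]) := by
  have h : Intg (C (1 : K)) := Intg.const (by rw [norm_one])
  rwa [C_1] at h

theorem redP_zero' : redP (0 : K[X]) = 0 := by
  have h := redP_C (0 : K)
  rwa [C_0, red_zero, C_0] at h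

theorem redP_one' : redP (1 : K[X]) = 1 := by
  have h := redP_C (1 : K)
  rwa [C_1, red_one, C_1] at h

theorem Intg_pow {F : K[X]} (hF : Intg F) (n : ℕ) :
    Intg (F ^ n) ∧ redP (F ^ n) = redP F ^ n := by
  induction n with
  | zero => rw [pow_zero, pow_zero]; exact ⟨Intg_one, redP_one'⟩
  | succ n ih =>
    rw [pow_succ, pow_succ]
    exact ⟨ih.1.mul hF, by rw [redP_mul ih.1 hF, ih.2]⟩

theorem Intg_sum {ι : Type*} (s : Finset ι) (F : ι → K[X]) (hF : ∀ i ∈ s, Intg (F i)) :
    Intg (∑ i ∈ s, F i) ∧ redP (∑ i ∈ s, F i) = ∑ i ∈ s, redP (F i) := by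
  classical
  induction s using Finset.induction_on with
  | empty => rw [Finset.sum_empty, Finset.sum_empty]; exact ⟨Intg_zero, redP_zero'⟩
  | insert j s hj ih =>
    have h1 := hF j (Finset.mem_insert_self j s)
    have h2 := ih fun i hi => hF i (Finset.mem_insert_of_mem hi)
    rw [Finset.sum_insert hj, Finset.sum_insert hj]
    exact ⟨h1.add h2.1, by rw [redP_add h1 h2.1, h2.2]⟩

/-- Homogeneous evaluation and reduction. -/
theorem Intg.hev {m : ℕ} {p x y : K[X]} (hp : Intg p) (hx : Intg x) (hy : Intg y) :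
    Intg (hev m p x y) ∧ redP (PoolBerk.hev m p x y) = PoolBerk.hev m (redP p) (redP x) (redP y) := by
  have h1 : ∀ i, Intg (C (p.coeff i) * x ^ i * y ^ (m - i)) ∧
      redP (C (p.coeff i) * x ^ i * y ^ (m - i)) =
        C ((redP p).coeff i) * redP x ^ i * redP y ^ (m - i) := by
    intro i
    have a1 : Intg (C (p.coeff i)) := Intg.const (hp i)
    have a2 := Intg_pow hx i
    have a3 := Intg_pow hy (m - i)
    refine ⟨(a1.mul a2.1).mul a3.1, ?_⟩
    rw [redP_mul (a1.mul a2.1) a3.1, redP_mul a1 a2.1, a2.2, a3.2, redP_C, coeff_redP]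
  have h2 := Intg_sum (Finset.range (m + 1)) (fun i => C (p.coeff i) * x ^ i * y ^ (m - i))
    fun i _ => (h1 i).1
  refine ⟨h2.1, ?_⟩
  rw [PoolBerk.hev, PoolBerk.hev, h2.2]
  exact Finset.sum_congr rfl fun i _ => (h1 i).2

/-- The identity. -/
theorem IsRed.id {a c : K} (hc : c ≠ 0) : IsRed (X : K[X]) 1 a c a c X 1 c⁻¹ := by
  have e1 : C c⁻¹ * aff a c ((X : K[X]) - C a * 1) = X := by
    rw [mul_one, aff_sub, aff_X, aff_C, add_sub_cancel_left, ← mul_assoc, ← C_mul,
      inv_mul_cancel₀ hc, C_1, one_mul]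
  have e2 : C (c⁻¹ * c) * aff a c (1 : K[X]) = 1 := by
    rw [inv_mul_cancel₀ hc, C_1, one_mul, aff, one_comp]
  refine ⟨inv_ne_zero hc, ?_, ?_, ?_, ?_⟩
  · rw [e1]; exact Intg.var
  · rw [e2]; exact Intg_one
  · rw [e1]; exact redP_X
  · rw [e2]; exact redP_one'

theorem aff_hev {m : ℕ} {F P Q : K[X]} {a c b e s s' : K} (hF : F.natDegree ≤ m) :
    C (s' * s ^ m * e ^ m) * aff a c (hev m F P Q) =
      hev m (C s' * aff b e F) (C s * aff a c (P - C b * Q)) (C (s * e) * aff a c Q) := by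
  have h1 : aff a c (hev m F P Q) = hev m F (aff a c P) (aff a c Q) := hev_comp _ _ _ _ _
  have h2 : C (s * e) * aff a c P =
      C e * (C s * aff a c (P - C b * Q)) + C b * (C (s * e) * aff a c Q) := by
    rw [aff_sub, aff_mul, aff_C, C_mul]
    ring
  have h3 : C (s * e) ^ m * hev m F (aff a c P) (aff a c Q) =
      hev m (aff b e F) (C s * aff a c (P - C b * Q)) (C (s * e) * aff a c Q) := by
    rw [← hev_smul, h2]
    exact (hev_aff hF b e _ _).symm
  rw [h1, hev_C_mul, ← h3, mul_assoc s', ← mul_pow, C_mul, C_pow, mul_assoc]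

/-- **Composition of reductions.** -/
theorem IsRed.comp {P Q P' Q' : K[X]} {a c b e b' e' s s' : K} {A B A' B' : (kK K)[X]} {m : ℕ}
    (he : e ≠ 0) (hP' : P'.natDegree ≤ m) (hQ' : Q'.natDegree ≤ m)
    (h : IsRed P Q a c b e A B s) (h' : IsRed P' Q' b e b' e' A' B' s') :
    IsRed (hev m P' P Q) (hev m Q' P Q) a c b' e' (hev m A' A B) (hev m B' A B)
      (s' * s ^ m * e ^ m) := by
  have e1 : C (s' * s ^ m * e ^ m) * aff a c (hev m P' P Q - C b' * hev m Q' P Q) =
      hev m (C s' * aff b e (P' - C b' * Q')) (C s * aff a c (P - C b * Q))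
        (C (s * e) * aff a c Q) := by
    rw [← hev_C_mul, ← hev_sub]
    refine aff_hev ?_
    exact (natDegree_sub_le _ _).trans (max_le hP' ((natDegree_C_mul_le _ _).trans hQ'))
  have e2 : C (s' * s ^ m * e ^ m * e') * aff a c (hev m Q' P Q) =
      hev m (C (s' * e') * aff b e Q') (C s * aff a c (P - C b * Q))
        (C (s * e) * aff a c Q) := by
    rw [← aff_hev hQ']
    congr 2
    ring
  have h1 := h'.i1.hev (m := m) h.i1 h.i2
  have h2 := h'.i2.hev (m := m) h.i1 h.i2
  refine ⟨?_, ?_, ?_, ?_, ?_⟩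
  · exact mul_ne_zero (mul_ne_zero h'.hs (pow_ne_zero _ h.hs)) (pow_ne_zero _ he)
  · rw [e1]; exact h1.1
  · rw [e2]; exact h2.1
  · rw [e1, h1.2, h'.r1, h.r1, h.r2]
  · rw [e2, h2.2, h'.r2, h.r1, h.r2]

/-- Scaling of `P`, `Q`. -/
theorem IsRed.scale {P Q : K[X]} {a c b e s l : K} {A B : (kK K)[X]} (hl : l ≠ 0)
    (h : IsRed P Q a c b e A B s) : IsRed (C l * P) (C l * Q) a c b e A B (s * l⁻¹) := by
  have e1 : C (s * l⁻¹) * aff a c (C l * P - C b * (C l * Q)) = C s * aff a c (P - C b * Q) := by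
    have h1 : C l * P - C b * (C l * Q) = C l * (P - C b * Q) := by ring
    rw [h1, aff_mul, aff_C, ← mul_assoc, ← C_mul, inv_mul_cancel_right₀ hl]
  have e2 : C (s * l⁻¹ * e) * aff a c (C l * Q) = C (s * e) * aff a c Q := by
    have h1 : s * l⁻¹ * e * l = s * e := by
      field_simp
    rw [aff_mul, aff_C, ← mul_assoc, ← C_mul, h1]
  refine ⟨mul_ne_zero h.hs (inv_ne_zero hl), ?_, ?_, ?_, ?_⟩
  · rw [e1]; exact h.i1
  · rw [e2]; exact h.i2
  · rw [e1]; exact h.r1
  · rw [e2]; exact h.r2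

theorem norm_pow_le_one {x : K} (hx : ‖x‖ ≤ 1) (n : ℕ) : ‖x ^ n‖ ≤ 1 := by
  rw [norm_pow]
  exact pow_le_one₀ (norm_nonneg x) hx

theorem red_pow' {x : K} (hx : ‖x‖ ≤ 1) (n : ℕ) : red (x ^ n) = red x ^ n := by
  induction n with
  | zero => rw [pow_zero, pow_zero, red_one]
  | succ n ih => rw [pow_succ, pow_succ, red_mul (norm_pow_le_one hx n) hx, ih]

theorem red_sum' {ι : Type*} (s : Finset ι) (f : ι → K) (hf : ∀ i ∈ s, ‖f i‖ ≤ 1) :
    ‖∑ i ∈ s, f i‖ ≤ 1 ∧ red (∑ i ∈ s, f i) = ∑ i ∈ s, red (f i) := by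
  classical
  induction s using Finset.induction_on with
  | empty =>
    rw [Finset.sum_empty, Finset.sum_empty, norm_zero]
    exact ⟨zero_le_one, red_zero⟩
  | insert j s hj ih =>
    have h1 := hf j (Finset.mem_insert_self j s)
    have h2 := ih fun i hi => hf i (Finset.mem_insert_of_mem hi)
    rw [Finset.sum_insert hj, Finset.sum_insert hj]
    exact ⟨(IsUltrametricDist.norm_add_le_max _ _).trans (max_le h1 h2.1),
      by rw [red_add h1 h2.1, h2.2]⟩

/-- Reduction of the value of an integral polynomial. -/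
theorem red_eval {F : K[X]} (hF : Intg F) {x : K} (hx : ‖x‖ ≤ 1) :
    ‖F.eval x‖ ≤ 1 ∧ red (F.eval x) = (redP F).eval (red x) := by
  have h0 : ∀ i, ‖F.coeff i * x ^ i‖ ≤ 1 := by
    intro i
    rw [norm_mul]
    exact mul_le_one₀ (hF i) (norm_nonneg _) (norm_pow_le_one hx i)
  have h1 := red_sum' (Finset.range (F.natDegree + 1)) (fun i => F.coeff i * x ^ i)
    fun i _ => h0 i
  have hd : (redP F).natDegree < F.natDegree + 1 := by
    refine Nat.lt_succ_of_le (natDegree_le_iff_coeff_eq_zero.2 fun n hn => ?_)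
    rw [coeff_redP, coeff_eq_zero_of_natDegree_lt hn, red_zero]
  rw [eval_eq_sum_range, eval_eq_sum_range' hd]
  refine ⟨h1.1, ?_⟩
  rw [h1.2]
  refine Finset.sum_congr rfl fun i _ => ?_
  rw [red_mul (hF i) (norm_pow_le_one hx i), red_pow' hx, coeff_redP]

/-- The residue field of an algebraically closed field is algebraically closed.
(A monic polynomial over the residue field lifts to a monic integral polynomial, `K` contains a root,
which has norm at most one.) -/
instance isAlgClosed_kK [IsAlgClosed K] : IsAlgClosed (kK K) := by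
  refine IsAlgClosed.of_exists_root _ fun p hp hirr => ?_
  choose l hl1 hl2 using (red_surj : ∀ t : kK K, ∃ x : K, ‖x‖ ≤ 1 ∧ red x = t)
  obtain ⟨n, hn⟩ : ∃ n, n = p.natDegree := ⟨_, rfl⟩
  obtain ⟨G, hG⟩ : ∃ G : K[X], G = ∑ i ∈ Finset.range n, C (l (p.coeff i)) * X ^ i := ⟨_, rfl⟩
  have hn1 : 0 < n := by
    rw [hn]
    exact hirr.natDegree_pos
  have hGc : ∀ j, G.coeff j = if j < n then l (p.coeff j) else 0 := by
    intro j
    rw [hG, finsetSum_coeff]
    by_cases hj : j < n
    · rw [if_pos hj, Finset.sum_eq_single j]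
      · rw [coeff_C_mul, coeff_X_pow, if_pos rfl, mul_one]
      · intro i _ hij
        rw [coeff_C_mul, coeff_X_pow, if_neg (Ne.symm hij), mul_zero]
      · intro h
        exact absurd (Finset.mem_range.2 hj) h
    · rw [if_neg hj]
      refine Finset.sum_eq_zero fun i hi => ?_
      have : j ≠ i := by
        have := Finset.mem_range.1 hi
        omega
      rw [coeff_C_mul, coeff_X_pow, if_neg this, mul_zero]
  have hGi : Intg G := by
    intro j
    rw [hGc]
    split_ifs
    · exact hl1 _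
    · rw [norm_zero]; exact zero_le_one
  have hGd : G.degree < (n : WithBot ℕ) := by
    rw [degree_lt_iff_coeff_zero]
    intro j hj
    rw [hGc, if_neg (not_lt.2 hj)]
  have hFd : (X ^ n + G).degree ≠ 0 := by
    rw [degree_add_eq_left_of_degree_lt (by rw [degree_X_pow]; exact hGd), degree_X_pow]
    exact_mod_cast hn1.ne'
  obtain ⟨x, hx⟩ := IsAlgClosed.exists_root (X ^ n + G) hFd
  rw [IsRoot, eval_add, eval_pow, eval_X] at hx
  have hx1 : ‖x‖ ≤ 1 := by
    by_contra hc
    push Not at hc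
    have h1 : ‖G.eval x‖ < ‖x‖ ^ n := by
      have hxn : (0 : ℝ) < ‖x‖ ^ n := pow_pos (lt_trans one_pos hc) n
      have h2 : ‖G.eval x‖ ≤ ‖x‖ ^ (n - 1) := by
        have hdn : G.natDegree < n := by
          rcases eq_or_ne G 0 with h0 | h0
          · rw [h0, natDegree_zero]; exact hn1
          · exact (natDegree_lt_iff_degree_lt h0).2 hGd
        rw [eval_eq_sum_range' hdn]
        refine IsUltrametricDist.norm_sum_le_of_forall_le_of_nonneg (pow_nonneg (norm_nonneg _) _)
          fun i hi => ?_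
        rw [norm_mul, norm_pow]
        have h3 : ‖x‖ ^ i ≤ ‖x‖ ^ (n - 1) :=
          pow_le_pow_right₀ hc.le (by have := Finset.mem_range.1 hi; omega)
        calc ‖G.coeff i‖ * ‖x‖ ^ i ≤ 1 * ‖x‖ ^ i :=
              mul_le_mul_of_nonneg_right (hGi i) (pow_nonneg (norm_nonneg _) _)
          _ = ‖x‖ ^ i := one_mul _
          _ ≤ _ := h3
      exact lt_of_le_of_lt h2 (pow_lt_pow_right₀ hc (Nat.sub_lt hn1 one_pos))
    have h2 : x ^ n = -G.eval x := eq_neg_of_add_eq_zero_left hx
    rw [← norm_neg, ← h2, norm_pow] at h1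
    exact lt_irrefl _ h1
  refine ⟨red x, ?_⟩
  have h3 : redP (X ^ n + G) = p := by
    ext j
    rw [coeff_redP, coeff_add, coeff_X_pow, hGc]
    rcases lt_trichotomy j n with h | h | h
    · rw [if_neg h.ne, if_pos h, zero_add, hl2]
    · rw [if_pos h, if_neg h.ge.not_gt, add_zero, red_one, h, hn]
      exact hp.symm
    · rw [if_neg h.ne', if_neg h.le.not_gt, add_zero, red_zero,
        coeff_eq_zero_of_natDegree_lt (hn ▸ h)]
  have h4 : Intg (X ^ n + G) := (Intg_pow Intg.var n).1.add hGi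
  have h5 := (red_eval h4 hx1).2
  rw [h3, eval_add, eval_pow, eval_X, hx, red_zero] at h5
  exact h5.symm

end PoolBerk
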