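import Pool.Agent.H.MP_db48a2_an.Bg.TreeDefs

/-!
# The tree lemma: edge step and merge step
-/

namespace PoolBerk

open Polynomial Metric Finset

variable {K : Type*} [NontriviallyNormedField K] [IsUltrametricDist K]
variable {Z Pl Th : Multiset K} {u : K → ℝ → ℝ} {ι : Type*} {I : Finset ι} {a c : ι → K}
  {wt : ι → ℤ}

/-- **Edge step.** All marks and items of the open ball `ball x r` lie in `closedBall x s`, `s < r`.
(`u x r = u x s * (r / s) ^ (N - 1)`.) -/
theorem edge_step (h : TreeHyp Z Pl Th u) {x : K} {r s : ℝ} (hs : 0 < s) (hsr : s < r)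
    (hZ : cnt Z (closedBall x s) = cnt Z (ball x r))
    (hPl : cnt Pl (closedBall x s) = cnt Pl (ball x r))
    (hTh : cnt Th (closedBall x s) = cnt Th (ball x r))
    (hI : inC I a c x s = inO I a c x r)
    (hcl : ClaimC Z Pl Th u I a c wt x s) : ClaimO Z Pl Th u I a c wt x r := by
  have hN : NN Z Pl (closedBall x s) = NN Z Pl (ball x r) := by rw [NN, NN, hZ, hPl]
  have he := h.edge x r s hs hsr hZ hPl
  have hus : 0 < u x s := h.pos x s hs
  have ht : 1 < r / s := by rwa [lt_div_iff₀ hs, one_mul]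
  have h2 : 2 ≤ NN Z Pl (ball x r) → u x s < u x r := by
    intro h2
    rw [he]
    have : 1 < (r / s) ^ (NN Z Pl (ball x r) - 1) := one_lt_zpow₀ ht (by omega)
    nlinarith
  have h1 : NN Z Pl (ball x r) = 1 → u x r = u x s := by
    intro h1
    rw [he, h1]
    simp
  have h0 : NN Z Pl (ball x r) ≤ 0 → u x r < u x s := by
    intro h0
    rw [he]
    have : (r / s) ^ (NN Z Pl (ball x r) - 1) < 1 := zpow_lt_one_of_neg₀ ht (by omega)
    nlinarith
  obtain ⟨c1, c2⟩ := hcl
  rw [hI] at c1 c2
  rw [hTh] at c1 c2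
  rw [hN] at c1
  constructor
  · intro hneg
    by_cases hC : NegC Z Pl u x s
    · exact c1 hC
    · have c3 := c2 hC
      have hN0 : NN Z Pl (ball x r) ≤ 0 := by
        by_contra hcon
        apply hC
        left
        rcases hneg with hn | ⟨hn, hn2⟩
        · rcases lt_or_eq_of_le (show (1 : ℤ) ≤ NN Z Pl (ball x r) by omega) with h3 | h3
          · exact lt_trans (h2 (by omega)) hn
          · rw [← h1 h3.symm]; exact hn
        · rw [← hn]; exact h2 hn2
      rcases max_cases ((cnt Th (ball x r) : ℤ) - 1) 0 with ⟨e, _⟩ | ⟨e, _⟩ <;> rw [e] at c3 <;> omega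
  · intro hneg
    by_cases hC : NegC Z Pl u x s
    · have c3 := c1 hC
      have hr1 : 1 ≤ u x r := by
        by_contra hcon
        exact hneg (Or.inl (not_le.mp hcon))
      rcases hC with hC | ⟨hC, hC2⟩
      · have hN2 : 2 ≤ NN Z Pl (ball x r) := by
          by_contra hcon
          rcases lt_or_eq_of_le (show NN Z Pl (ball x r) ≤ 1 by omega) with h3 | h3
          · have := h0 (by omega); linarith
          · have := h1 h3; linarith
        refine le_trans c3 (le_trans ?_ (le_max_left _ _))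
        omega
      · exfalso
        rw [hN] at hC2
        have := h0 hC2
        linarith
    · exact c2 hC

theorem mem_inO {x : K} {r : ℝ} {i : ι} :
    i ∈ inO I a c x r ↔ i ∈ I ∧ a i ∈ ball x r ∧ ‖c i‖ < r := by
  classical
  simp [inO]

theorem mem_inC {x : K} {r : ℝ} {i : ι} :
    i ∈ inC I a c x r ↔ i ∈ I ∧ a i ∈ closedBall x r ∧ ‖c i‖ ≤ r := by
  classical
  simp [inC]

/-- The items in a closed ball: the ball itself and those contained in the directions. -/
theorem sum_inC (hc : ∀ i ∈ I, c i ≠ 0) {x y : K} (hy : y ≠ 0) (V : Finset (kK K))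
    (hV : ∀ i ∈ I, a i ∈ closedBall x ‖y‖ → dirOf x y (a i) ∈ V) :
    ∑ i ∈ inC I a c x ‖y‖, wt i =
      ∑ v ∈ V, ∑ i ∈ inO I a c (x + y * rep v) ‖y‖, wt i +
      ∑ i ∈ (inC I a c x ‖y‖).filter (fun i => ‖c i‖ = ‖y‖), wt i := by
  classical
  rw [← Finset.sum_filter_add_sum_filter_not (inC I a c x ‖y‖) (fun i => ‖c i‖ = ‖y‖)]
  rw [add_comm]
  congr 1
  have hmaps : ∀ i ∈ (inC I a c x ‖y‖).filter (fun i => ¬ ‖c i‖ = ‖y‖), dirOf x y (a i) ∈ V := by
    intro i hi
    rw [Finset.mem_filter, mem_inC] at hi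
    exact hV i hi.1.1 hi.1.2.1
  rw [← Finset.sum_fiberwise_of_maps_to hmaps]
  apply Finset.sum_congr rfl
  intro v _
  apply Finset.sum_congr _ (fun _ _ => rfl)
  ext i
  rw [Finset.mem_filter, Finset.mem_filter, mem_inC, mem_inO]
  constructor
  · rintro ⟨⟨⟨h1, h2, h3⟩, h4⟩, h5⟩
    exact ⟨h1, (mem_dirB_iff hy).mpr ⟨h2, h5⟩, lt_of_le_of_ne h3 h4⟩
  · rintro ⟨h1, h2, h3⟩
    obtain ⟨h4, h5⟩ := (mem_dirB_iff hy).mp h2
    exact ⟨⟨⟨h1, h4, h3.le⟩, h3.ne⟩, h5⟩

theorem inO_congr {x x' : K} {r : ℝ} (h : ‖x - x'‖ < r) : inO I a c x r = inO I a c x' r := by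
  have hb : ball x r = ball x' r := by
    apply IsUltrametricDist.ball_eq_of_mem
    rw [mem_ball, dist_eq_norm, norm_sub_rev]
    exact h
  ext i
  rw [mem_inO, mem_inO, hb]

theorem inC_congr {x x' : K} {r : ℝ} (h : ‖x - x'‖ ≤ r) : inC I a c x r = inC I a c x' r := by
  have hb : closedBall x r = closedBall x' r := by
    apply IsUltrametricDist.closedBall_eq_of_mem
    rw [mem_closedBall, dist_eq_norm, norm_sub_rev]
    exact h
  ext i
  rw [mem_inC, mem_inC, hb]

theorem claimO_congr (h : TreeHyp Z Pl Th u) {x x' : K} {r : ℝ} (hx : ‖x - x'‖ < r)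
    (hcl : ClaimO Z Pl Th u I a c wt x r) : ClaimO Z Pl Th u I a c wt x' r := by
  have hr : 0 < r := lt_of_le_of_lt (norm_nonneg _) hx
  have hb : ball x r = ball x' r := by
    apply IsUltrametricDist.ball_eq_of_mem
    rw [mem_ball, dist_eq_norm, norm_sub_rev]
    exact hx
  have hu := h.cong x x' r hr hx.le
  rw [ClaimO, NegO, hb, hu, inO_congr hx] at hcl
  exact hcl

theorem claimC_congr (h : TreeHyp Z Pl Th u) {x x' : K} {r : ℝ} (hr : 0 < r) (hx : ‖x - x'‖ ≤ r)
    (hcl : ClaimC Z Pl Th u I a c wt x r) : ClaimC Z Pl Th u I a c wt x' r := by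
  have hb : closedBall x r = closedBall x' r := by
    apply IsUltrametricDist.closedBall_eq_of_mem
    rw [mem_closedBall, dist_eq_norm, norm_sub_rev]
    exact hx
  have hu := h.cong x x' r hr hx
  rw [ClaimC, NegC, hb, hu, inC_congr hx] at hcl
  exact hcl

/-- **Merge step**, in a frame adapted to the item at the ball, if there is one. -/
theorem merge_aux (h : TreeHyp Z Pl Th u) (hI : TreeItems Z Pl Th u I a c wt) {x y : K}
    (hy : y ≠ 0) (hcl : ∀ v : kK K, ClaimO Z Pl Th u I a c wt (x + y * rep v) ‖y‖)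
    (hcase : (∀ i ∈ inC I a c x ‖y‖, ‖c i‖ ≠ ‖y‖) ∨ (∃ i ∈ I, a i = x ∧ c i = y)) :
    ClaimC Z Pl Th u I a c wt x ‖y‖ := by
  classical
  have hy' : 0 < ‖y‖ := norm_pos_iff.mpr hy
  -- directions
  set V : Finset (kK K) := ((Z + Pl + Th).toFinset.image (dirOf x y)) ∪ (I.image (fun i => dirOf x y (a i)))
    with hVdef
  have hVZ : ∀ z ∈ Z, z ∈ closedBall x ‖y‖ → dirOf x y z ∈ V := by
    intro z hz _
    refine Finset.mem_union_left _ (Finset.mem_image_of_mem _ ?_)
    simp [hz]
  have hVP : ∀ z ∈ Pl, z ∈ closedBall x ‖y‖ → dirOf x y z ∈ V := by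
    intro z hz _
    refine Finset.mem_union_left _ (Finset.mem_image_of_mem _ ?_)
    simp [hz]
  have hVT : ∀ z ∈ Th, z ∈ closedBall x ‖y‖ → dirOf x y z ∈ V := by
    intro z hz _
    refine Finset.mem_union_left _ (Finset.mem_image_of_mem _ ?_)
    simp [hz]
  have hVI : ∀ i ∈ I, a i ∈ closedBall x ‖y‖ → dirOf x y (a i) ∈ V := by
    intro i hi _
    exact Finset.mem_union_right _ (Finset.mem_image_of_mem (fun i => dirOf x y (a i)) hi)
  have sZ := cnt_closedBall_eq_sum hy Z V hVZ
  have sP := cnt_closedBall_eq_sum hy Pl V hVP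
  have sT := cnt_closedBall_eq_sum hy Th V hVT
  have sI := sum_inC (wt := wt) hI.hc hy V hVI
  have sN : NN Z Pl (closedBall x ‖y‖) = ∑ v ∈ V, NN Z Pl (dirB x y v) := by
    simp only [NN, Finset.sum_sub_distrib]
    rw [sZ, sP]
    push_cast
    rfl
  have sT' : (cnt Th (closedBall x ‖y‖) : ℤ) = ∑ v ∈ V, (cnt Th (dirB x y v) : ℤ) := by
    rw [sT]; push_cast; rfl
  -- u is constant
  have hu : ∀ v : kK K, u (x + y * rep v) ‖y‖ = u x ‖y‖ := by
    intro v
    apply h.cong _ _ _ hy'
    have : x + y * rep v - x = y * rep v := by ring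
    rw [this, norm_mul]
    exact mul_le_of_le_one_right hy'.le (norm_rep_le v)
  set W : kK K → ℤ := fun v => ∑ i ∈ inO I a c (x + y * rep v) ‖y‖, wt i with hW
  have hcl1 : ∀ v, (u x ‖y‖ < 1 ∨ (u x ‖y‖ = 1 ∧ 2 ≤ NN Z Pl (dirB x y v))) →
      W v ≤ (cnt Th (dirB x y v) : ℤ) - NN Z Pl (dirB x y v) := by
    intro v hv
    refine (hcl v).1 ?_
    rw [NegO, hu v]
    exact hv
  have hcl2 : ∀ v, ¬ (u x ‖y‖ < 1 ∨ (u x ‖y‖ = 1 ∧ 2 ≤ NN Z Pl (dirB x y v))) →
      W v ≤ max ((cnt Th (dirB x y v) : ℤ) - 1) 0 := by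
    intro v hv
    refine (hcl v).2 ?_
    rw [NegO, hu v]
    exact hv
  set J := (inC I a c x ‖y‖).filter (fun i => ‖c i‖ = ‖y‖) with hJ
  have hJone : ∀ i ∈ J, u x ‖y‖ = 1 := by
    intro i hi
    rw [hJ, Finset.mem_filter, mem_inC] at hi
    obtain ⟨⟨h1, h2, h3⟩, h4⟩ := hi
    rw [← hI.one i h1, h4]
    apply (h.cong _ _ _ hy' _).symm
    rwa [mem_closedBall, dist_eq_norm] at h2
  -- main case distinction
  rcases lt_trichotomy (u x ‖y‖) 1 with hlt | heq | hgt
  · -- u < 1
    have hJe : J = ∅ := by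
      rw [Finset.eq_empty_iff_forall_notMem]
      intro i hi
      have := hJone i hi
      linarith
    have hsum : ∑ i ∈ inC I a c x ‖y‖, wt i ≤
        (cnt Th (closedBall x ‖y‖) : ℤ) - NN Z Pl (closedBall x ‖y‖) := by
      rw [sI, hJe, Finset.sum_empty, add_zero, sT', sN, ← Finset.sum_sub_distrib]
      apply Finset.sum_le_sum
      intro v _
      exact hcl1 v (Or.inl hlt)
    exact ⟨fun _ => hsum, fun hn => absurd (Or.inl hlt) hn⟩
  · -- u = 1
    have hWb : ∀ v, W v ≤ (cnt Th (dirB x y v) : ℤ) - max (NN Z Pl (dirB x y v)) 0 +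
        (if NN Z Pl (dirB x y v) = 1 ∧ cnt Th (dirB x y v) = 0 then 1 else 0) := by
      intro v
      by_cases h2 : 2 ≤ NN Z Pl (dirB x y v)
      · have := hcl1 v (Or.inr ⟨heq, h2⟩)
        rw [max_eq_left (by omega), if_neg (by omega)]
        omega
      · have h3 := hcl2 v (by
          rintro (h3 | ⟨_, h3⟩)
          · linarith
          · exact h2 h3)
        by_cases h1 : NN Z Pl (dirB x y v) = 1
        · rw [h1]
          by_cases h0 : cnt Th (dirB x y v) = 0
          · rw [if_pos ⟨rfl, h0⟩]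
            rw [h0] at h3 ⊢
            norm_num at h3 ⊢
            exact h3
          · rw [if_neg (by tauto)]
            rw [max_eq_left (by omega)] at h3
            norm_num
            omega
        · rw [if_neg (by tauto), max_eq_right (by omega : NN Z Pl (dirB x y v) ≤ 0)]
          have : max ((cnt Th (dirB x y v) : ℤ) - 1) 0 ≤ cnt Th (dirB x y v) := by
            apply max_le <;> omega
          omega
    by_cases hJe : J = ∅
    · -- no item at the ball itself
      have hWθ : ∀ v, W v ≤ (cnt Th (dirB x y v) : ℤ) ∧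
          (1 ≤ W v → W v ≤ (cnt Th (dirB x y v) : ℤ) - 1) := by
        intro v
        by_cases h2 : 2 ≤ NN Z Pl (dirB x y v)
        · have := hcl1 v (Or.inr ⟨heq, h2⟩)
          constructor
          · omega
          · intro _; omega
        · have h3 := hcl2 v (by
            rintro (h3 | ⟨_, h3⟩)
            · linarith
            · exact h2 h3)
          rcases max_cases ((cnt Th (dirB x y v) : ℤ) - 1) 0 with ⟨e, _⟩ | ⟨e, _⟩ <;>
            rw [e] at h3
          · constructor
            · omega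
            · intro _; omega
          · constructor
            · omega
            · intro _; omega
      have hmain : ∑ i ∈ inC I a c x ‖y‖, wt i ≤ max ((cnt Th (closedBall x ‖y‖) : ℤ) - 1) 0 := by
        rw [sI, hJe, Finset.sum_empty, add_zero, sT']
        by_cases hex : ∃ v ∈ V, 1 ≤ W v
        · obtain ⟨v, hv, hv1⟩ := hex
          refine le_trans ?_ (le_max_left _ _)
          rw [← Finset.add_sum_erase V _ hv, ← Finset.add_sum_erase V (fun v => (cnt Th (dirB x y v) : ℤ)) hv]
          have e1 := (hWθ v).2 hv1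
          have e2 : ∑ w ∈ V.erase v, W w ≤ ∑ w ∈ V.erase v, (cnt Th (dirB x y w) : ℤ) :=
            Finset.sum_le_sum (fun w _ => (hWθ w).1)
          simp only [hW] at e1 e2 ⊢
          linarith
        · refine le_trans ?_ (le_max_right _ _)
          apply Finset.sum_nonpos
          intro v hv
          by_contra hcon
          exact hex ⟨v, hv, by simp only [hW]; omega⟩
      refine ⟨fun hn => ?_, fun _ => hmain⟩
      rcases hn with hn | ⟨_, hn⟩
      · linarith
      · refine le_trans hmain ?_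
        apply max_le <;> omega
    · -- an item at the ball itself
      obtain ⟨i, hiI, rfl, rfl⟩ : ∃ i ∈ I, a i = x ∧ c i = y := by
        rcases hcase with hcase | hcase
        · exfalso
          apply hJe
          rw [Finset.eq_empty_iff_forall_notMem]
          intro i hi
          rw [hJ, Finset.mem_filter] at hi
          exact hcase i hi.1 hi.2
        · exact hcase
      have hJ1 : J = {i} := by
        apply Finset.eq_singleton_iff_unique_mem.mpr
        constructor
        · rw [hJ, Finset.mem_filter, mem_inC]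
          exact ⟨⟨hiI, mem_closedBall_self (norm_nonneg _), le_rfl⟩, rfl⟩
        · intro j hj
          rw [hJ, Finset.mem_filter, mem_inC] at hj
          obtain ⟨⟨hjI, hja, _⟩, hjc⟩ := hj
          apply hI.sep j hjI i hiI _ hjc
          rwa [hjc, ← dist_eq_norm, ← mem_closedBall]
      have hloc := hI.loc i hiI V
        (fun v hv => by
          by_contra hcon
          apply hv
          have : cnt Z (dirB (a i) (c i) v) = 0 := by
            rw [cnt_eq_zero_iff]
            intro z hz hz2
            obtain ⟨h3, h4⟩ := (mem_dirB_iff hy).mp hz2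
            exact hcon (h4 ▸ hVZ z hz h3)
          exact this)
        (fun v hv => by
          by_contra hcon
          apply hv
          have : cnt Pl (dirB (a i) (c i) v) = 0 := by
            rw [cnt_eq_zero_iff]
            intro z hz hz2
            obtain ⟨h3, h4⟩ := (mem_dirB_iff hy).mp hz2
            exact hcon (h4 ▸ hVP z hz h3)
          exact this)
      have hsumW : ∑ v ∈ V, W v ≤ ∑ v ∈ V, ((cnt Th (dirB (a i) (c i) v) : ℤ) -
          (max (NN Z Pl (dirB (a i) (c i) v)) 0 -
          (if NN Z Pl (dirB (a i) (c i) v) = 1 ∧ cnt Th (dirB (a i) (c i) v) = 0 then 1 else 0))) := by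
        apply Finset.sum_le_sum
        intro v _
        have := hWb v
        linarith
      rw [Finset.sum_sub_distrib] at hsumW
      have htot : ∑ j ∈ inC I a c (a i) ‖c i‖, wt j ≤ (cnt Th (closedBall (a i) ‖c i‖) : ℤ) +
          (max 1 (2 - NN Z Pl (closedBall (a i) ‖c i‖)) - 2) := by
        rw [sI, hJ1, Finset.sum_singleton, sT']
        simp only [hW] at hsumW
        linarith
      constructor
      · rintro (hn | ⟨_, hn⟩)
        · linarith
        · rw [max_eq_right (by omega)] at htot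
          linarith
      · intro hn
        have hN1 : 1 ≤ NN Z Pl (closedBall (a i) ‖c i‖) := by
          by_contra hcon
          exact hn (Or.inr ⟨heq, by omega⟩)
        rw [max_eq_left (by omega)] at htot
        refine le_trans htot (le_trans ?_ (le_max_left _ _))
        linarith
  · -- u > 1
    have hJe : J = ∅ := by
      rw [Finset.eq_empty_iff_forall_notMem]
      intro i hi
      have := hJone i hi
      linarith
    have hnn : ¬ NegC Z Pl u x ‖y‖ := by
      rintro (h1 | ⟨h1, _⟩) <;> linarith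
    refine ⟨fun hn => absurd hn hnn, fun _ => ?_⟩
    rw [sI, hJe, Finset.sum_empty, add_zero, sT']
    have hW' : ∀ v, W v ≤ max ((cnt Th (dirB x y v) : ℤ) - 1) 0 := by
      intro v
      apply hcl2
      rintro (h1 | ⟨h1, _⟩) <;> linarith
    by_cases hex : ∃ v ∈ V, 1 ≤ W v
    · obtain ⟨v, hv, hv1⟩ := hex
      refine le_trans ?_ (le_max_left _ _)
      rw [← Finset.add_sum_erase V _ hv, ← Finset.add_sum_erase V (fun v => (cnt Th (dirB x y v) : ℤ)) hv]
      have e1 : W v ≤ (cnt Th (dirB x y v) : ℤ) - 1 := by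
        have := hW' v
        rcases max_cases ((cnt Th (dirB x y v) : ℤ) - 1) 0 with ⟨e, _⟩ | ⟨e, _⟩ <;>
          rw [e] at this <;> omega
      have e2 : ∑ w ∈ V.erase v, W w ≤ ∑ w ∈ V.erase v, (cnt Th (dirB x y w) : ℤ) := by
        apply Finset.sum_le_sum
        intro w _
        refine le_trans (hW' w) ?_
        apply max_le <;> omega
      simp only [hW] at e1 e2 ⊢
      linarith
    · refine le_trans ?_ (le_max_right _ _)
      apply Finset.sum_nonpos
      intro v hv
      by_contra hcon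
      exact hex ⟨v, hv, by simp only [hW]; omega⟩

/-- **Merge step.** -/
theorem merge_step (h : TreeHyp Z Pl Th u) (hI : TreeItems Z Pl Th u I a c wt) {x y : K}
    (hy : y ≠ 0) (hcl : ∀ v : kK K, ClaimO Z Pl Th u I a c wt (x + y * rep v) ‖y‖) :
    ClaimC Z Pl Th u I a c wt x ‖y‖ := by
  by_cases hex : ∃ i ∈ inC I a c x ‖y‖, ‖c i‖ = ‖y‖
  · obtain ⟨i, hi, hic⟩ := hex
    rw [mem_inC] at hi
    obtain ⟨hiI, hia, _⟩ := hi
    have hd : ‖a i - x‖ ≤ ‖y‖ := by rwa [mem_closedBall, dist_eq_norm] at hia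
    have hc := hI.hc i hiI
    have hmain : ClaimC Z Pl Th u I a c wt (a i) ‖c i‖ := by
      apply merge_aux h hI hc _ (Or.inr ⟨i, hiI, rfl, rfl⟩)
      intro v
      set z := a i + c i * rep v with hz
      have hzx : z ∈ closedBall x ‖y‖ := by
        rw [mem_closedBall, dist_eq_norm]
        have e : z - x = (a i - x) + c i * rep v := by rw [hz]; ring
        rw [e]
        refine le_trans (IsUltrametricDist.norm_add_le_max _ _) (max_le hd ?_)
        rw [norm_mul, hic]
        exact mul_le_of_le_one_right (norm_nonneg _) (norm_rep_le v)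
      have hz2 : z ∈ dirB x y (dirOf x y z) := (mem_dirB_iff hy).mpr ⟨hzx, rfl⟩
      have := hcl (dirOf x y z)
      rw [hic]
      apply claimO_congr h _ this
      rw [dirB, mem_ball, dist_eq_norm, norm_sub_rev] at hz2
      exact hz2
    rw [hic] at hmain
    exact claimC_congr h (norm_pos_iff.mpr hy) hd hmain
  · exact merge_aux h hI hy hcl (Or.inl (fun i hi hic => hex ⟨i, hi, hic⟩))

end PoolBerk
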