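import Pool.Agent.H.MP_db48a2_an.Bg.LocPoly

/-!
# Values and degrees of compositions of rational functions
-/

namespace PoolBerk

open Polynomial Finset

variable {k : Type*} [Field k]

theorem ValHev_cross {A B h α β h' α' β' : k[X]} (hh : h ≠ 0) (hh' : h' ≠ 0) (hA : A = h * α)
    (hB : B = h * β) (hA' : A = h' * α') (hB' : B = h' * β') : α * β' = β * α' := by
  apply mul_left_cancel₀ (mul_ne_zero hh hh')
  calc h * h' * (α * β') = (h * α) * (h' * β') := by ring
    _ = A * B := by rw [← hA, ← hB']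
    _ = (h' * α') * (h * β) := by rw [← hA', ← hB]
    _ = h * h' * (β * α') := by ring

theorem ValHev_eval_ne {α β : k[X]} (hc : IsCoprime α β) {v w : k}
    (hv : α.eval v = w * β.eval v) : β.eval v ≠ 0 := by
  intro h0
  obtain ⟨a, b, hab⟩ := hc
  have h1 := congrArg (eval v) hab
  rw [eval_add, eval_mul, eval_mul, hv, h0, eval_one] at h1
  simp at h1

/-- the value may be read off from any coprime decomposition -/
theorem ValHev_iff {A B h α β : k[X]} (hh : h ≠ 0) (hc : IsCoprime α β) (hA : A = h * α)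
    (hB : B = h * β) (v w : k) : Val A B v w ↔ α.eval v = w * β.eval v := by
  constructor
  · rintro ⟨h', α', β', hh', hc', hA', hB', hv'⟩
    have h1 := ValHev_cross hh hh' hA hB hA' hB'
    have h2 := ValHev_eval_ne hc' hv'
    have h3 := congrArg (eval v) h1
    rw [eval_mul, eval_mul, hv'] at h3
    apply mul_right_cancel₀ h2
    rw [h3]
    ring
  · intro hv
    exact ⟨h, α, β, hh, hc, hA, hB, hv⟩

theorem Val.unique {A B : k[X]} {v w w' : k} (h : Val A B v w) (h' : Val A B v w') : w = w' := by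
  obtain ⟨g, α, β, hg, hc, hA, hB, hv⟩ := h
  have h1 := (ValHev_iff hg hc hA hB v w').1 h'
  have h2 := ValHev_eval_ne hc hv
  apply mul_right_cancel₀ h2
  rw [← hv, h1]

theorem val_div {A B : k[X]} (hB : B ≠ 0) {v : k} (hv : B.eval v ≠ 0) :
    Val A B v (A.eval v / B.eval v) := by
  obtain ⟨H, p, q, hH, hA, hB', hc, hq, _⟩ := exists_coprime_parts (p := A) hB
  rw [ValHev_iff hH hc hA hB']
  have h1 : B.eval v = H.eval v * q.eval v := by
    rw [← eval_mul, ← hB']
  have h2 : A.eval v = H.eval v * p.eval v := by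
    rw [← eval_mul, ← hA]
  rw [h1] at hv
  have h3 : H.eval v ≠ 0 := left_ne_zero_of_mul hv
  have h4 : q.eval v ≠ 0 := right_ne_zero_of_mul hv
  rw [h1, h2]
  field_simp

/-- the degree may be read off from any coprime decomposition -/
theorem ValHev_deg {A B h α β : k[X]} (hB0 : B ≠ 0) (hh : h ≠ 0) (hc : IsCoprime α β)
    (hA : A = h * α) (hB : B = h * β) : degPQ A B = max α.natDegree β.natDegree := by
  obtain ⟨h', α', β', hh', hA', hB', hc', _, hdeg⟩ := exists_coprime_parts (p := A) hB0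
  rw [hdeg]
  have h1 := ValHev_cross hh hh' hA hB hA' hB'
  have d1 : α ∣ α' := hc.dvd_of_dvd_mul_left ⟨β', h1.symm⟩
  have d2 : α' ∣ α := hc'.dvd_of_dvd_mul_right ⟨β, by rw [h1]; ring⟩
  have d3 : β ∣ β' := hc.symm.dvd_of_dvd_mul_left ⟨α', h1⟩
  have d4 : β' ∣ β := hc'.symm.dvd_of_dvd_mul_right ⟨α, by rw [← h1]; ring⟩
  have e1 : α'.natDegree = α.natDegree :=
    natDegree_eq_of_degree_eq (degree_eq_degree_of_associated (associated_of_dvd_dvd d2 d1))
  have e2 : β'.natDegree = β.natDegree :=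
    natDegree_eq_of_degree_eq (degree_eq_degree_of_associated (associated_of_dvd_dvd d4 d3))
  rw [e1, e2]

theorem ValHev_nonC {A B h α β : k[X]} (hN : NonC A B) (hA : A = h * α) (hB : B = h * β) :
    NonC α β := by
  refine ⟨fun h0 => hN.1 (by rw [hB, h0, mul_zero]), fun t ht => hN.2 t ?_⟩
  rw [hA, hB, ht]
  ring

theorem ValHev_natDegree {A B h α β : k[X]} (hh : h ≠ 0) (hβ : β ≠ 0) {m : ℕ}
    (hA : A = h * α) (hB : B = h * β) (hAm : A.natDegree ≤ m) (hBm : B.natDegree ≤ m) :
    h.natDegree + max α.natDegree β.natDegree ≤ m := by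
  rw [hB, natDegree_mul hh hβ] at hBm
  rcases le_total α.natDegree β.natDegree with h1 | h1
  · rw [max_eq_right h1]
    exact hBm
  · rw [max_eq_left h1]
    by_cases hα : α = 0
    · rw [hα, natDegree_zero] at h1 ⊢
      omega
    · rw [hA, natDegree_mul hh hα] at hAm
      exact hAm

/-- decomposition of a composition -/
theorem ValHev_decomp [IsAlgClosed k] {m : ℕ} {A B A' B' : k[X]} (h : NonC A B)
    (h' : NonC A' B') (hA : A'.natDegree ≤ m) (hB : B'.natDegree ≤ m)
    {g α β g' α' β' : k[X]} (hg : g ≠ 0) (hc : IsCoprime α β) (eA : A = g * α) (eB : B = g * β)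
    (hg' : g' ≠ 0) (hc' : IsCoprime α' β') (eA' : A' = g' * α') (eB' : B' = g' * β') :
    ∃ H : k[X], H ≠ 0 ∧
      IsCoprime (hev (max α'.natDegree β'.natDegree) α' α β)
        (hev (max α'.natDegree β'.natDegree) β' α β) ∧
      hev m A' A B = H * hev (max α'.natDegree β'.natDegree) α' α β ∧
      hev m B' A B = H * hev (max α'.natDegree β'.natDegree) β' α β := by
  have hβ' : β' ≠ 0 := fun h0 => h'.1 (by rw [eB', h0, mul_zero])
  have hd := ValHev_natDegree hg' hβ' eA' eB' hA hB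
  have hN := ValHev_nonC h eA eB
  set D := max α'.natDegree β'.natDegree with hD
  have hm : m = (m - D) + D := by omega
  have key : ∀ q : k[X], q.natDegree ≤ D →
      hev m (g' * q) A B = g ^ m * hev (m - D) g' α β * hev D q α β := by
    intro q hq
    rw [eA, eB, hev_smul, mul_assoc]
    congr 1
    conv_lhs => rw [hm]
    exact hev_mul (by omega) hq α β
  refine ⟨g ^ m * hev (m - D) g' α β, ?_, ?_, ?_, ?_⟩
  · exact mul_ne_zero (pow_ne_zero _ hg) (hev_ne_zero (by omega) hg' hN)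
  · exact isCoprime_hev hc' rfl hc
  · rw [eA']
    exact key α' (le_max_left _ _)
  · rw [eB']
    exact key β' (le_max_right _ _)

/-- **Values of compositions.** -/
theorem val_hev_iff [IsAlgClosed k] {m : ℕ} {A B A' B' : k[X]} (h : NonC A B) (h' : NonC A' B')
    (hA : A'.natDegree ≤ m) (hB : B'.natDegree ≤ m) {v w z : k} (hv : Val A B v w) :
    Val (hev m A' A B) (hev m B' A B) v z ↔ Val A' B' w z := by
  obtain ⟨g, α, β, hg, hc, eA, eB, hval⟩ := hv
  obtain ⟨g', α', β', hg', eA', eB', hc', _, _⟩ := exists_coprime_parts (p := A') h'.1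
  obtain ⟨H, hH, hcH, e1, e2⟩ := ValHev_decomp h h' hA hB hg hc eA eB hg' hc' eA' eB'
  rw [ValHev_iff hH hcH e1 e2, ValHev_iff hg' hc' eA' eB', eval_hev, eval_hev, hval,
    hevv_mul_right (le_max_left _ _), hevv_mul_right (le_max_right _ _)]
  have h0 := ValHev_eval_ne hc hval
  constructor
  · intro h1
    apply mul_left_cancel₀ (pow_ne_zero _ h0)
    rw [h1]
    ring
  · intro h1
    rw [h1]
    ring

/-- **Degrees of compositions.** -/
theorem degPQ_hev [IsAlgClosed k] {m : ℕ} {A B A' B' : k[X]} (h : NonC A B) (h' : NonC A' B')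
    (hA : A'.natDegree ≤ m) (hB : B'.natDegree ≤ m) :
    degPQ (hev m A' A B) (hev m B' A B) = degPQ A' B' * degPQ A B := by
  obtain ⟨g, α, β, hg, eA, eB, hc, _, hdeg⟩ := exists_coprime_parts (p := A) h.1
  obtain ⟨g', α', β', hg', eA', eB', hc', _, hdeg'⟩ := exists_coprime_parts (p := A') h'.1
  obtain ⟨H, hH, hcH, e1, e2⟩ := ValHev_decomp h h' hA hB hg hc eA eB hg' hc' eA' eB'
  rw [ValHev_deg (hev_ne_zero hB h'.1 h) hH hcH e1 e2, hdeg, hdeg']
  exact natDegree_hev hc' rfl hc rfl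

theorem one_le_degPQ {A B : k[X]} (h : NonC A B) : 1 ≤ degPQ A B := by
  obtain ⟨g, α, β, hg, eA, eB, hc, hq, hdeg⟩ := exists_coprime_parts (p := A) h.1
  rw [hdeg]
  exact one_le_max hq (ValHev_nonC h eA eB).2

theorem degPQ_le {A B : k[X]} (h : NonC A B) {m : ℕ} (hA : A.natDegree ≤ m)
    (hB : B.natDegree ≤ m) : degPQ A B ≤ m := by
  obtain ⟨g, α, β, hg, eA, eB, hc, hq, hdeg⟩ := exists_coprime_parts (p := A) h.1
  rw [hdeg]
  have := ValHev_natDegree hg hq eA eB hA hB
  omega

end PoolBerk
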